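import Mathlib

/-! The `3x+d` maps. -/

namespace Pool.Agent.U773.SP.Dd

open Finset

/-- the `3x+d` map on the integers -/
def T (d x : ℤ) : ℤ := if x % 2 = 0 then x / 2 else (3 * x + d) / 2

/-- the number of odd terms among the first `j` terms `x, T_d x, …, T_d^(j-1) x` -/
def oddTerms (d x : ℤ) (j : ℕ) : ℕ := ((range j).filter (fun i => (T d)^[i] x % 2 = 1)).card

end Pool.Agent.U773.SP.Dd
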