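import Mathlib

/-! Integers which are short sums of `S`-units. -/

namespace Pool.Agent.U773.SP

/-- a nonzero rational number whose numerator and denominator have no prime factors outside `S` -/
def SUnit (S : Finset ℕ) (u : ℚ) : Prop :=
  u ≠ 0 ∧ ∀ p : ℕ, p.Prime → (p ∣ u.num.natAbs ∨ p ∣ u.den) → p ∈ S

/-- `x` is a sum of `r` terms `a u`, where `u` is an `S`-unit and `a` an integer with `|a| ≤ M` -/
def Short (S : Finset ℕ) (r : ℕ) (M : ℝ) (x : ℤ) : Prop :=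
  ∃ (a : Fin r → ℤ) (u : Fin r → ℚ), (∀ i, |(a i : ℝ)| ≤ M) ∧ (∀ i, SUnit S (u i)) ∧
    (x : ℚ) = ∑ i, (a i : ℚ) * u i

end Pool.Agent.U773.SP
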