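import Mathlib
import Pool.Agent.U773.SP.Defs
import Pool.Agent.TH551.SU.CS
import Pool.Agent.TH551.SU.Sui
import Pool.Agent.TH551.SU.Ht
import Pool.Agent.TH551.SU.CRV

/-! Two short sums of `S`-units which are related by an affine map of small height. -/

set_option autoImplicit false

namespace Pool.Agent.U773.SP

open Filter Topology Pool.Agent.TH932.Germs Pool.Agent.TH551.SU

open scoped Classical

lemma sat_sum {s : ℕ} (b : Fin s → ℕ) (hb : ∀ v, (b v).Prime) (hbi : Function.Injective b)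
    (L : ℕ → ℝ) (hL : Tendsto L atTop atTop) {ι : Type} (A : Finset ι) (a g : ι → GG)
    (ha : ∀ i ∈ A, a i ∈ KK L hL) (hg : ∀ i ∈ A, GSU b (g i)) (P : ι → Prop)
    (hP : ∀ i ∈ A, ∀ j ∈ A, g i / g j ∈ KK L hL → (P i ↔ P j))
    (hsum : ∑ i ∈ A, a i * g i = 0) : ∑ i ∈ A.filter P, a i * g i = 0 := by
  have h := CS.cs SUI.sui s b hb hbi L hL ι A
    (fun i => if hi : a i ∈ KK L hL then (⟨a i, hi⟩ : KK L hL) else 0) g
    (fun i => if P i then 1 else 0) hg (fun i hi j hj hij => by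
      have := hP i hi j hj hij
      by_cases h1 : P i
      · rw [if_pos h1, if_pos (this.1 h1)]
      · rw [if_neg h1, if_neg (fun h2 => h1 (this.2 h2))]) (by
      rw [← hsum]
      refine Finset.sum_congr rfl fun i hi => ?_
      rw [dif_pos (ha i hi)])
  have h1 := congrArg (fun p => Polynomial.coeff p 1) h
  simp only [Polynomial.finsetSum_coeff, Polynomial.coeff_zero] at h1
  rw [Finset.sum_filter]
  refine Eq.trans ?_ h1
  refine Finset.sum_congr rfl fun i hi => ?_
  rw [dif_pos (ha i hi), Polynomial.coeff_C_mul, Polynomial.coeff_X_pow]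
  by_cases hp : P i
  · simp [hp]
  · simp [hp]

lemma pow_val_le {q : ℕ} (hq : q.Prime) {z : ℚ} (hz : z ≠ 0) :
    (q : ℝ) ^ (padicValRat q z).natAbs ≤ |(z.num : ℝ)| ∨
    (q : ℝ) ^ (padicValRat q z).natAbs ≤ |((z.den : ℤ) : ℝ)| := by
  have hqf : Fact q.Prime := ⟨hq⟩
  have h1 : padicValRat q z = (padicValNat q z.num.natAbs : ℤ) - (padicValNat q z.den : ℤ) := rfl
  have hnum : z.num.natAbs ≠ 0 := by
    rw [Int.natAbs_ne_zero]
    exact Rat.num_ne_zero.2 hz
  rcases le_total 0 (padicValRat q z) with h | h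
  · left
    have h2 : (padicValRat q z).natAbs ≤ padicValNat q z.num.natAbs := by omega
    have h3 : q ^ (padicValRat q z).natAbs ∣ z.num.natAbs :=
      (pow_dvd_pow q h2).trans pow_padicValNat_dvd
    have h4 := Nat.le_of_dvd (Nat.pos_of_ne_zero hnum) h3
    have h5 : |(z.num : ℝ)| = (z.num.natAbs : ℝ) := by
      rw [Nat.cast_natAbs, Int.cast_abs]
    rw [h5]
    exact_mod_cast h4
  · right
    have h2 : (padicValRat q z).natAbs ≤ padicValNat q z.den := by omega
    have h3 : q ^ (padicValRat q z).natAbs ∣ z.den :=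
      (pow_dvd_pow q h2).trans pow_padicValNat_dvd
    have h4 := Nat.le_of_dvd z.den_pos h3
    have h5 : |((z.den : ℤ) : ℝ)| = (z.den : ℝ) := by
      simp
    rw [h5]
    exact_mod_cast h4

/-- a germ whose valuation at `q` is of the order of `L` is not negligible -/
lemma not_mem_of_val {L : ℕ → ℝ} (hL : Tendsto L atTop atTop) {q : ℕ} (hq : q.Prime) (z : ℕ → ℚ)
    (hz : ∀ n, z n ≠ 0) (hv : ∀ n, L n ≤ (padicValRat q (z n)).natAbs) :
    gm z ∉ KK L hL := by
  intro h
  rw [mem_KK_iff hL] at h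
  obtain ⟨h1, h2⟩ := h
  have hlog : 0 < Real.log q := Real.log_pos (by exact_mod_cast hq.one_lt)
  have e1 := h1 (Real.log q / 2) (by positivity)
  have e2 := h2 (Real.log q / 2) (by positivity)
  have e3 := ev_of_atTop (hL.eventually_gt_atTop 0)
  have : ∀ᶠ n in (UU : Filter ℕ), False := by
    filter_upwards [e1, e2, e3] with n f1 f2 f3
    have hqp : (0 : ℝ) < q := by exact_mod_cast hq.pos
    have key : (q : ℝ) ^ (padicValRat q (z n)).natAbs ≤ Real.exp (Real.log q / 2 * L n) := by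
      rcases pow_val_le hq (hz n) with g | g
      · exact g.trans f1
      · exact g.trans f2
    have h5 : (q : ℝ) ^ (padicValRat q (z n)).natAbs =
        Real.exp (Real.log q * (padicValRat q (z n)).natAbs) := by
      rw [mul_comm, Real.exp_nat_mul, Real.exp_log hqp]
    rw [h5, Real.exp_le_exp] at key
    have h6 := hv n
    nlinarith
  obtain ⟨n, hn⟩ := this.exists
  exact hn

lemma int_mem {L : ℕ → ℝ} (hL : Tendsto L atTop atTop) {m : ℕ → ℤ} (h : Negl L m) :
    gm (fun n => (m n : ℚ)) ∈ KK L hL :=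
  ⟨m, fun _ => 1, h, Negl.one hL, by simp, by congr 1; funext n; simp⟩

lemma negl_of_log {L : ℕ → ℝ} {m : ℕ → ℤ} (K : ℝ)
    (h : ∀ n : ℕ, (n : ℝ) * Real.log (1 + |(m n : ℝ)|) ≤ K * L n) (hL : ∀ n, 0 ≤ L n) :
    Negl L m := by
  intro ε hε
  apply ev_of_atTop
  filter_upwards [eventually_ge_atTop (⌈K / ε⌉₊), eventually_ge_atTop 1] with n hn hn1
  have h1 : K / ε ≤ n := (Nat.le_ceil _).trans (by exact_mod_cast hn)
  have hn0 : (0 : ℝ) < n := by exact_mod_cast hn1
  have h2 : K * L n ≤ ε * n * L n := by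
    rw [div_le_iff₀ hε] at h1
    nlinarith [hL n]
  have h3 : (n : ℝ) * Real.log (1 + |(m n : ℝ)|) ≤ n * (ε * L n) := by
    linarith [h n]
  have h4 : Real.log (1 + |(m n : ℝ)|) ≤ ε * L n := le_of_mul_le_mul_left h3 hn0
  have h5 : 0 < 1 + |(m n : ℝ)| := by positivity
  rw [Real.log_le_iff_le_exp h5] at h4
  linarith

end Pool.Agent.U773.SP
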