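import Mathlib
import Pool.Agent.U773.SP.Core

/-! Two short sums of `S`-units which are related by an affine map of small height. -/

set_option autoImplicit false

namespace Pool.Agent.U773.SP

open Filter Topology Pool.Agent.TH932.Germs Pool.Agent.TH551.SU

open scoped Classical

lemma exists_b (P : Finset ℕ) (hP : ∀ p ∈ P, p.Prime) :
    ∃ (s : ℕ) (b : Fin s → ℕ), (∀ v, (b v).Prime) ∧ Function.Injective b ∧
      ∀ p ∈ P, ∃ v, b v = p := by
  refine ⟨P.card, fun v => (P.equivFin.symm v : ℕ), fun v => hP _ (P.equivFin.symm v).2, ?_, ?_⟩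
  · intro v w h
    exact P.equivFin.symm.injective (Subtype.ext h)
  · intro p hp
    exact ⟨P.equivFin ⟨p, hp⟩, by simp⟩

lemma SUnit.isSU {s : ℕ} {b : Fin s → ℕ} (hb : ∀ v, b v ≠ 0) {S : Finset ℕ}
    (hS : ∀ p ∈ S, p.Prime → ∃ v, b v = p) {u : ℚ} (hu : SUnit S u) : IsSU b u := by
  obtain ⟨hu0, hu1⟩ := hu
  have h1 : IsSU b ((u.num.natAbs : ℕ) : ℚ) := by
    refine Ht.IsSU.nat hb _ ?_ ?_
    · rw [Int.natAbs_ne_zero]
      exact Rat.num_ne_zero.2 hu0
    · intro p hp hpd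
      exact hS p (hu1 p hp (Or.inl hpd)) hp
  have h2 : IsSU b ((u.den : ℕ) : ℚ) := by
    refine Ht.IsSU.nat hb _ u.den_ne_zero ?_
    intro p hp hpd
    exact hS p (hu1 p hp (Or.inr hpd)) hp
  have h3 : IsSU b (u.num : ℚ) := by
    rcases Int.natAbs_eq u.num with h4 | h4
    · have h5 : (u.num : ℚ) = ((u.num.natAbs : ℕ) : ℚ) := by
        conv_lhs => rw [h4]
        rw [Int.cast_natCast]
      rw [h5]
      exact h1
    · have h5 : (u.num : ℚ) = -((u.num.natAbs : ℕ) : ℚ) := by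
        conv_lhs => rw [h4]
        rw [Int.cast_neg, Int.cast_natCast]
      rw [h5]
      exact Ht.IsSU.neg h1
  have h4 := Ht.IsSU.mul hb h3 (Ht.IsSU.inv h2)
  rw [← div_eq_mul_inv, Rat.num_div_den] at h4
  exact h4

lemma SUnit.val {S : Finset ℕ} {u : ℚ} (hu : SUnit S u) {q : ℕ} (hq : q.Prime) (hqS : q ∉ S) :
    padicValRat q u = 0 := by
  have h1 : padicValRat q u = (padicValNat q u.num.natAbs : ℤ) - (padicValNat q u.den : ℤ) := rfl
  have h2 : padicValNat q u.num.natAbs = 0 :=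
    padicValNat.eq_zero_of_not_dvd fun h => hqS (hu.2 q hq (Or.inl h))
  have h3 : padicValNat q u.den = 0 :=
    padicValNat.eq_zero_of_not_dvd fun h => hqS (hu.2 q hq (Or.inr h))
  rw [h1, h2, h3]
  simp

lemma gm_sum {ι : Type} (A : Finset ι) (f : ι → ℕ → ℚ) :
    ∑ i ∈ A, gm (f i) = gm (fun n => ∑ i ∈ A, f i n) := by
  have h : ∀ a : ℕ → ℚ, gm a = Germ.coeRingHom (UU : Filter ℕ) a := fun a => rfl
  simp_rw [h]
  rw [← map_sum]
  congr 1
  funext n
  rw [Finset.sum_apply]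

lemma log_add_le {t M : ℝ} (ht : 0 ≤ t) (hM : 1 ≤ M) (h : t ≤ M) :
    Real.log (1 + t) ≤ 1 + Real.log M := by
  have h1 : Real.log (1 + t) ≤ Real.log (2 * M) := Real.log_le_log (by linarith) (by linarith)
  rw [Real.log_mul (by norm_num) (by linarith)] at h1
  have h2 : Real.log 2 ≤ 1 := by
    have := Real.log_two_lt_d9
    linarith
  linarith

theorem core_q (S : Finset ℕ) (m d : ℕ) (hm : m ≠ 0) (hd : d ≠ 0) (r q : ℕ) (hq : q.Prime)
    (hqS : q ∉ S) :
    ∃ C : ℝ, 0 < C ∧ ∀ (o j : ℕ) (x y B : ℤ) (M : ℝ), 1 ≤ M →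
      (m : ℤ) ^ o * x + B = (d : ℤ) ^ j * y → Short S r M x → Short S r M y →
      Real.log |(x : ℝ)| ≤ C * (1 + o + j + Real.log (1 + |(B : ℝ)|) + Real.log M) ∨
      |(o : ℝ) * padicValNat q m - j * padicValNat q d| ≤ C * (1 + Real.log M) := by
  by_contra hcon
  push Not at hcon
  choose o j x y B M hM heq hx hy h1 h2 using fun n : ℕ => hcon ((n : ℝ) + 1) (by positivity)
  choose a u ha hu hxu using hx
  choose c v hc hv hyv using hy
  have hqf : Fact q.Prime := ⟨hq⟩
  have hmR : (1 : ℝ) ≤ m := by exact_mod_cast Nat.one_le_iff_ne_zero.2 hm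
  have hdR : (1 : ℝ) ≤ d := by exact_mod_cast Nat.one_le_iff_ne_zero.2 hd
  -- the two scales
  obtain ⟨W, hW⟩ : ∃ W : ℕ → ℝ, W = fun n => 1 + (o n : ℝ) + j n + Real.log (1 + |(B n : ℝ)|) +
    Real.log (M n) := ⟨_, rfl⟩
  obtain ⟨L1, hL1⟩ : ∃ L1 : ℕ → ℝ, L1 = fun n => Real.log |(x n : ℝ)| := ⟨_, rfl⟩
  obtain ⟨L2, hL2⟩ : ∃ L2 : ℕ → ℝ, L2 = fun n =>
    |(o n : ℝ) * padicValNat q m - j n * padicValNat q d| := ⟨_, rfl⟩
  have hlB : ∀ n, 0 ≤ Real.log (1 + |(B n : ℝ)|) := fun n =>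
    Real.log_nonneg (by linarith [abs_nonneg (B n : ℝ)])
  have hlM : ∀ n, 0 ≤ Real.log (M n) := fun n => Real.log_nonneg (hM n)
  have hW1 : ∀ n, 1 ≤ W n := by
    intro n
    rw [hW]
    have := hlB n
    have := hlM n
    have h3 : (0 : ℝ) ≤ o n := Nat.cast_nonneg _
    have h4 : (0 : ℝ) ≤ j n := Nat.cast_nonneg _
    simp only
    linarith
  have hWL : ∀ n : ℕ, ((n : ℝ) + 1) * W n < L1 n := by
    intro n
    rw [hW, hL1]
    exact h1 n
  have hML : ∀ n : ℕ, ((n : ℝ) + 1) * (1 + Real.log (M n)) < L2 n := by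
    intro n
    rw [hL2]
    exact h2 n
  have hL1n : ∀ n : ℕ, (n : ℝ) + 1 < L1 n := fun n => by
    have h3 := hWL n
    have h4 := hW1 n
    have h5 : (0 : ℝ) ≤ n := Nat.cast_nonneg n
    nlinarith
  have hL2n : ∀ n : ℕ, (n : ℝ) + 1 < L2 n := fun n => by
    have h3 := hML n
    have h4 := hlM n
    have h5 : (0 : ℝ) ≤ n := Nat.cast_nonneg n
    nlinarith
  have hT1 : Tendsto L1 atTop atTop :=
    tendsto_atTop_mono (fun n => by linarith [hL1n n]) tendsto_natCast_atTop_atTop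
  have hT2 : Tendsto L2 atTop atTop :=
    tendsto_atTop_mono (fun n => by linarith [hL2n n]) tendsto_natCast_atTop_atTop
  have hL10 : ∀ n, 0 ≤ L1 n := fun n => by
    have := hL1n n
    have h5 : (0 : ℝ) ≤ n := Nat.cast_nonneg n
    linarith
  have hL20 : ∀ n, 0 ≤ L2 n := fun n => by
    have := hL2n n
    have h5 : (0 : ℝ) ≤ n := Nat.cast_nonneg n
    linarith
  have negl1 : ∀ (K : ℝ) (f : ℕ → ℤ), 0 ≤ K →
      (∀ n, Real.log (1 + |(f n : ℝ)|) ≤ K * W n) → Negl L1 f := by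
    intro K f hK hf
    refine negl_of_log K (fun n => ?_) hL10
    have h3 := hf n
    have h4 := hWL n
    have h5 : (0 : ℝ) ≤ n := Nat.cast_nonneg n
    have h6 := hW1 n
    calc (n : ℝ) * Real.log (1 + |(f n : ℝ)|) ≤ n * (K * W n) := by gcongr
      _ = K * (n * W n) := by ring
      _ ≤ K * L1 n := by
        apply mul_le_mul_of_nonneg_left _ hK
        nlinarith
  have negl2 : ∀ f : ℕ → ℤ, (∀ n, Real.log (1 + |(f n : ℝ)|) ≤ 1 + Real.log (M n)) →
      Negl L2 f := by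
    intro f hf
    refine negl_of_log 1 (fun n => ?_) hL20
    have h3 := hf n
    have h4 := hML n
    have h5 : (0 : ℝ) ≤ n := Nat.cast_nonneg n
    have h6 := hlM n
    calc (n : ℝ) * Real.log (1 + |(f n : ℝ)|) ≤ n * (1 + Real.log (M n)) := by gcongr
      _ ≤ 1 * L2 n := by nlinarith
  have logpow : ∀ (k : ℝ) (e : ℕ), 1 ≤ k → Real.log (1 + k ^ e) ≤ (1 + Real.log k) * (1 + e) := by
    intro k e hk
    have h3 : (1 : ℝ) ≤ k ^ e := one_le_pow₀ hk
    have h4 := log_add_le (by linarith) h3 le_rfl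
    rw [Real.log_pow] at h4
    have h5 : 0 ≤ Real.log k := Real.log_nonneg hk
    have h6 : (0 : ℝ) ≤ e := Nat.cast_nonneg e
    nlinarith
  have Nm : Negl L1 (fun n => (m : ℤ) ^ (o n)) := by
    refine negl1 (1 + Real.log m) _ (by have := Real.log_nonneg hmR; linarith) fun n => ?_
    have h3 := logpow m (o n) hmR
    have h4 : 0 ≤ Real.log (m : ℝ) := Real.log_nonneg hmR
    have h5 : 1 + (o n : ℝ) ≤ W n := by
      rw [hW]
      simp only
      have := hlB n
      have := hlM n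
      have h4 : (0 : ℝ) ≤ j n := Nat.cast_nonneg _
      linarith
    push_cast
    rw [abs_of_nonneg (by positivity)]
    nlinarith
  have Nd : Negl L1 (fun n => (d : ℤ) ^ (j n)) := by
    refine negl1 (1 + Real.log d) _ (by have := Real.log_nonneg hdR; linarith) fun n => ?_
    have h3 := logpow d (j n) hdR
    have h4 : 0 ≤ Real.log (d : ℝ) := Real.log_nonneg hdR
    have h5 : 1 + (j n : ℝ) ≤ W n := by
      rw [hW]
      simp only
      have := hlB n
      have := hlM n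
      have h4 : (0 : ℝ) ≤ o n := Nat.cast_nonneg _
      linarith
    push_cast
    rw [abs_of_nonneg (by positivity)]
    nlinarith
  have NB : Negl L1 B := by
    refine negl1 1 _ (by norm_num) fun n => ?_
    rw [hW]
    simp only
    have := hlB n
    have := hlM n
    have h4 : (0 : ℝ) ≤ j n := Nat.cast_nonneg _
    have h5 : (0 : ℝ) ≤ o n := Nat.cast_nonneg _
    linarith
  have la : ∀ i n, Real.log (1 + |(a n i : ℝ)|) ≤ 1 + Real.log (M n) := fun i n =>
    log_add_le (abs_nonneg _) (hM n) (ha n i)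
  have lc : ∀ i n, Real.log (1 + |(c n i : ℝ)|) ≤ 1 + Real.log (M n) := fun i n =>
    log_add_le (abs_nonneg _) (hM n) (hc n i)
  have hMW : ∀ n, 1 + Real.log (M n) ≤ 1 * W n := by
    intro n
    rw [hW]
    simp only
    have := hlB n
    have h4 : (0 : ℝ) ≤ j n := Nat.cast_nonneg _
    have h5 : (0 : ℝ) ≤ o n := Nat.cast_nonneg _
    linarith
  have Na1 : ∀ i, Negl L1 (fun n => a n i) := fun i =>
    negl1 1 _ (by norm_num) fun n => (la i n).trans (hMW n)
  have Nc1 : ∀ i, Negl L1 (fun n => c n i) := fun i =>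
    negl1 1 _ (by norm_num) fun n => (lc i n).trans (hMW n)
  have Na2 : ∀ i, Negl L2 (fun n => a n i) := fun i => negl2 _ (la i)
  have Nc2 : ∀ i, Negl L2 (fun n => c n i) := fun i => negl2 _ (lc i)
  -- the primes
  obtain ⟨s, b, hbp, hbi, hbP⟩ := exists_b (S.filter Nat.Prime ∪ m.primeFactors ∪ d.primeFactors)
    (by
      intro p hp
      rw [Finset.mem_union, Finset.mem_union, Finset.mem_filter] at hp
      rcases hp with (hp | hp) | hp
      · exact hp.2
      · exact Nat.prime_of_mem_primeFactors hp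
      · exact Nat.prime_of_mem_primeFactors hp)
  have hb0 : ∀ w, b w ≠ 0 := fun w => (hbp w).ne_zero
  have hSu : ∀ {w : ℚ}, SUnit S w → IsSU b w := fun {w} hw => hw.isSU hb0 (fun p hp hpp =>
    hbP p (Finset.mem_union_left _ (Finset.mem_union_left _ (Finset.mem_filter.2 ⟨hp, hpp⟩))))
  have hmSU : ∀ e : ℕ, IsSU b ((m : ℚ) ^ e) := by
    intro e
    have h3 := Ht.IsSU.nat hb0 (m ^ e) (pow_ne_zero _ hm) (fun p hp hpd => by
      have h4 := hp.dvd_of_dvd_pow hpd
      exact hbP p (Finset.mem_union_left _ (Finset.mem_union_right _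
        (Nat.mem_primeFactors.2 ⟨hp, h4, hm⟩))))
    push_cast at h3
    exact h3
  have hdSU : ∀ e : ℕ, IsSU b ((d : ℚ) ^ e) := by
    intro e
    have h3 := Ht.IsSU.nat hb0 (d ^ e) (pow_ne_zero _ hd) (fun p hp hpd => by
      have h4 := hp.dvd_of_dvd_pow hpd
      exact hbP p (Finset.mem_union_right _
        (Nat.mem_primeFactors.2 ⟨hp, h4, hd⟩)))
    push_cast at h3
    exact h3
  -- germs
  obtain ⟨U, hU⟩ : ∃ U : Fin r → GG, U = fun i => gm (fun n => u n i) := ⟨_, rfl⟩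
  obtain ⟨V, hV⟩ : ∃ V : Fin r → GG, V = fun i => gm (fun n => v n i) := ⟨_, rfl⟩
  obtain ⟨α, hα⟩ : ∃ α : Fin r → GG, α = fun i => gm (fun n => (a n i : ℚ)) := ⟨_, rfl⟩
  obtain ⟨γ, hγ⟩ : ∃ γ : Fin r → GG, γ = fun i => gm (fun n => (c n i : ℚ)) := ⟨_, rfl⟩
  obtain ⟨mo, hmo⟩ : ∃ mo : GG, mo = gm (fun n => (((m : ℤ) ^ (o n) : ℤ) : ℚ)) := ⟨_, rfl⟩
  obtain ⟨dj, hdj⟩ : ∃ dj : GG, dj = gm (fun n => (((d : ℤ) ^ (j n) : ℤ) : ℚ)) := ⟨_, rfl⟩
  have hUS : ∀ i, GSU b (U i) := fun i => ⟨_, by rw [hU], fun n => hSu (hu n i)⟩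
  have hVS : ∀ i, GSU b (V i) := fun i => ⟨_, by rw [hV], fun n => hSu (hv n i)⟩
  have hmoS : GSU b mo := ⟨_, hmo, fun n => by push_cast; exact hmSU _⟩
  have hdjS : GSU b dj := ⟨_, hdj, fun n => by push_cast; exact hdSU _⟩
  have rel : gm (fun n => (B n : ℚ)) + ∑ i, mo * α i * U i - ∑ i, dj * γ i * V i = 0 := by
    have e1 : ∑ i, mo * α i * U i = gm (fun n => ∑ i, (((m : ℤ) ^ (o n) : ℤ) : ℚ) * (a n i : ℚ) * u n i) := by
      rw [← gm_sum]
      refine Finset.sum_congr rfl fun i _ => ?_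
      rw [hmo, hα, hU, gm_mul, gm_mul]
    have e2 : ∑ i, dj * γ i * V i = gm (fun n => ∑ i, (((d : ℤ) ^ (j n) : ℤ) : ℚ) * (c n i : ℚ) * v n i) := by
      rw [← gm_sum]
      refine Finset.sum_congr rfl fun i _ => ?_
      rw [hdj, hγ, hV, gm_mul, gm_mul]
    rw [e1, e2, gm_add, gm_sub, ← gm_zero]
    congr 1
    funext n
    have h3 : ∑ i, (((m : ℤ) ^ (o n) : ℤ) : ℚ) * (a n i : ℚ) * u n i =
        (((m : ℤ) ^ (o n) : ℤ) : ℚ) * x n := by
      rw [hxu n, Finset.mul_sum]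
      exact Finset.sum_congr rfl fun i _ => by ring
    have h4 : ∑ i, (((d : ℤ) ^ (j n) : ℤ) : ℚ) * (c n i : ℚ) * v n i =
        (((d : ℤ) ^ (j n) : ℤ) : ℚ) * y n := by
      rw [hyv n, Finset.mul_sum]
      exact Finset.sum_congr rfl fun i _ => by ring
    rw [h3, h4]
    have h5 : (((m : ℤ) ^ (o n) * x n + B n : ℤ) : ℚ) = (((d : ℤ) ^ (j n) * y n : ℤ) : ℚ) := by
      rw [heq n]
    push_cast at h5 ⊢
    linarith
  -- first scale
  have KB : gm (fun n => (B n : ℚ)) ∈ KK L1 hT1 := int_mem hT1 NB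
  have Kmo1 : mo ∈ KK L1 hT1 := hmo ▸ int_mem hT1 Nm
  have Kdj1 : dj ∈ KK L1 hT1 := hdj ▸ int_mem hT1 Nd
  have Kα1 : ∀ i, α i ∈ KK L1 hT1 := fun i => by rw [hα]; exact int_mem hT1 (Na1 i)
  have Kγ1 : ∀ i, γ i ∈ KK L1 hT1 := fun i => by rw [hγ]; exact int_mem hT1 (Nc1 i)
  have Kα2 : ∀ i, α i ∈ KK L2 hT2 := fun i => by rw [hα]; exact int_mem hT2 (Na2 i)
  have Kγ2 : ∀ i, γ i ∈ KK L2 hT2 := fun i => by rw [hγ]; exact int_mem hT2 (Nc2 i)
  obtain ⟨a1, ha1⟩ : ∃ a1 : Option (Fin r ⊕ Fin r) → GG, a1 = fun k => match k with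
    | none => gm (fun n => (B n : ℚ))
    | some (Sum.inl i) => mo * α i
    | some (Sum.inr i) => -(dj * γ i) := ⟨_, rfl⟩
  obtain ⟨g1, hg1⟩ : ∃ g1 : Option (Fin r ⊕ Fin r) → GG, g1 = fun k => match k with
    | none => 1
    | some (Sum.inl i) => U i
    | some (Sum.inr i) => V i := ⟨_, rfl⟩
  have hg1S : ∀ k, GSU b (g1 k) := by
    intro k
    rw [hg1]
    match k with
    | none => exact CRV.GSU.one
    | some (Sum.inl i) => exact hUS i
    | some (Sum.inr i) => exact hVS i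
  have sum1 : ∑ k, a1 k * g1 k = 0 := by
    rw [← rel, Fintype.sum_option, Fintype.sum_sum_type, ha1, hg1]
    simp only [mul_one, neg_mul, Finset.sum_neg_distrib]
    ring
  have sat1 := sat_sum b hbp hbi L1 hT1 Finset.univ a1 g1 (fun k _ => by
      rw [ha1]
      match k with
      | none => exact KB
      | some (Sum.inl i) => exact (KK L1 hT1).mul_mem Kmo1 (Kα1 i)
      | some (Sum.inr i) => exact (KK L1 hT1).neg_mem ((KK L1 hT1).mul_mem Kdj1 (Kγ1 i)))
    (fun k _ => hg1S k) (fun k => g1 k ∈ KK L1 hT1) (fun k _ l _ hkl => by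
      have hk := CRV.GSU.ne_zero hbp (hg1S k)
      have hl := CRV.GSU.ne_zero hbp (hg1S l)
      constructor
      · intro h3
        have h4 := (KK L1 hT1).div_mem h3 hkl
        rwa [div_div_cancel₀ hk] at h4
      · intro h3
        have h4 := (KK L1 hT1).mul_mem hkl h3
        rwa [div_mul_cancel₀ _ hl] at h4) sum1
  have sat2 : ∑ k ∈ Finset.univ.filter (fun k => ¬ (g1 k ∈ KK L1 hT1)), a1 k * g1 k = 0 := by
    rw [← Finset.sum_filter_add_sum_filter_not Finset.univ (fun k => g1 k ∈ KK L1 hT1), sat1,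
      zero_add] at sum1
    exact sum1
  -- second scale
  obtain ⟨a2, ha2⟩ : ∃ a2 : Option (Fin r ⊕ Fin r) → GG, a2 = fun k => match k with
    | none => 0
    | some (Sum.inl i) => α i
    | some (Sum.inr i) => -(γ i) := ⟨_, rfl⟩
  obtain ⟨g2, hg2⟩ : ∃ g2 : Option (Fin r ⊕ Fin r) → GG, g2 = fun k => match k with
    | none => 1
    | some (Sum.inl i) => mo * U i
    | some (Sum.inr i) => dj * V i := ⟨_, rfl⟩
  have hg2S : ∀ k, GSU b (g2 k) := by
    intro k
    rw [hg2]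
    match k with
    | none => exact CRV.GSU.one
    | some (Sum.inl i) => exact CRV.GSU.mul hbp hmoS (hUS i)
    | some (Sum.inr i) => exact CRV.GSU.mul hbp hdjS (hVS i)
  have hnone : ∀ k ∈ Finset.univ.filter (fun k => ¬ (g1 k ∈ KK L1 hT1)), k ≠ none := by
    intro k hk h
    rw [Finset.mem_filter, h, hg1] at hk
    exact hk.2 (KK L1 hT1).one_mem
  have sum2 : ∑ k ∈ Finset.univ.filter (fun k => ¬ (g1 k ∈ KK L1 hT1)), a2 k * g2 k = 0 := by
    rw [← sat2]
    refine Finset.sum_congr rfl fun k hk => ?_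
    have h3 := hnone k hk
    rw [ha1, ha2, hg1, hg2]
    match k with
    | none => exact absurd rfl h3
    | some (Sum.inl i) => simp only; ring
    | some (Sum.inr i) => simp only; ring
  have sep : ∀ i i', mo * U i / (dj * V i') ∉ KK L2 hT2 := by
    intro i i'
    have e1 : mo * U i / (dj * V i') = gm (fun n => (((m : ℤ) ^ (o n) : ℤ) : ℚ) * u n i /
        ((((d : ℤ) ^ (j n) : ℤ) : ℚ) * v n i')) := by
      rw [hmo, hdj, hU, hV, gm_mul, gm_mul, gm_div]
    rw [e1]
    have hmq : (m : ℚ) ≠ 0 := by exact_mod_cast hm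
    have hdq : (d : ℚ) ≠ 0 := by exact_mod_cast hd
    refine not_mem_of_val hT2 hq _ (fun n => ?_) (fun n => ?_)
    · push_cast
      exact div_ne_zero (mul_ne_zero (pow_ne_zero _ hmq) (hu n i).1)
        (mul_ne_zero (pow_ne_zero _ hdq) (hv n i').1)
    · have e2 : padicValRat q ((((m : ℤ) ^ (o n) : ℤ) : ℚ) * u n i /
          ((((d : ℤ) ^ (j n) : ℤ) : ℚ) * v n i')) =
          (o n : ℤ) * padicValNat q m - (j n : ℤ) * padicValNat q d := by
        push_cast
        rw [padicValRat.div (mul_ne_zero (pow_ne_zero _ hmq) (hu n i).1)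
          (mul_ne_zero (pow_ne_zero _ hdq) (hv n i').1),
          padicValRat.mul (pow_ne_zero _ hmq) (hu n i).1,
          padicValRat.mul (pow_ne_zero _ hdq) (hv n i').1,
          padicValRat.pow, padicValRat.pow, (hu n i).val hq hqS, (hv n i').val hq hqS,
          padicValRat.of_nat, padicValRat.of_nat, add_zero, add_zero]
      rw [e2, Nat.cast_natAbs, hL2]
      simp only [Int.cast_abs, Int.cast_sub, Int.cast_mul, Int.cast_natCast]
      exact le_refl _
  have sat3 := sat_sum b hbp hbi L2 hT2 _ a2 g2 (fun k _ => by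
      rw [ha2]
      match k with
      | none => exact (KK L2 hT2).zero_mem
      | some (Sum.inl i) => exact Kα2 i
      | some (Sum.inr i) => exact (KK L2 hT2).neg_mem (Kγ2 i))
    (fun k _ => hg2S k) (fun k => ∃ i, k = some (Sum.inl i)) (fun k hk l hl hkl => by
      have hk' := hnone k hk
      have hl' := hnone l hl
      match k, l with
      | none, _ => exact absurd rfl hk'
      | _, none => exact absurd rfl hl'
      | some (Sum.inl i), some (Sum.inl i') => exact ⟨fun _ => ⟨i', rfl⟩, fun _ => ⟨i, rfl⟩⟩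
      | some (Sum.inl i), some (Sum.inr i') =>
        exfalso
        rw [hg2] at hkl
        exact sep i i' hkl
      | some (Sum.inr i), some (Sum.inl i') =>
        exfalso
        rw [hg2] at hkl
        have h3 := (KK L2 hT2).inv_mem hkl
        rw [inv_div] at h3
        exact sep i' i h3
      | some (Sum.inr i), some (Sum.inr i') =>
        constructor
        · rintro ⟨i0, h0⟩
          simp at h0
        · rintro ⟨i0, h0⟩
          simp at h0) sum2
  have key : ∑ i with ¬ (U i ∈ KK L1 hT1), α i * U i = 0 := by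
    have h3 : mo * ∑ i with ¬ (U i ∈ KK L1 hT1), α i * U i = 0 := by
      rw [← sat3, Finset.filter_filter, Finset.mul_sum]
      conv_rhs => rw [Finset.sum_filter, Fintype.sum_option, Fintype.sum_sum_type]
      rw [Finset.sum_filter]
      have hh : ∀ (D A B C : GG), A = 0 → C = 0 → D = B → D = A + (B + C) := by
        intro D A B C h1 h2 h3
        rw [h1, h2, h3]
        ring
      refine hh _ _ _ _ ?_ ?_ ?_
      · rw [if_neg]
        rintro ⟨_, i0, h0⟩
        simp at h0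
      · refine Finset.sum_eq_zero fun i _ => ?_
        rw [if_neg]
        rintro ⟨_, i0, h0⟩
        simp at h0
      · refine Finset.sum_congr rfl fun i _ => ?_
        rw [hg1, ha2, hg2]
        simp only [Option.some.injEq, Sum.inl.injEq, exists_eq', and_true]
        split_ifs <;> ring
    rcases mul_eq_zero.1 h3 with h4 | h4
    · exact absurd h4 (CRV.GSU.ne_zero hbp hmoS)
    · exact h4
  have hxK : gm (fun n => (x n : ℚ)) ∈ KK L1 hT1 := by
    have e1 : gm (fun n => (x n : ℚ)) = ∑ i, α i * U i := by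
      have e2 : ∑ i, α i * U i = gm (fun n => ∑ i, (a n i : ℚ) * u n i) := by
        rw [← gm_sum]
        refine Finset.sum_congr rfl fun i _ => ?_
        rw [hα, hU, gm_mul]
      rw [e2]
      congr 1
      funext n
      exact hxu n
    rw [e1, ← Finset.sum_filter_add_sum_filter_not Finset.univ (fun i => U i ∈ KK L1 hT1), key,
      add_zero]
    refine (KK L1 hT1).sum_mem fun i hi => ?_
    rw [Finset.mem_filter] at hi
    exact (KK L1 hT1).mul_mem (Kα1 i) hi.2
  rw [mem_KK_iff] at hxK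
  have h3 := hxK.1 (1 / 2) (by norm_num)
  obtain ⟨n, hn⟩ := h3.exists
  simp only [Rat.num_intCast] at hn
  have h4 := hL1n n
  have h5 : (0 : ℝ) ≤ n := Nat.cast_nonneg n
  have hx0 : (0 : ℝ) < |(x n : ℝ)| := by
    rw [abs_pos]
    intro h0
    rw [hL1] at h4
    simp only [h0, abs_zero, Real.log_zero] at h4
    linarith
  have h6 : L1 n ≤ 1 / 2 * L1 n := by
    conv_lhs => rw [hL1]
    rw [Real.log_le_iff_le_exp hx0]
    exact hn
  linarith

end Pool.Agent.U773.SP
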