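import Mathlib
import Pool.Agent.U773.SP.Core2

/-! An integer which is a short sum of `S`-units is a short sum of `S`-units of small height. -/

set_option autoImplicit false

namespace Pool.Agent.U773.SP

open Filter Topology Pool.Agent.TH932.Germs Pool.Agent.TH551.SU

open scoped Classical

/-- the height of a rational number -/
noncomputable def hgt (u : ℚ) : ℝ := max |(u.num : ℝ)| (u.den : ℝ)

lemma hgt_one : hgt 1 = 1 := by simp [hgt]

lemma one_le_hgt (u : ℚ) : 1 ≤ hgt u := by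
  unfold hgt
  refine le_max_of_le_right ?_
  exact_mod_cast u.den_pos

lemma ev_const {ι : Type} [Finite ι] {p : ι → ℕ → Prop}
    (h : ∀ᶠ n in (UU : Filter ℕ), ∃ i, p i n) : ∃ i, ∀ᶠ n in (UU : Filter ℕ), p i n := by
  by_contra hc
  push Not at hc
  have h1 : ∀ i, ∀ᶠ n in (UU : Filter ℕ), ¬ p i n := fun i => hc i
  have h2 := eventually_all.2 h1
  obtain ⟨n, ⟨i, hi⟩, h3⟩ := (h.and h2).exists
  exact h3 i hi

lemma SUnit.one' (S : Finset ℕ) : SUnit S 1 := by
  refine ⟨one_ne_zero, fun p hp h => ?_⟩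
  simp only [Rat.num_one, Int.natAbs_one, Nat.dvd_one, Rat.den_one, or_self] at h
  exact absurd h hp.ne_one

/-- `x` has the representation `Σ a u` -/
def Rep (S : Finset ℕ) (r : ℕ) (M : ℝ) (x : ℤ) (a : Fin r → ℤ) (u : Fin r → ℚ) : Prop :=
  (∀ i, |(a i : ℝ)| ≤ M) ∧ (∀ i, SUnit S (u i)) ∧ (x : ℚ) = ∑ i, (a i : ℚ) * u i

/-- the number of terms of large height -/
noncomputable def nbig (r : ℕ) (T : ℝ) (u : Fin r → ℚ) : ℕ :=
  (Finset.univ.filter (fun i => T < Real.log (hgt (u i)))).card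

theorem height_bound (S : Finset ℕ) (r : ℕ) :
    ∃ C : ℝ, 0 < C ∧ ∀ (x : ℤ) (M : ℝ), 1 ≤ M → Short S r M x →
      ∃ (a : Fin r → ℤ) (u : Fin r → ℚ), Rep S r M x a u ∧
        ∀ i, Real.log (hgt (u i)) ≤ C * (1 + Real.log (1 + |(x : ℝ)|) + Real.log M) := by
  by_contra hcon
  push Not at hcon
  choose x M hM hx h using fun n : ℕ => hcon ((n : ℝ) + 1) (by positivity)
  obtain ⟨W, hW⟩ : ∃ W : ℕ → ℝ, W = fun n => 1 + Real.log (1 + |(x n : ℝ)|) +
    Real.log (M n) := ⟨_, rfl⟩
  have hlx : ∀ n, 0 ≤ Real.log (1 + |(x n : ℝ)|) := fun n =>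
    Real.log_nonneg (by linarith [abs_nonneg (x n : ℝ)])
  have hlM : ∀ n, 0 ≤ Real.log (M n) := fun n => Real.log_nonneg (hM n)
  -- a representation with the least number of terms of large height
  have hex : ∀ n, ∃ k, ∃ a u, Rep S r (M n) (x n) a u ∧ nbig r (((n : ℝ) + 1) * W n) u = k := by
    intro n
    obtain ⟨a, u, h1, h2, h3⟩ := hx n
    exact ⟨_, a, u, ⟨h1, h2, h3⟩, rfl⟩
  choose a u hau hk using fun n => Nat.find_spec (hex n)
  have hmin : ∀ n, ∀ a' u', Rep S r (M n) (x n) a' u' →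
      nbig r (((n : ℝ) + 1) * W n) (u n) ≤ nbig r (((n : ℝ) + 1) * W n) u' := by
    intro n a' u' h1
    rw [hk n]
    exact Nat.find_min' (hex n) ⟨a', u', h1, rfl⟩
  have hmx : ∀ n, ∃ i0, (∀ i, Real.log (hgt (u n i)) ≤ Real.log (hgt (u n i0))) ∧
      ((n : ℝ) + 1) * W n < Real.log (hgt (u n i0)) := by
    intro n
    obtain ⟨i1, hi1⟩ := h n (a n) (u n) (hau n)
    obtain ⟨i0, -, hi0⟩ := Finset.exists_max_image Finset.univ
      (fun i => Real.log (hgt (u n i))) ⟨i1, Finset.mem_univ _⟩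
    refine ⟨i0, fun i => hi0 i (Finset.mem_univ _), ?_⟩
    refine lt_of_lt_of_le ?_ (hi0 i1 (Finset.mem_univ _))
    rw [hW]
    exact hi1
  choose i0 hi0 hbig using hmx
  obtain ⟨L, hL⟩ : ∃ L : ℕ → ℝ, L = fun n => Real.log (hgt (u n (i0 n))) := ⟨_, rfl⟩
  have hW1 : ∀ n, 1 ≤ W n := by
    intro n
    rw [hW]
    have := hlx n
    have := hlM n
    simp only
    linarith
  have hWL : ∀ n : ℕ, ((n : ℝ) + 1) * W n < L n := by
    intro n
    rw [hL]
    exact hbig n
  have hLn : ∀ n : ℕ, (n : ℝ) + 1 < L n := fun n => by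
    have h3 := hWL n
    have h4 := hW1 n
    have h5 : (0 : ℝ) ≤ n := Nat.cast_nonneg n
    nlinarith
  have hT : Tendsto L atTop atTop :=
    tendsto_atTop_mono (fun n => by linarith [hLn n]) tendsto_natCast_atTop_atTop
  have hL0 : ∀ n, 0 ≤ L n := fun n => by
    have := hLn n
    have h5 : (0 : ℝ) ≤ n := Nat.cast_nonneg n
    linarith
  have negl : ∀ (f : ℕ → ℤ), (∀ n, Real.log (1 + |(f n : ℝ)|) ≤ W n) → Negl L f := by
    intro f hf
    refine negl_of_log 1 (fun n => ?_) hL0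
    have h3 := hf n
    have h4 := hWL n
    have h5 : (0 : ℝ) ≤ n := Nat.cast_nonneg n
    have h6 := hW1 n
    calc (n : ℝ) * Real.log (1 + |(f n : ℝ)|) ≤ n * W n := by gcongr
      _ ≤ 1 * L n := by nlinarith
  have Nx : Negl L x := negl x fun n => by
    rw [hW]
    have := hlM n
    simp only
    linarith
  have Na : ∀ i, Negl L (fun n => a n i) := fun i => negl _ fun n => by
    have h3 := log_add_le (abs_nonneg _) (hM n) ((hau n).1 i)
    rw [hW]
    have := hlx n
    simp only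
    linarith
  obtain ⟨s, b, hbp, hbi, hbP⟩ := exists_b (S.filter Nat.Prime)
    (fun p hp => (Finset.mem_filter.1 hp).2)
  have hb0 : ∀ w, b w ≠ 0 := fun w => (hbp w).ne_zero
  have hSu : ∀ {w : ℚ}, SUnit S w → IsSU b w := fun {w} hw => hw.isSU hb0 (fun p hp hpp =>
    hbP p (Finset.mem_filter.2 ⟨hp, hpp⟩))
  obtain ⟨U, hU⟩ : ∃ U : Fin r → GG, U = fun i => gm (fun n => u n i) := ⟨_, rfl⟩
  obtain ⟨α, hα⟩ : ∃ α : Fin r → GG, α = fun i => gm (fun n => (a n i : ℚ)) := ⟨_, rfl⟩
  have hUS : ∀ i, GSU b (U i) := fun i => ⟨_, by rw [hU], fun n => hSu ((hau n).2.1 i)⟩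
  obtain ⟨a1, ha1⟩ : ∃ a1 : Option (Fin r) → GG, a1 = fun k => match k with
    | none => -gm (fun n => (x n : ℚ))
    | some i => α i := ⟨_, rfl⟩
  obtain ⟨g1, hg1⟩ : ∃ g1 : Option (Fin r) → GG, g1 = fun k => match k with
    | none => 1
    | some i => U i := ⟨_, rfl⟩
  have Kx : gm (fun n => (x n : ℚ)) ∈ KK L hT := int_mem hT Nx
  have Kα : ∀ i, α i ∈ KK L hT := fun i => by rw [hα]; exact int_mem hT (Na i)
  have hg1S : ∀ k, GSU b (g1 k) := by
    intro k
    rw [hg1]
    match k with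
    | none => exact CRV.GSU.one
    | some i => exact hUS i
  have hsum : ∀ I : Finset (Fin r), ∑ i ∈ I, α i * U i =
      gm (fun n => ∑ i ∈ I, (a n i : ℚ) * u n i) := by
    intro I
    rw [← gm_sum]
    refine Finset.sum_congr rfl fun i _ => ?_
    rw [hα, hU, gm_mul]
  have sum1 : ∑ k, a1 k * g1 k = 0 := by
    rw [Fintype.sum_option, ha1, hg1]
    simp only
    rw [hsum, mul_one, neg_add_eq_sub, gm_sub, ← gm_zero]
    congr 1
    funext n
    rw [← (hau n).2.2, sub_self]
  have sat1 := sat_sum b hbp hbi L hT Finset.univ a1 g1 (fun k _ => by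
      rw [ha1]
      match k with
      | none => exact (KK L hT).neg_mem Kx
      | some i => exact Kα i)
    (fun k _ => hg1S k) (fun k => g1 k ∈ KK L hT) (fun k _ l _ hkl => by
      have hk := CRV.GSU.ne_zero hbp (hg1S k)
      have hl := CRV.GSU.ne_zero hbp (hg1S l)
      constructor
      · intro h3
        have h4 := (KK L hT).div_mem h3 hkl
        rwa [div_div_cancel₀ hk] at h4
      · intro h3
        have h4 := (KK L hT).mul_mem hkl h3
        rwa [div_mul_cancel₀ _ hl] at h4) sum1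
  have sat2 : ∑ k ∈ Finset.univ.filter (fun k => ¬ (g1 k ∈ KK L hT)), a1 k * g1 k = 0 := by
    rw [← Finset.sum_filter_add_sum_filter_not Finset.univ (fun k => g1 k ∈ KK L hT), sat1,
      zero_add] at sum1
    exact sum1
  have sat3 : ∑ i ∈ Finset.univ.filter (fun i => ¬ (U i ∈ KK L hT)), α i * U i = 0 := by
    rw [← sat2]
    rw [Finset.sum_filter, Finset.sum_filter, Fintype.sum_option]
    have e1 : g1 none ∈ KK L hT := by
      rw [hg1]
      exact (KK L hT).one_mem
    rw [if_neg (not_not.2 e1), zero_add]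
    refine Finset.sum_congr rfl fun i _ => ?_
    rw [ha1, hg1]
  rw [hsum, ← gm_zero, gm_eq] at sat3
  -- the index of the maximum
  obtain ⟨j0, hj0⟩ := ev_const (p := fun j n => i0 n = j)
    (Eventually.of_forall fun n => ⟨i0 n, rfl⟩)
  have hj0K : ¬ (U j0 ∈ KK L hT) := by
    intro hK
    rw [hU, mem_KK_iff] at hK
    obtain ⟨n, ⟨hn1, hn2⟩, hn3⟩ := ((hK.1 (1 / 2) (by norm_num)).and
      (hK.2 (1 / 2) (by norm_num))).and hj0 |>.exists
    have h4 := hLn n
    have h5 : (0 : ℝ) ≤ n := Nat.cast_nonneg n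
    have h6 : hgt (u n j0) ≤ Real.exp (1 / 2 * L n) := by
      unfold hgt
      refine max_le hn1 ?_
      refine le_trans ?_ hn2
      simp
    have h7 : L n ≤ 1 / 2 * L n := by
      conv_lhs => rw [hL]
      simp only
      rw [hn3, Real.log_le_iff_le_exp (by linarith [one_le_hgt (u n j0)])]
      exact h6
    linarith
  obtain ⟨n, hn1, hn2⟩ := (sat3.and hj0).exists
  -- the shorter representation
  obtain ⟨I, hI⟩ : ∃ I : Finset (Fin r),
    I = Finset.univ.filter (fun i => ¬ (U i ∈ KK L hT)) := ⟨_, rfl⟩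
  rw [← hI] at hn1
  have hjI : j0 ∈ I := by
    rw [hI, Finset.mem_filter]
    exact ⟨Finset.mem_univ _, hj0K⟩
  have hrep : Rep S r (M n) (x n) (fun i => if i ∈ I then 0 else a n i)
      (fun i => if i ∈ I then 1 else u n i) := by
    refine ⟨fun i => ?_, fun i => ?_, ?_⟩
    · show |((if i ∈ I then (0 : ℤ) else a n i : ℤ) : ℝ)| ≤ M n
      split_ifs
      · rw [Int.cast_zero, abs_zero]
        linarith [hM n]
      · exact (hau n).1 i
    · show SUnit S (if i ∈ I then (1 : ℚ) else u n i)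
      split_ifs
      · exact SUnit.one' S
      · exact (hau n).2.1 i
    · rw [(hau n).2.2, ← Finset.sum_filter_add_sum_filter_not Finset.univ (fun i => i ∈ I)]
      have e1 : ∑ i with i ∈ I, (a n i : ℚ) * u n i = 0 := by
        rw [Finset.filter_univ_mem]
        exact hn1
      rw [e1, zero_add]
      conv_rhs => rw [← Finset.sum_filter_add_sum_filter_not Finset.univ (fun i => i ∈ I)]
      have e2 : ∑ i with i ∈ I, (((if i ∈ I then (0 : ℤ) else a n i : ℤ)) : ℚ) *
          (if i ∈ I then (1 : ℚ) else u n i) = 0 := by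
        refine Finset.sum_eq_zero fun i hi => ?_
        rw [Finset.mem_filter] at hi
        rw [if_pos hi.2, Int.cast_zero, zero_mul]
      rw [e2, zero_add]
      refine Finset.sum_congr rfl fun i hi => ?_
      rw [Finset.mem_filter] at hi
      beta_reduce
      rw [if_neg hi.2, if_neg hi.2]
  have hlt := hmin n _ _ hrep
  apply absurd hlt
  push Not
  unfold nbig
  have h0 : (0 : ℝ) ≤ ((n : ℝ) + 1) * W n := by
    have := hW1 n
    positivity
  apply Finset.card_lt_card
  rw [Finset.ssubset_iff]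
  refine ⟨j0, ?_, ?_⟩
  · rw [Finset.mem_filter]
    beta_reduce
    rw [if_pos hjI, hgt_one, Real.log_one]
    intro h3
    linarith [h3.2]
  · intro i hi
    rw [Finset.mem_insert] at hi
    rcases hi with rfl | hi
    · rw [Finset.mem_filter]
      refine ⟨Finset.mem_univ _, ?_⟩
      rw [← hn2]
      exact hbig n
    · rw [Finset.mem_filter] at hi ⊢
      beta_reduce at hi
      refine ⟨Finset.mem_univ _, ?_⟩
      by_cases h3 : i ∈ I
      · rw [if_pos h3, hgt_one, Real.log_one] at hi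
        linarith [hi.2]
      · rw [if_neg h3] at hi
        exact hi.2

end Pool.Agent.U773.SP
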