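import Mathlib
import Pool.Agent.U773.SP.Height
import Pool.Agent.TH551.HA.NC
import Pool.Agent.TH551.HA.SSUI

/-! Two short sums of `S`-units which nearly satisfy a linear relation whose coefficients are
composed of given primes: the difference is not small, or the coefficients have nearly the same
valuations outside `S`. -/

set_option autoImplicit false

namespace Pool.Agent.U773.SP

open Filter Topology Pool.Agent.TH932.Germs Pool.Agent.TH551.SU Pool.Agent.TH551.HA

open scoped Classical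

/-- numbering the classes modulo a subfield -/
lemma exists_numbering {G : Type*} [Field G] (K : Subfield G) {ι : Type} [Fintype ι] (g : ι → G)
    (hg : ∀ i, g i ≠ 0) : ∃ w : ι → ℕ, ∀ i j, w i = w j ↔ g i / g j ∈ K := by
  let s : Setoid ι := ⟨fun i j => g i / g j ∈ K,
    ⟨fun i => by rw [div_self (hg i)]; exact K.one_mem,
     fun {i j} h => by rw [← inv_div]; exact K.inv_mem h,
     fun {i j k} h1 h2 => by
      rw [← div_mul_div_cancel₀ (hg j)]; exact K.mul_mem h1 h2⟩⟩
  have hs : ∀ i j : ι, (Quotient.mk s i = Quotient.mk s j) ↔ g i / g j ∈ K :=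
    fun i j => Quotient.eq
  have hfin : Finite (Quotient s) := inferInstance
  have hft : Fintype (Quotient s) := Fintype.ofFinite _
  let e := Fintype.equivFin (Quotient s)
  refine ⟨fun i => (e (Quotient.mk s i) : ℕ), fun i j => ?_⟩
  rw [← hs]
  constructor
  · intro h
    exact e.injective (Fin.ext h)
  · intro h
    beta_reduce
    rw [h]

/-- the sum over the classes with vanishing sum vanishes -/
lemma sum_vanishing {G : Type*} [Field G] {ι : Type} [Fintype ι] (f : ι → G) (w : ι → ℕ) :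
    ∑ i with (∑ j with w j = w i, f j = 0), f i = 0 := by
  rw [← Finset.sum_fiberwise_of_maps_to (g := w)
    (t := (Finset.univ.filter (fun i => ∑ j with w j = w i, f j = 0)).image w)
    (fun i hi => Finset.mem_image_of_mem w hi)]
  refine Finset.sum_eq_zero fun k hk => ?_
  rw [Finset.mem_image] at hk
  obtain ⟨i, hi, rfl⟩ := hk
  rw [Finset.mem_filter] at hi
  rw [← hi.2]
  apply Finset.sum_congr _ (fun _ _ => rfl)
  ext j
  rw [Finset.mem_filter, Finset.mem_filter, Finset.mem_filter]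
  constructor
  · rintro ⟨⟨h1, _⟩, h3⟩
    exact ⟨h1, h3⟩
  · rintro ⟨h1, h2⟩
    refine ⟨⟨h1, ?_⟩, h2⟩
    rw [h2]

lemma Mod.of_hgt {s : ℕ} {b : Fin s → ℕ} (hb : ∀ v, (b v).Prime) {L : ℕ → ℝ} (K : ℝ)
    (a : ℕ → ℚ) (ha : ∀ n, a n ≠ 0) (h : ∀ n, Real.log (hgt (a n)) ≤ K * L n) :
    Mod b L (gm a) := by
  refine ⟨K, ?_⟩
  filter_upwards [rep_gm a] with n hn v
  rw [hn]
  have hh : hgt (a n) ≤ Real.exp (K * L n) := by
    rw [← Real.log_le_iff_le_exp (by linarith [one_le_hgt (a n)])]
    exact h n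
  have hnum : |((a n).num : ℝ)| ≤ Real.exp (K * L n) := (le_max_left _ _).trans hh
  have hden : ((a n).den : ℝ) ≤ Real.exp (K * L n) := (le_max_right _ _).trans hh
  have hnum0 : (a n).num ≠ 0 := Rat.num_ne_zero.2 (ha n)
  have hnum1 : (1 : ℝ) ≤ |((a n).num : ℝ)| := by
    have := Int.one_le_abs hnum0
    exact_mod_cast this
  have hden1 : (1 : ℝ) ≤ ((a n).den : ℝ) := by exact_mod_cast (a n).den_pos
  have hE : 0 < Real.exp (K * L n) := Real.exp_pos _
  cases v with
  | none =>
    simp only [av]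
    have e1 : |((a n : ℚ) : ℝ)| = |((a n).num : ℝ)| / ((a n).den : ℝ) := by
      conv_lhs => rw [← Rat.num_div_den (a n)]
      push_cast
      rw [abs_div, abs_of_nonneg (by linarith : (0 : ℝ) ≤ ((a n).den : ℝ))]
    rw [e1, Real.exp_neg]
    constructor
    · rw [le_div_iff₀ (by linarith), inv_mul_le_iff₀ hE]
      nlinarith
    · rw [div_le_iff₀ (by linarith)]
      nlinarith
  | some v =>
    have hqf : Fact (b v).Prime := ⟨hb v⟩
    simp only [av]
    have hp1 : (1 : ℝ) < b v := by exact_mod_cast (hb v).one_lt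
    have e1 : ((padicNorm (b v) (a n) : ℚ) : ℝ) = (b v : ℝ) ^ (-(padicValRat (b v) (a n))) := by
      rw [padicNorm.eq_zpow_of_nonzero (ha n)]
      push_cast
      rfl
    have e2 : ((b v : ℕ) : ℝ) ^ (padicValRat (b v) (a n)).natAbs ≤ Real.exp (K * L n) := by
      rcases pow_val_le (hb v) (ha n) with h1 | h1
      · exact h1.trans hnum
      · refine h1.trans (le_trans ?_ hden)
        simp
    rw [e1, Real.exp_neg]
    obtain ⟨k, hk⟩ : ∃ k : ℤ, k = padicValRat (b v) (a n) := ⟨_, rfl⟩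
    rw [← hk] at e2 ⊢
    have e3 : (b v : ℝ) ^ (-k) ≤ (b v : ℝ) ^ ((k.natAbs : ℕ) : ℤ) :=
      zpow_le_zpow_right₀ hp1.le (by omega)
    have e4 : (b v : ℝ) ^ (-((k.natAbs : ℕ) : ℤ)) ≤ (b v : ℝ) ^ (-k) :=
      zpow_le_zpow_right₀ hp1.le (by omega)
    rw [zpow_natCast] at e3
    rw [zpow_neg, zpow_natCast] at e4
    refine ⟨le_trans ?_ e4, e3.trans e2⟩
    exact inv_anti₀ (by positivity) e2

end Pool.Agent.U773.SP
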