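import Mathlib
import Pool.Agent.U773.SP.CoreH

/-! Two short sums of `S`-units which nearly satisfy a linear relation whose coefficients are
composed of given primes: the difference is not small, or the coefficients have nearly the same
valuations outside `S`. -/

set_option autoImplicit false

namespace Pool.Agent.U773.SP

open Filter Topology Pool.Agent.TH932.Germs Pool.Agent.TH551.SU Pool.Agent.TH551.HA

open scoped Classical

lemma val_le_log {q : ℕ} (hq : q.Prime) {A : ℕ} (hA : A ≠ 0) :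
    (padicValNat q A : ℝ) ≤ 2 * Real.log A := by
  have hqf : Fact q.Prime := ⟨hq⟩
  have h1 : q ^ padicValNat q A ≤ A := Nat.le_of_dvd (Nat.pos_of_ne_zero hA) pow_padicValNat_dvd
  have h2 : 2 ^ padicValNat q A ≤ A := (Nat.pow_le_pow_left hq.two_le _).trans h1
  have h3 : ((2 : ℝ)) ^ padicValNat q A ≤ A := by exact_mod_cast h2
  have h4 := Real.log_le_log (by positivity) h3
  rw [Real.log_pow] at h4
  have h5 := Real.log_two_gt_d9
  have h6 : (0 : ℝ) ≤ padicValNat q A := Nat.cast_nonneg _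
  nlinarith

theorem strong_q (S P : Finset ℕ) (r q : ℕ) (hq : q.Prime) (hqS : q ∉ S) (η : ℝ) (hη : 0 < η) :
    ∃ C : ℝ, 0 < C ∧ ∀ (A D : ℕ) (x y B : ℤ) (M : ℝ), A ≠ 0 → D ≠ 0 →
      (∀ p : ℕ, p.Prime → p ∣ A → p ∈ P) → (∀ p : ℕ, p.Prime → p ∣ D → p ∈ P) → 1 ≤ M →
      (A : ℤ) * x + B = (D : ℤ) * y → Short S r M x → Short S r M y →
      (A : ℝ) * |(x : ℝ)| ≤
        |(B : ℝ)| * Real.exp (η * (1 + Real.log A + Real.log D + Real.log (1 + |(x : ℝ)|))) ∨
      |(padicValNat q A : ℝ) - padicValNat q D| ≤ C * (1 + Real.log M) := by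
  by_contra hcon
  push Not at hcon
  choose o j x y B M hA0 hD0 hAP hDP hM heq hx hy h1 h2 using
    fun n : ℕ => hcon ((n : ℝ) + 1) (by positivity)
  have hqf : Fact q.Prime := ⟨hq⟩
  obtain ⟨C0, hC0, hht⟩ := height_bound S r
  choose a u hau hu' using fun n => hht (x n) (M n) (hM n) (hx n)
  choose c v hcv hv' using fun n => hht (y n) (M n) (hM n) (hy n)
  have ha : ∀ n i, |(a n i : ℝ)| ≤ M n := fun n => (hau n).1
  have hu : ∀ n i, SUnit S (u n i) := fun n => (hau n).2.1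
  have hxu : ∀ n, (x n : ℚ) = ∑ i, (a n i : ℚ) * u n i := fun n => (hau n).2.2
  have hc : ∀ n i, |(c n i : ℝ)| ≤ M n := fun n => (hcv n).1
  have hv : ∀ n i, SUnit S (v n i) := fun n => (hcv n).2.1
  have hyv : ∀ n, (y n : ℚ) = ∑ i, (c n i : ℚ) * v n i := fun n => (hcv n).2.2
  have hoR : ∀ n, (1 : ℝ) ≤ o n := fun n => by exact_mod_cast Nat.one_le_iff_ne_zero.2 (hA0 n)
  have hjR : ∀ n, (1 : ℝ) ≤ j n := fun n => by exact_mod_cast Nat.one_le_iff_ne_zero.2 (hD0 n)
  have hlo : ∀ n, 0 ≤ Real.log (o n) := fun n => Real.log_nonneg (hoR n)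
  have hlj : ∀ n, 0 ≤ Real.log (j n) := fun n => Real.log_nonneg (hjR n)
  have hlx : ∀ n, 0 ≤ Real.log (1 + |(x n : ℝ)|) := fun n =>
    Real.log_nonneg (by linarith [abs_nonneg (x n : ℝ)])
  have hlM : ∀ n, 0 ≤ Real.log (M n) := fun n => Real.log_nonneg (hM n)
  -- the two scales
  obtain ⟨L1, hL1⟩ : ∃ L1 : ℕ → ℝ, L1 = fun n => 1 + Real.log (o n) + Real.log (j n) +
    Real.log (1 + |(x n : ℝ)|) := ⟨_, rfl⟩
  obtain ⟨L2, hL2⟩ : ∃ L2 : ℕ → ℝ, L2 = fun n =>
    |(padicValNat q (o n) : ℝ) - padicValNat q (j n)| := ⟨_, rfl⟩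
  have hL1e : ∀ n, L1 n = 1 + Real.log (o n) + Real.log (j n) + Real.log (1 + |(x n : ℝ)|) :=
    fun n => by rw [hL1]
  have hL2e : ∀ n, L2 n = |(padicValNat q (o n) : ℝ) - padicValNat q (j n)| :=
    fun n => by rw [hL2]
  have hL21 : ∀ n, L2 n ≤ 2 * L1 n := by
    intro n
    rw [hL2e, hL1e]
    have e1 := val_le_log hq (hA0 n)
    have e2 := val_le_log hq (hD0 n)
    have e3 : (0 : ℝ) ≤ padicValNat q (o n) := Nat.cast_nonneg _
    have e4 : (0 : ℝ) ≤ padicValNat q (j n) := Nat.cast_nonneg _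
    have := hlo n
    have := hlj n
    have := hlx n
    rw [abs_le]
    constructor <;> linarith
  have hML : ∀ n : ℕ, ((n : ℝ) + 1) * (1 + Real.log (M n)) < L2 n := by
    intro n
    rw [hL2e]
    exact h2 n
  have hL2n : ∀ n : ℕ, (n : ℝ) + 1 < L2 n := fun n => by
    have h3 := hML n
    have h4 := hlM n
    have h5 : (0 : ℝ) ≤ n := Nat.cast_nonneg n
    nlinarith
  have hT2 : Tendsto L2 atTop atTop :=
    tendsto_atTop_mono (fun n => by linarith [hL2n n]) tendsto_natCast_atTop_atTop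
  have hT1 : Tendsto L1 atTop atTop := by
    refine tendsto_atTop_mono (f := fun n => 1 / 2 * L2 n) (fun n => by linarith [hL21 n]) ?_
    exact hT2.const_mul_atTop (by norm_num)
  have hL20 : ∀ n, 0 ≤ L2 n := fun n => by
    have := hL2n n
    have h5 : (0 : ℝ) ≤ n := Nat.cast_nonneg n
    linarith
  have hL11 : ∀ n, 1 ≤ L1 n := fun n => by
    rw [hL1e]
    have := hlo n
    have := hlj n
    have := hlx n
    linarith
  have hL10 : ∀ n, 0 ≤ L1 n := fun n => by linarith [hL11 n]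
  have hMn : ∀ n : ℕ, (n : ℝ) * (1 + Real.log (M n)) ≤ L2 n := fun n => by
    have h3 := hML n
    have h4 := hlM n
    nlinarith
  have hM1 : ∀ n : ℕ, Real.log (M n) ≤ 2 * L1 n := fun n => by
    have h3 := hML n
    have h4 := hlM n
    have h5 : (0 : ℝ) ≤ n := Nat.cast_nonneg n
    have h6 := hL21 n
    nlinarith
  have la : ∀ i n, Real.log (1 + |(a n i : ℝ)|) ≤ 1 + Real.log (M n) := fun i n =>
    log_add_le (abs_nonneg _) (hM n) (ha n i)
  have lc : ∀ i n, Real.log (1 + |(c n i : ℝ)|) ≤ 1 + Real.log (M n) := fun i n =>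
    log_add_le (abs_nonneg _) (hM n) (hc n i)
  have negl2 : ∀ f : ℕ → ℤ, (∀ n, Real.log (1 + |(f n : ℝ)|) ≤ 1 + Real.log (M n)) →
      Negl L2 f := by
    intro f hf
    refine negl_of_log 1 (fun n => ?_) hL20
    have h3 := hf n
    have h5 : (0 : ℝ) ≤ n := Nat.cast_nonneg n
    calc (n : ℝ) * Real.log (1 + |(f n : ℝ)|) ≤ n * (1 + Real.log (M n)) := by gcongr
      _ ≤ 1 * L2 n := by rw [one_mul]; exact hMn n
  have negl1 : ∀ f : ℕ → ℤ, (∀ n, Real.log (1 + |(f n : ℝ)|) ≤ 1 + Real.log (M n)) →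
      Negl L1 f := by
    intro f hf
    refine negl_of_log 2 (fun n => ?_) hL10
    have h3 := hf n
    have h5 : (0 : ℝ) ≤ n := Nat.cast_nonneg n
    calc (n : ℝ) * Real.log (1 + |(f n : ℝ)|) ≤ n * (1 + Real.log (M n)) := by gcongr
      _ ≤ 2 * L1 n := (hMn n).trans (hL21 n)
  -- sizes
  have hBx : ∀ n, |(B n : ℝ)| ≤ o n * |(x n : ℝ)| := by
    intro n
    have h3 := (h1 n).le
    rw [← hL1e] at h3
    have h4 : 1 ≤ Real.exp (η * L1 n) := Real.one_le_exp (mul_nonneg hη.le (hL10 n))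
    have h5 := abs_nonneg (B n : ℝ)
    nlinarith
  have hyx : ∀ n, Real.log (1 + |(y n : ℝ)|) ≤ 2 * L1 n := by
    intro n
    have e1 : ((j n : ℕ) : ℝ) * (y n : ℝ) = (o n : ℝ) * x n + B n := by
      have := heq n
      exact_mod_cast this.symm
    have e2 : |(y n : ℝ)| ≤ 2 * (o n * |(x n : ℝ)|) := by
      calc |(y n : ℝ)| ≤ (j n : ℝ) * |(y n : ℝ)| := by
            have := hjR n
            have := abs_nonneg (y n : ℝ)
            nlinarith
        _ = |(o n : ℝ) * x n + B n| := by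
          rw [← e1, abs_mul, abs_of_nonneg (by linarith [hjR n] : (0 : ℝ) ≤ (j n : ℝ))]
        _ ≤ |(o n : ℝ) * x n| + |(B n : ℝ)| := abs_add_le _ _
        _ ≤ _ := by
          rw [abs_mul, abs_of_nonneg (by linarith [hoR n] : (0 : ℝ) ≤ (o n : ℝ))]
          linarith [hBx n]
    have e3 : 1 + |(y n : ℝ)| ≤ 2 * (o n * (1 + |(x n : ℝ)|)) := by
      have := hoR n
      have := abs_nonneg (x n : ℝ)
      nlinarith
    have e4 := Real.log_le_log (by positivity) e3
    rw [Real.log_mul (by norm_num) (by have := hoR n; positivity),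
      Real.log_mul (by have := hoR n; positivity) (by positivity)] at e4
    have e5 := Real.log_two_lt_d9
    have := hlj n
    have := hL10 n
    have := hL1e n
    linarith
  -- the primes
  obtain ⟨s, b, hbp, hbi, hbP⟩ := exists_b (S.filter Nat.Prime ∪ P.filter Nat.Prime)
    (by
      intro p hp
      rw [Finset.mem_union, Finset.mem_filter, Finset.mem_filter] at hp
      rcases hp with hp | hp
      · exact hp.2
      · exact hp.2)
  have hb0 : ∀ w, b w ≠ 0 := fun w => (hbp w).ne_zero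
  have hSu : ∀ {w : ℚ}, SUnit S w → IsSU b w := fun {w} hw => hw.isSU hb0 (fun p hp hpp =>
    hbP p (Finset.mem_union_left _ (Finset.mem_filter.2 ⟨hp, hpp⟩)))
  have hmSU : ∀ n : ℕ, IsSU b ((o n : ℕ) : ℚ) := fun n =>
    Ht.IsSU.nat hb0 (o n) (hA0 n) (fun p hp hpd =>
      hbP p (Finset.mem_union_right _ (Finset.mem_filter.2 ⟨hAP n p hp hpd, hp⟩)))
  have hdSU : ∀ n : ℕ, IsSU b ((j n : ℕ) : ℚ) := fun n =>
    Ht.IsSU.nat hb0 (j n) (hD0 n) (fun p hp hpd =>
      hbP p (Finset.mem_union_right _ (Finset.mem_filter.2 ⟨hDP n p hp hpd, hp⟩)))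
  have hmq : ∀ n, ((o n : ℕ) : ℚ) ≠ 0 := fun n => by exact_mod_cast hA0 n
  have hdq : ∀ n, ((j n : ℕ) : ℚ) ≠ 0 := fun n => by exact_mod_cast hD0 n
  -- germs
  obtain ⟨U, hU⟩ : ∃ U : Fin r → GG, U = fun i => gm (fun n => u n i) := ⟨_, rfl⟩
  obtain ⟨V, hV⟩ : ∃ V : Fin r → GG, V = fun i => gm (fun n => v n i) := ⟨_, rfl⟩
  obtain ⟨α, hα⟩ : ∃ α : Fin r → GG, α = fun i => gm (fun n => (a n i : ℚ)) := ⟨_, rfl⟩
  obtain ⟨γ, hγ⟩ : ∃ γ : Fin r → GG, γ = fun i => gm (fun n => (c n i : ℚ)) := ⟨_, rfl⟩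
  obtain ⟨mo, hmo⟩ : ∃ mo : GG, mo = gm (fun n => ((o n : ℕ) : ℚ)) := ⟨_, rfl⟩
  obtain ⟨dj, hdj⟩ : ∃ dj : GG, dj = gm (fun n => ((j n : ℕ) : ℚ)) := ⟨_, rfl⟩
  have hUS : ∀ i, GSU b (U i) := fun i => ⟨_, by rw [hU], fun n => hSu (hu n i)⟩
  have hVS : ∀ i, GSU b (V i) := fun i => ⟨_, by rw [hV], fun n => hSu (hv n i)⟩
  have hmoS : GSU b mo := ⟨_, hmo, fun n => hmSU _⟩
  have hdjS : GSU b dj := ⟨_, hdj, fun n => hdSU _⟩
  -- heights
  have hnat : ∀ N : ℕ, N ≠ 0 → hgt ((N : ℕ) : ℚ) = N := by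
    intro N hN
    unfold hgt
    rw [Rat.num_natCast, Rat.den_natCast, Int.cast_natCast, abs_of_nonneg (Nat.cast_nonneg _),
      Nat.cast_one, max_eq_left]
    exact_mod_cast Nat.one_le_iff_ne_zero.2 hN
  have modo : Mod b L1 mo := by
    rw [hmo]
    refine Mod.of_hgt hbp 1 _ hmq fun n => ?_
    rw [hnat _ (hA0 n), hL1e, one_mul]
    have := hlj n
    have := hlx n
    linarith
  have modj : Mod b L1 dj := by
    rw [hdj]
    refine Mod.of_hgt hbp 1 _ hdq fun n => ?_
    rw [hnat _ (hD0 n), hL1e, one_mul]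
    have := hlo n
    have := hlx n
    linarith
  have modU : ∀ i, Mod b L1 (U i) := fun i => by
    rw [hU]
    refine Mod.of_hgt hbp (4 * C0) _ (fun n => (hu n i).1) fun n => ?_
    refine (hu' n i).trans ?_
    have e1 := hM1 n
    have e2 := hL1e n
    have := hlj n
    have := hlo n
    have := hL11 n
    nlinarith
  have modV : ∀ i, Mod b L1 (V i) := fun i => by
    rw [hV]
    refine Mod.of_hgt hbp (5 * C0) _ (fun n => (hv n i).1) fun n => ?_
    refine (hv' n i).trans ?_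
    have e1 := hM1 n
    have e2 := hyx n
    have := hL11 n
    nlinarith
  have Mod_mul : ∀ f g : GG, Mod b L1 f → Mod b L1 g → Mod b L1 (f * g) := by
    rintro f g ⟨K, hK⟩ ⟨K', hK'⟩
    refine ⟨K + K', ?_⟩
    filter_upwards [hK, hK', rep_mul f g] with n e1 e2 e3 w
    rw [e3, av_mul hbp]
    have p1 := e1 w
    have p2 := e2 w
    constructor
    · have e4 : Real.exp (-((K + K') * L1 n)) =
          Real.exp (-(K * L1 n)) * Real.exp (-(K' * L1 n)) := by
        rw [← Real.exp_add]; ring_nf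
      rw [e4]
      exact mul_le_mul p1.1 p2.1 (Real.exp_pos _).le (av_nonneg hbp _ _)
    · have e4 : Real.exp ((K + K') * L1 n) = Real.exp (K * L1 n) * Real.exp (K' * L1 n) := by
        rw [← Real.exp_add]; ring_nf
      rw [e4]
      exact mul_le_mul p1.2 p2.2 (av_nonneg hbp _ _) (Real.exp_pos _).le
  obtain ⟨ac, hac⟩ : ∃ ac : Fin r ⊕ Fin r → GG, ac = fun k => match k with
    | Sum.inl i => α i
    | Sum.inr i => -(γ i) := ⟨_, rfl⟩
  obtain ⟨g, hg⟩ : ∃ g : Fin r ⊕ Fin r → GG, g = fun k => match k with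
    | Sum.inl i => mo * U i
    | Sum.inr i => dj * V i := ⟨_, rfl⟩
  have hgS : ∀ k, GSU b (g k) := by
    intro k
    rw [hg]
    match k with
    | Sum.inl i => exact CRV.GSU.mul hbp hmoS (hUS i)
    | Sum.inr i => exact CRV.GSU.mul hbp hdjS (hVS i)
  have hgM : ∀ k, Mod b L1 (g k) := by
    intro k
    rw [hg]
    match k with
    | Sum.inl i => exact Mod_mul _ _ modo (modU i)
    | Sum.inr i => exact Mod_mul _ _ modj (modV i)
  have hg0 : ∀ k, g k ≠ 0 := fun k => CRV.GSU.ne_zero hbp (hgS k)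
  have Kac1 : ∀ k, ac k ∈ KK L1 hT1 := by
    intro k
    rw [hac]
    match k with
    | Sum.inl i => exact hα ▸ int_mem hT1 (negl1 _ (la i))
    | Sum.inr i => exact (KK L1 hT1).neg_mem (hγ ▸ int_mem hT1 (negl1 _ (lc i)))
  have Kac2 : ∀ k, ac k ∈ KK L2 hT2 := by
    intro k
    rw [hac]
    match k with
    | Sum.inl i => exact hα ▸ int_mem hT2 (negl2 _ (la i))
    | Sum.inr i => exact (KK L2 hT2).neg_mem (hγ ▸ int_mem hT2 (negl2 _ (lc i)))
  have hsx : ∑ i, ac (Sum.inl i) * g (Sum.inl i) = gm (fun n => (o n : ℚ) * x n) := by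
    have e1 : ∀ i, ac (Sum.inl i) * g (Sum.inl i) =
        gm (fun n => (o n : ℚ) * ((a n i : ℚ) * u n i)) := by
      intro i
      rw [hac, hg]
      simp only
      rw [hα, hmo, hU, gm_mul, gm_mul]
      congr 1
      funext n
      ring
    rw [Finset.sum_congr rfl (fun i _ => e1 i), gm_sum]
    congr 1
    funext n
    rw [hxu n, Finset.mul_sum]
  have hsy : ∑ i, ac (Sum.inr i) * g (Sum.inr i) = gm (fun n => -((j n : ℚ) * y n)) := by
    have e1 : ∀ i, ac (Sum.inr i) * g (Sum.inr i) =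
        gm (fun n => -((j n : ℚ) * ((c n i : ℚ) * v n i))) := by
      intro i
      rw [hac, hg]
      simp only
      rw [hγ, hdj, hV, gm_mul, neg_mul, gm_mul, gm_neg]
      congr 1
      funext n
      ring
    rw [Finset.sum_congr rfl (fun i _ => e1 i), gm_sum]
    congr 1
    funext n
    rw [hyv n, Finset.mul_sum, Finset.sum_neg_distrib]
  have hsum : ∑ k, ac k * g k = gm (fun n => -(B n : ℚ)) := by
    rw [Fintype.sum_sum_type, hsx, hsy, gm_add]
    congr 1
    funext n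
    have h5 : ((((o n : ℕ) : ℤ) * x n + B n : ℤ) : ℚ) = ((((j n : ℕ) : ℤ) * y n : ℤ) : ℚ) := by
      rw [heq n]
    push_cast at h5 ⊢
    linarith
  -- the classes of the first scale
  obtain ⟨w, hw⟩ := exists_numbering (KK L1 hT1) g hg0
  obtain ⟨Pv, hPv⟩ : ∃ Pv : Fin r ⊕ Fin r → Prop,
    Pv = fun i => ∑ k with w k = w i, ac k * g k = 0 := ⟨_, rfl⟩
  have hvan : ∑ k with Pv k, ac k * g k = 0 := by
    rw [hPv]
    exact sum_vanishing (fun k => ac k * g k) w
  have hdom : ∀ k, ¬ Pv k → Dom b L1 none (g k) (gm (fun n => -(B n : ℚ))) := by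
    intro k hk
    rw [hPv] at hk
    have e1 := nc ssui s b hbp hbi L1 hT1 (Fin r ⊕ Fin r) Finset.univ
      (fun k => (⟨ac k, Kac1 k⟩ : KK L1 hT1)) g w (fun i _ => hgS i) (fun i _ => hgM i)
      (fun i _ j _ h => (hw i j).2 h) none (w k)
    simp only at e1
    rw [hsum] at e1
    -- the class sum is a nonzero multiple
    have e2 : (∑ l with w l = w k, ac l * g l) / g k ∈ KK L1 hT1 := by
      rw [Finset.sum_div]
      refine (KK L1 hT1).sum_mem fun l hl => ?_
      rw [Finset.mem_filter] at hl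
      rw [mul_div_assoc]
      exact (KK L1 hT1).mul_mem (Kac1 l) ((hw l k).1 hl.2)
    have e3 : g k = ((∑ l with w l = w k, ac l * g l) / g k)⁻¹ *
        (∑ l with w l = w k, ac l * g l) := by
      rw [inv_div, div_mul_cancel₀ _ hk]
    rw [e3]
    exact Dom.smul hbp hbi hT1 ((KK L1 hT1).inv_mem e2) e1
  -- the second scale
  have sep : ∀ i i', mo * U i / (dj * V i') ∉ KK L2 hT2 := by
    intro i i'
    have e1 : mo * U i / (dj * V i') = gm (fun n => ((o n : ℕ) : ℚ) * u n i /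
        (((j n : ℕ) : ℚ) * v n i')) := by
      rw [hmo, hdj, hU, hV, gm_mul, gm_mul, gm_div]
    rw [e1]
    refine not_mem_of_val hT2 hq _ (fun n => ?_) (fun n => ?_)
    · exact div_ne_zero (mul_ne_zero (hmq n) (hu n i).1) (mul_ne_zero (hdq n) (hv n i').1)
    · have e2 : padicValRat q (((o n : ℕ) : ℚ) * u n i / (((j n : ℕ) : ℚ) * v n i')) =
          (padicValNat q (o n) : ℤ) - (padicValNat q (j n) : ℤ) := by
        rw [padicValRat.div (mul_ne_zero (hmq n) (hu n i).1)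
          (mul_ne_zero (hdq n) (hv n i').1),
          padicValRat.mul (hmq n) (hu n i).1,
          padicValRat.mul (hdq n) (hv n i').1,
          (hu n i).val hq hqS, (hv n i').val hq hqS,
          padicValRat.of_nat, padicValRat.of_nat, add_zero, add_zero]
      rw [e2, Nat.cast_natAbs, hL2e]
      simp only [Int.cast_abs, Int.cast_sub, Int.cast_natCast]
      exact le_refl _
  have sat3 := sat_sum b hbp hbi L2 hT2 _ ac g (fun k _ => Kac2 k) (fun k _ => hgS k)
    (fun k => ∃ i, k = Sum.inl i) (fun k _ l _ hkl => by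
      match k, l with
      | Sum.inl i, Sum.inl i' => exact ⟨fun _ => ⟨i', rfl⟩, fun _ => ⟨i, rfl⟩⟩
      | Sum.inl i, Sum.inr i' =>
        exfalso
        rw [hg] at hkl
        exact sep i i' hkl
      | Sum.inr i, Sum.inl i' =>
        exfalso
        rw [hg] at hkl
        have h3 := (KK L2 hT2).inv_mem hkl
        rw [inv_div] at h3
        exact sep i' i h3
      | Sum.inr i, Sum.inr i' =>
        constructor
        · rintro ⟨i0, h0⟩
          simp at h0
        · rintro ⟨i0, h0⟩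
          simp at h0) hvan
  have key : ∑ i with Pv (Sum.inl i), ac (Sum.inl i) * g (Sum.inl i) = 0 := by
    rw [← sat3, Finset.filter_filter, Finset.sum_filter, Finset.sum_filter,
      Fintype.sum_sum_type]
    have hh : ∀ (D B C : GG), C = 0 → D = B → D = B + C := by
      intro D B C h2 h3
      rw [h2, h3]
      ring
    refine hh _ _ _ ?_ ?_
    · refine Finset.sum_eq_zero fun i _ => ?_
      rw [if_neg]
      rintro ⟨_, i0, h0⟩
      simp at h0
    · refine Finset.sum_congr rfl fun i _ => ?_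
      by_cases h3 : Pv (Sum.inl i)
      · rw [if_pos h3, if_pos ⟨h3, i, rfl⟩]
      · rw [if_neg h3, if_neg (fun h => h3 h.1)]
  -- the conclusion
  have hfin : Dom b L1 none (gm (fun n => (o n : ℚ) * x n)) (gm (fun n => -(B n : ℚ))) := by
    rw [← hsx, ← Finset.sum_filter_add_sum_filter_not Finset.univ (fun i => Pv (Sum.inl i)), key,
      zero_add]
    refine Dom.sum hbp hT1 _ _ _ fun i hi => ?_
    rw [Finset.mem_filter] at hi
    exact Dom.smul hbp hbi hT1 (Kac1 _) (hdom _ hi.2)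
  rw [dom_gm] at hfin
  obtain ⟨n, hn⟩ := (hfin η hη).exists
  have h3 := h1 n
  rw [← hL1e] at h3
  simp only [av] at hn
  push_cast at hn
  rw [abs_mul, abs_neg, abs_of_nonneg (by linarith [hoR n] : (0 : ℝ) ≤ (o n : ℝ))] at hn
  linarith

end Pool.Agent.U773.SP
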