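import Mathlib
import Pool.Agent.U773.SP.CoreH2

/-! Chains `d i * x (i+1) = m i * x i + ρ i` with short ends: they come down to a small value, or
the multipliers nearly balance. -/

set_option autoImplicit false

namespace Pool.Agent.U773.SP

open Finset

open scoped Classical

theorem strong (S P : Finset ℕ) (r : ℕ) (η : ℝ) (hη : 0 < η) :
    ∃ C : ℝ, 0 < C ∧ ∀ (A D : ℕ) (x y B : ℤ) (M : ℝ), A ≠ 0 → D ≠ 0 →
      (∀ p : ℕ, p.Prime → p ∣ A → p ∈ P) → (∀ p : ℕ, p.Prime → p ∣ D → p ∈ P) → 1 ≤ M →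
      (A : ℤ) * x + B = (D : ℤ) * y → Short S r M x → Short S r M y →
      (A : ℝ) * |(x : ℝ)| ≤
        |(B : ℝ)| * Real.exp (η * (1 + Real.log A + Real.log D + Real.log (1 + |(x : ℝ)|))) ∨
      ∀ q : ℕ, q.Prime → q ∉ S →
        |(padicValNat q A : ℝ) - padicValNat q D| ≤ C * (1 + Real.log M) := by
  have h : ∀ q : ℕ, ∃ C : ℝ, 0 < C ∧ (q.Prime → q ∉ S → ∀ (A D : ℕ) (x y B : ℤ) (M : ℝ),
      A ≠ 0 → D ≠ 0 →
      (∀ p : ℕ, p.Prime → p ∣ A → p ∈ P) → (∀ p : ℕ, p.Prime → p ∣ D → p ∈ P) → 1 ≤ M →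
      (A : ℤ) * x + B = (D : ℤ) * y → Short S r M x → Short S r M y →
      (A : ℝ) * |(x : ℝ)| ≤
        |(B : ℝ)| * Real.exp (η * (1 + Real.log A + Real.log D + Real.log (1 + |(x : ℝ)|))) ∨
      |(padicValNat q A : ℝ) - padicValNat q D| ≤ C * (1 + Real.log M)) := by
    intro q
    by_cases hq : q.Prime ∧ q ∉ S
    · obtain ⟨C, hC, h⟩ := strong_q S P r q hq.1 hq.2 η hη
      exact ⟨C, hC, fun _ _ => h⟩
    · exact ⟨1, one_pos, fun h1 h2 => absurd ⟨h1, h2⟩ hq⟩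
  choose C hC hh using h
  have hs : 0 ≤ ∑ q ∈ P, C q := Finset.sum_nonneg (fun q _ => (hC q).le)
  refine ⟨1 + ∑ q ∈ P, C q, by linarith, ?_⟩
  intro A D x y B M hA hD hAP hDP hM heq hx hy
  have hlM : 0 ≤ Real.log M := Real.log_nonneg hM
  by_cases hbig : (A : ℝ) * |(x : ℝ)| ≤
      |(B : ℝ)| * Real.exp (η * (1 + Real.log A + Real.log D + Real.log (1 + |(x : ℝ)|)))
  · exact Or.inl hbig
  · right
    intro q hq hqS
    by_cases hqP : q ∈ P
    · have hle : C q ≤ 1 + ∑ q ∈ P, C q := by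
        have := Finset.single_le_sum (f := C) (fun q _ => (hC q).le) hqP
        linarith
      rcases hh q hq hqS A D x y B M hA hD hAP hDP hM heq hx hy with h1 | h1
      · exact absurd h1 hbig
      · exact h1.trans (mul_le_mul_of_nonneg_right hle (by linarith))
    · have h1 : padicValNat q A = 0 :=
        padicValNat.eq_zero_of_not_dvd fun h => hqP (hAP q hq h)
      have h2 : padicValNat q D = 0 :=
        padicValNat.eq_zero_of_not_dvd fun h => hqP (hDP q hq h)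
      rw [h1, h2]
      simp only [Nat.cast_zero, sub_zero, abs_zero]
      positivity

/-- the composition of a chain of affine maps -/
lemma chain_rel (x : ℕ → ℤ) (m d : ℕ → ℕ) (ρ : ℕ → ℤ) (R N : ℝ) (hR : 0 ≤ R) (hN : 0 < N) (j : ℕ)
    (h : ∀ i < j, 1 ≤ m i ∧ (d i : ℤ) * x (i + 1) = (m i : ℤ) * x i + ρ i ∧ |(ρ i : ℝ)| ≤ R ∧
      N ≤ |(x i : ℝ)|) :
    ∃ B : ℤ, ((∏ i ∈ range j, m i : ℕ) : ℤ) * x 0 + B = ((∏ i ∈ range j, d i : ℕ) : ℤ) * x j ∧
      |(B : ℝ)| ≤ ((∏ i ∈ range j, m i : ℕ) : ℝ) * |(x 0 : ℝ)| * ((1 + R / N) ^ j - 1) := by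
  induction j with
  | zero => exact ⟨0, by simp, by simp⟩
  | succ j ih =>
    obtain ⟨B, h1, h2⟩ := ih fun i hi => h i (by omega)
    obtain ⟨hm, hd, hρ, hx⟩ := h j (by omega)
    refine ⟨(m j : ℤ) * B + ((∏ i ∈ range j, d i : ℕ) : ℤ) * ρ j, ?_, ?_⟩
    · rw [prod_range_succ, prod_range_succ]
      push_cast at h1 ⊢
      linear_combination (m j : ℤ) * h1 - (∏ i ∈ range j, (d i : ℤ)) * hd
    · rw [prod_range_succ]
      push_cast at h2 ⊢
      obtain ⟨A, hA⟩ : ∃ A : ℝ, A = ∏ i ∈ range j, (m i : ℝ) := ⟨_, rfl⟩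
      obtain ⟨D, hD⟩ : ∃ D : ℝ, D = ∏ i ∈ range j, (d i : ℝ) := ⟨_, rfl⟩
      rw [← hA] at h2 ⊢
      rw [← hD]
      have hA0 : 0 ≤ A := by rw [hA]; exact prod_nonneg fun i _ => Nat.cast_nonneg _
      have hD0 : 0 ≤ D := by rw [hD]; exact prod_nonneg fun i _ => Nat.cast_nonneg _
      have hmR : (1 : ℝ) ≤ m j := by exact_mod_cast hm
      have e1 : A * (x 0 : ℝ) + B = D * x j := by
        have h3 : ((((∏ i ∈ range j, m i : ℕ) : ℤ) * x 0 + B : ℤ) : ℝ) =
            ((((∏ i ∈ range j, d i : ℕ) : ℤ) * x j : ℤ) : ℝ) := by rw [h1]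
        push_cast at h3
        rw [hA, hD]
        exact h3
      -- the size of `D`
      have e2 : D * N ≤ A * |(x 0 : ℝ)| * (1 + R / N) ^ j := by
        calc D * N ≤ D * |(x j : ℝ)| := by gcongr
          _ = |A * (x 0 : ℝ) + B| := by rw [e1, abs_mul, abs_of_nonneg hD0]
          _ ≤ |A * (x 0 : ℝ)| + |(B : ℝ)| := abs_add_le _ _
          _ ≤ A * |(x 0 : ℝ)| + A * |(x 0 : ℝ)| * ((1 + R / N) ^ j - 1) := by
            rw [abs_mul, abs_of_nonneg hA0]
            linarith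
          _ = _ := by ring
      have e3 : D * R ≤ A * |(x 0 : ℝ)| * (1 + R / N) ^ j * (R / N) := by
        calc D * R = (D * N) * (R / N) := by field_simp
          _ ≤ _ := by gcongr
      have hRN : 0 ≤ R / N := by positivity
      have hAx : 0 ≤ A * |(x 0 : ℝ)| := by positivity
      calc |(m j : ℝ) * B + D * ρ j| ≤ |(m j : ℝ) * B| + |D * (ρ j : ℝ)| := abs_add_le _ _
        _ = (m j : ℝ) * |(B : ℝ)| + D * |(ρ j : ℝ)| := by
          rw [abs_mul, abs_mul, abs_of_nonneg (by linarith : (0 : ℝ) ≤ (m j : ℝ)),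
            abs_of_nonneg hD0]
        _ ≤ (m j : ℝ) * (A * |(x 0 : ℝ)| * ((1 + R / N) ^ j - 1)) + D * R := by gcongr
        _ ≤ (m j : ℝ) * (A * |(x 0 : ℝ)| * ((1 + R / N) ^ j - 1)) +
            A * |(x 0 : ℝ)| * (1 + R / N) ^ j * (R / N) := by gcongr
        _ ≤ (m j : ℝ) * (A * |(x 0 : ℝ)| * ((1 + R / N) ^ j - 1)) +
            (m j : ℝ) * (A * |(x 0 : ℝ)| * (1 + R / N) ^ j * (R / N)) := by
          have : 0 ≤ A * |(x 0 : ℝ)| * (1 + R / N) ^ j * (R / N) := by positivity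
          nlinarith
        _ = A * (m j : ℝ) * |(x 0 : ℝ)| * ((1 + R / N) ^ (j + 1) - 1) := by
          rw [pow_succ]
          ring

lemma one_add_pow_le {t : ℝ} (ht : 0 ≤ t) (j : ℕ) (h : (j : ℝ) * t ≤ 1) :
    (1 + t) ^ j - 1 ≤ 2 * (j * t) := by
  have h1 : (1 + t) ^ j ≤ Real.exp (j * t) := by
    rw [Real.exp_nat_mul]
    apply pow_le_pow_left₀ (by linarith)
    linarith [Real.add_one_le_exp t]
  have h0 : 0 ≤ (j : ℝ) * t := by positivity
  have h2 := Real.exp_bound' h0 h (n := 2) (by norm_num)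
  have h3 : Real.exp ((j : ℝ) * t) ≤ 1 + 2 * ((j : ℝ) * t) := by
    refine h2.trans ?_
    simp only [Finset.sum_range_succ, Finset.sum_range_zero]
    norm_num
    nlinarith
  linarith

/-- **The dip theorem.** -/
theorem dip (S P : Finset ℕ) (r K : ℕ) (ε : ℝ) (hε : 0 < ε) :
    ∃ C : ℝ, 1 ≤ C ∧ ∀ (j : ℕ) (x : ℕ → ℤ) (m d : ℕ → ℕ) (ρ : ℕ → ℤ) (R M : ℝ), 1 ≤ R → 1 ≤ M →
      (∀ i < j, (1 ≤ m i ∧ m i ≤ K ∧ ∀ p : ℕ, p.Prime → p ∣ m i → p ∈ P) ∧
        (1 ≤ d i ∧ d i ≤ K ∧ ∀ p : ℕ, p.Prime → p ∣ d i → p ∈ P) ∧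
        (d i : ℤ) * x (i + 1) = (m i : ℤ) * x i + ρ i ∧ |(ρ i : ℝ)| ≤ R) →
      Short S r M (x 0) → Short S r M (x j) →
      (∃ i < j, |(x i : ℝ)| ≤ C * R * Real.exp (ε * (j + Real.log (1 + |(x 0 : ℝ)|)))) ∨
      ∀ q : ℕ, q.Prime → q ∉ S →
        |(padicValNat q (∏ i ∈ range j, m i) : ℝ) - padicValNat q (∏ i ∈ range j, d i)| ≤
          C * (1 + Real.log M) := by
  have hlK : 0 ≤ Real.log ((K : ℝ) + 1) := Real.log_nonneg (by
    have : (0 : ℝ) ≤ K := Nat.cast_nonneg _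
    linarith)
  obtain ⟨η, hη⟩ : ∃ η : ℝ, η = ε / (4 * (Real.log ((K : ℝ) + 1) + 1)) := ⟨_, rfl⟩
  have hη0 : 0 < η := by rw [hη]; positivity
  have hη1 : η * (4 * (Real.log ((K : ℝ) + 1) + 1)) = ε := by
    rw [hη]
    exact div_mul_cancel₀ _ (by positivity)
  obtain ⟨C, hC, hst⟩ := strong S P r η hη0
  obtain ⟨C', hC'⟩ : ∃ C' : ℝ, C' = 1 + C + (8 / ε + 1) * Real.exp ε := ⟨_, rfl⟩
  have hC'1 : 1 ≤ C' := by
    rw [hC']
    have : 0 ≤ (8 / ε + 1) * Real.exp ε := by positivity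
    linarith
  refine ⟨C', hC'1, ?_⟩
  intro j x m d ρ R M hR hM h hx hy
  have hlM : 0 ≤ Real.log M := Real.log_nonneg hM
  by_cases hdip : ∃ i < j, |(x i : ℝ)| ≤ C' * R * Real.exp (ε * (j + Real.log (1 + |(x 0 : ℝ)|)))
  · exact Or.inl hdip
  push Not at hdip
  right
  rcases Nat.eq_zero_or_pos j with hj | hj
  · subst hj
    intro q _ _
    rw [range_zero, prod_empty, prod_empty, sub_self, abs_zero]
    positivity
  obtain ⟨X, hX⟩ : ∃ X : ℝ, X = Real.log (1 + |(x 0 : ℝ)|) := ⟨_, rfl⟩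
  have hX0 : 0 ≤ X := by rw [hX]; exact Real.log_nonneg (by linarith [abs_nonneg (x 0 : ℝ)])
  rw [← hX] at hdip
  obtain ⟨N, hN⟩ : ∃ N : ℝ, N = C' * R * Real.exp (ε * (j + X)) := ⟨_, rfl⟩
  rw [← hN] at hdip
  have hj0 : (0 : ℝ) ≤ j := Nat.cast_nonneg _
  have hE1 : 1 ≤ Real.exp (ε * (j + X)) := Real.one_le_exp (by positivity)
  have hN0 : 0 < N := by rw [hN]; positivity
  obtain ⟨B, hB1, hB2⟩ := chain_rel x m d ρ R N (by linarith) hN0 j (fun i hi =>
    ⟨(h i hi).1.1, (h i hi).2.2.1, (h i hi).2.2.2, (hdip i hi).le⟩)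
  have hA0 : ∏ i ∈ range j, m i ≠ 0 := prod_ne_zero_iff.2 fun i hi => by
    have := (h i (mem_range.1 hi)).1.1
    omega
  have hD0 : ∏ i ∈ range j, d i ≠ 0 := prod_ne_zero_iff.2 fun i hi => by
    have := (h i (mem_range.1 hi)).2.1.1
    omega
  have hAP : ∀ p : ℕ, p.Prime → p ∣ ∏ i ∈ range j, m i → p ∈ P := by
    intro p hp hd
    obtain ⟨i, hi, h3⟩ := (hp.prime.dvd_finsetProd_iff _).1 hd
    exact (h i (mem_range.1 hi)).1.2.2 p hp h3
  have hDP : ∀ p : ℕ, p.Prime → p ∣ ∏ i ∈ range j, d i → p ∈ P := by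
    intro p hp hd
    obtain ⟨i, hi, h3⟩ := (hp.prime.dvd_finsetProd_iff _).1 hd
    exact (h i (mem_range.1 hi)).2.1.2.2 p hp h3
  have hlog : ∀ f : ℕ → ℕ, (∀ i < j, 1 ≤ f i ∧ f i ≤ K) →
      Real.log ((∏ i ∈ range j, f i : ℕ) : ℝ) ≤ j * Real.log ((K : ℝ) + 1) := by
    intro f hf
    have h1 : ∏ i ∈ range j, f i ≤ K ^ j := by
      calc ∏ i ∈ range j, f i ≤ ∏ i ∈ range j, K :=
            prod_le_prod' fun i hi => (hf i (mem_range.1 hi)).2
        _ = K ^ j := by rw [prod_const, card_range]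
    have h2 : 0 < ∏ i ∈ range j, f i := prod_pos fun i hi => (hf i (mem_range.1 hi)).1
    have h3 : ((∏ i ∈ range j, f i : ℕ) : ℝ) ≤ ((K : ℝ) + 1) ^ j := by
      calc ((∏ i ∈ range j, f i : ℕ) : ℝ) ≤ (K : ℝ) ^ j := by exact_mod_cast h1
        _ ≤ _ := by gcongr; linarith
    have h4 := Real.log_le_log (by exact_mod_cast h2) h3
    rwa [Real.log_pow] at h4
  have hlA := hlog m fun i hi => ⟨(h i hi).1.1, (h i hi).1.2.1⟩
  have hlD := hlog d fun i hi => ⟨(h i hi).2.1.1, (h i hi).2.1.2.1⟩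
  rcases hst _ _ (x 0) (x j) B M hA0 hD0 hAP hDP hM hB1 hx hy with h1 | h1
  · -- the trajectory is large but the difference is small
    exfalso
    have hx0 : N < |(x 0 : ℝ)| := hdip 0 hj
    have hx00 : 0 < |(x 0 : ℝ)| := by linarith
    have hj1 : (1 : ℝ) ≤ j := by exact_mod_cast hj
    have hjR : (j : ℝ) * (R / N) ≤ 1 := by
      rw [mul_div_assoc', div_le_one hN0, hN]
      have e1 : (j : ℝ) ≤ (8 / ε + 1) * Real.exp (ε * (j + X)) := by
        have e2 := Real.add_one_le_exp (ε * (j + X))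
        have e3 : (j : ℝ) ≤ 8 / ε * (ε * (j + X)) := by
          rw [← mul_assoc, div_mul_cancel₀ _ hε.ne']
          linarith
        have e4 : 0 ≤ 8 / ε := by positivity
        nlinarith
      have e2 : (8 / ε + 1) ≤ C' := by
        rw [hC']
        have : 1 ≤ Real.exp ε := Real.one_le_exp hε.le
        have : 0 ≤ 8 / ε := by positivity
        nlinarith
      have e3 : (j : ℝ) ≤ C' * Real.exp (ε * (j + X)) := e1.trans (by gcongr)
      nlinarith
    have hB3 : |(B : ℝ)| ≤ ((∏ i ∈ range j, m i : ℕ) : ℝ) * |(x 0 : ℝ)| * (2 * (j * (R / N))) := by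
      refine hB2.trans ?_
      gcongr
      exact one_add_pow_le (by positivity) j hjR
    have hexp : Real.exp (η * (1 + Real.log ((∏ i ∈ range j, m i : ℕ) : ℝ) +
        Real.log ((∏ i ∈ range j, d i : ℕ) : ℝ) + Real.log (1 + |(x 0 : ℝ)|))) ≤
        Real.exp ε * Real.exp (ε / 2 * (j + X)) := by
      rw [← Real.exp_add, Real.exp_le_exp, ← hX]
      have e1 : η ≤ ε / 4 := by
        have : η * 4 ≤ ε := by
          calc η * 4 ≤ η * (4 * (Real.log ((K : ℝ) + 1) + 1)) := by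
                apply mul_le_mul_of_nonneg_left _ hη0.le
                linarith
            _ = ε := hη1
        linarith
      have e2 : η * Real.log ((K : ℝ) + 1) ≤ ε / 4 := by
        have : η * (4 * Real.log ((K : ℝ) + 1)) ≤ ε := by
          rw [← hη1]
          apply mul_le_mul_of_nonneg_left _ hη0.le
          linarith
        linarith
      calc η * (1 + Real.log ((∏ i ∈ range j, m i : ℕ) : ℝ) +
        Real.log ((∏ i ∈ range j, d i : ℕ) : ℝ) + X) ≤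
          η * (1 + j * Real.log ((K : ℝ) + 1) + j * Real.log ((K : ℝ) + 1) + X) := by gcongr
        _ = η + 2 * j * (η * Real.log ((K : ℝ) + 1)) + η * X := by ring
        _ ≤ ε / 4 + 2 * j * (ε / 4) + ε / 4 * X := by gcongr
        _ ≤ ε + ε / 2 * (j + X) := by nlinarith
    have hAx : 0 < ((∏ i ∈ range j, m i : ℕ) : ℝ) * |(x 0 : ℝ)| := by
      apply mul_pos _ hx00
      exact_mod_cast Nat.pos_of_ne_zero hA0
    have h5 : 1 ≤ 2 * (j * (R / N)) * (Real.exp ε * Real.exp (ε / 2 * (j + X))) := by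
      have h6 : ((∏ i ∈ range j, m i : ℕ) : ℝ) * |(x 0 : ℝ)| * 1 ≤
          ((∏ i ∈ range j, m i : ℕ) : ℝ) * |(x 0 : ℝ)| *
            (2 * (j * (R / N)) * (Real.exp ε * Real.exp (ε / 2 * (j + X)))) := by
        rw [mul_one]
        calc _ ≤ _ := h1
          _ ≤ (((∏ i ∈ range j, m i : ℕ) : ℝ) * |(x 0 : ℝ)| * (2 * (j * (R / N)))) *
            (Real.exp ε * Real.exp (ε / 2 * (j + X))) := by gcongr
          _ = _ := by ring
      exact le_of_mul_le_mul_left h6 hAx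
    have h7 : N ≤ 2 * j * R * (Real.exp ε * Real.exp (ε / 2 * (j + X))) := by
      have e1 : 2 * (j * (R / N)) * (Real.exp ε * Real.exp (ε / 2 * (j + X))) =
          (2 * j * R * (Real.exp ε * Real.exp (ε / 2 * (j + X)))) / N := by ring
      rw [e1, le_div_iff₀ hN0] at h5
      linarith
    have h8 : 2 * (j : ℝ) ≤ 4 / ε * Real.exp (ε / 2 * (j + X)) := by
      have e2 := Real.add_one_le_exp (ε / 2 * (j + X))
      have e3 : 2 * (j : ℝ) ≤ 4 / ε * (ε / 2 * (j + X)) := by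
        have : 4 / ε * (ε / 2 * (j + X)) = 2 * (j + X) := by field_simp; ring
        rw [this]
        linarith
      have e4 : 0 ≤ 4 / ε := by positivity
      nlinarith
    have h9 : N ≤ 4 / ε * Real.exp ε * R * Real.exp (ε * (j + X)) := by
      calc N ≤ 2 * j * R * (Real.exp ε * Real.exp (ε / 2 * (j + X))) := h7
        _ ≤ (4 / ε * Real.exp (ε / 2 * (j + X))) * R *
            (Real.exp ε * Real.exp (ε / 2 * (j + X))) := by gcongr
        _ = 4 / ε * Real.exp ε * R * (Real.exp (ε / 2 * (j + X)) *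
            Real.exp (ε / 2 * (j + X))) := by ring
        _ = _ := by
          rw [← Real.exp_add]
          ring_nf
    rw [hN] at h9
    have h10 : 4 / ε * Real.exp ε < C' := by
      rw [hC']
      have e1 : 4 / ε ≤ 8 / ε + 1 := by
        have : 4 / ε ≤ 8 / ε := by gcongr; norm_num
        linarith
      have e2 : 4 / ε * Real.exp ε ≤ (8 / ε + 1) * Real.exp ε := by gcongr
      linarith
    have h11 : 0 < R * Real.exp (ε * (j + X)) := by positivity
    nlinarith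
  · intro q hq hqS
    refine (h1 q hq hqS).trans ?_
    apply mul_le_mul_of_nonneg_right _ (by linarith)
    rw [hC']
    have : 0 ≤ (8 / ε + 1) * Real.exp ε := by positivity
    linarith

end Pool.Agent.U773.SP
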