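import Mathlib

/-! Counting the terms of a sequence of different integers with a rare property which two terms can
only share if they are far apart. -/

set_option autoImplicit false

namespace Pool.Agent.U773.SP

open Finset

open scoped Classical

lemma count_le' (x : ℕ → ℤ) (n w N A : ℕ) (hw : 0 < w) (O P Sm : ℤ → Prop)
    (hinj : ∀ i < n, ∀ k < n, x i = x k → i = k)
    (hN : ∀ F : Finset ℤ, (∀ y ∈ F, P y ∧ Sm y) → F.card ≤ N)
    (hgap : ∀ i k, i < k → k < n → k < i + w → O (x i) → P (x i) → P (x k) → ¬ Sm (x i) →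
      ((Ico i k).filter (fun l => O (x l))).card ≤ A) :
    ((range n).filter (fun i => O (x i) ∧ P (x i))).card ≤ (A + 1) * (n / w + 1) + N := by
  have hsplit : ((range n).filter (fun i => O (x i) ∧ P (x i))) ⊆
      ((range n).filter (fun i => (O (x i) ∧ P (x i)) ∧ ¬ Sm (x i))) ∪
      ((range n).filter (fun i => P (x i) ∧ Sm (x i))) := by
    intro i hi
    rw [mem_filter] at hi
    rw [mem_union, mem_filter, mem_filter]
    by_cases h : Sm (x i)
    · exact Or.inr ⟨hi.1, hi.2.2, h⟩
    · exact Or.inl ⟨hi.1, hi.2, h⟩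
  refine (card_le_card hsplit).trans ((card_union_le _ _).trans (add_le_add ?_ ?_))
  · refine (card_le_mul_card_image (f := fun i => i / w) _ (A + 1) ?_).trans
      (Nat.mul_le_mul_left _ ?_)
    · intro t _
      set J := ((range n).filter (fun i => (O (x i) ∧ P (x i)) ∧ ¬ Sm (x i))).filter
        (fun i => i / w = t) with hJ
      rcases J.eq_empty_or_nonempty with h0 | h0
      · rw [h0]; simp
      · obtain ⟨k, hk, hkmax⟩ := exists_max_image J id h0
        obtain ⟨i, hi, himin⟩ := exists_min_image J id h0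
        have hsub : J.erase k ⊆ (Ico i k).filter (fun l => O (x l)) := by
          intro l hl
          rw [mem_erase] at hl
          rw [mem_filter, mem_Ico]
          have h1 := hkmax l hl.2
          have h2 := himin l hl.2
          simp only [id] at h1 h2
          have h3 := hl.2
          rw [hJ, mem_filter, mem_filter] at h3
          exact ⟨⟨h2, lt_of_le_of_ne h1 hl.1⟩, h3.1.2.1.1⟩
        rcases Nat.lt_or_ge i k with hik | hik
        · have hk' := hk
          have hi' := hi
          rw [hJ, mem_filter, mem_filter, mem_range] at hk' hi'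
          have hkw : k < i + w := by
            have h1 : k / w = i / w := hk'.2.trans hi'.2.symm
            have h2 := Nat.div_add_mod k w
            have h3 := Nat.div_add_mod i w
            have h4 := Nat.mod_lt k hw
            rw [h1] at h2
            omega
          have h5 := hgap i k hik hk'.1.1 hkw hi'.1.2.1.1 hi'.1.2.1.2 hk'.1.2.1.2 hi'.1.2.2
          have h6 := card_le_card hsub
          rw [card_erase_of_mem hk] at h6
          omega
        · have h6 : J.erase k = ∅ := by
            rw [eq_empty_iff_forall_notMem]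
            intro l hl
            rw [mem_erase] at hl
            have h1 := hkmax l hl.2
            have h2 := himin l hl.2
            simp only [id] at h1 h2
            exact hl.1 (by omega)
          have h7 := card_erase_of_mem hk
          rw [h6, card_empty] at h7
          omega
    · refine (card_le_card (t := range (n / w + 1)) ?_).trans (card_range _).le
      intro t ht
      rw [mem_image] at ht
      obtain ⟨i, hi, rfl⟩ := ht
      rw [mem_filter, mem_range] at hi
      rw [mem_range]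
      have := Nat.div_le_div_right (c := w) hi.1.le
      omega
  · have h1 : ((range n).filter (fun i => P (x i) ∧ Sm (x i))).card =
        (((range n).filter (fun i => P (x i) ∧ Sm (x i))).image x).card := by
      rw [card_image_of_injOn]
      intro i hi k hk h
      rw [mem_coe, mem_filter, mem_range] at hi hk
      exact hinj i hi.1 k hk.1 h
    rw [h1]
    apply hN
    intro y hy
    rw [mem_image] at hy
    obtain ⟨i, hi, rfl⟩ := hy
    rw [mem_filter] at hi
    exact hi.2

/-- the count from a gap law with constants `C`, `K` and a bound for the number of small elements -/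
theorem count_pow (κ : ℕ) (C K D : ℝ) (hC : 1 ≤ C) (hK : 1 ≤ K) (hD : 0 ≤ D) (x : ℕ → ℤ) (n : ℕ)
    (hn : 1 ≤ n) (O P : ℤ → Prop) (hinj : ∀ i < n, ∀ k < n, x i = x k → i = k)
    (hN : ∀ L : ℝ, 1 ≤ L → ∀ F : Finset ℤ, (∀ y ∈ F, P y ∧ Real.log |(y : ℝ)| ≤ L) →
      (F.card : ℝ) ≤ D * L ^ κ)
    (hgap : ∀ i k, i < k → k < n → O (x i) → P (x i) → P (x k) →
      Real.log |(x i : ℝ)| ≤ C * ((k - i : ℕ) + K) ∨
      (((Ico i k).filter (fun l => O (x l))).card : ℝ) ≤ C * K) :
    (((range n).filter (fun i => O (x i) ∧ P (x i))).card : ℝ) ≤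
      (4 * C * K + D * (3 * C * K) ^ κ) * (n : ℝ) ^ ((κ : ℝ) / (κ + 1)) := by
  have hnR : (1 : ℝ) ≤ n := by exact_mod_cast hn
  have hn0 : (0 : ℝ) < n := by linarith
  have hκ : (0 : ℝ) ≤ κ := Nat.cast_nonneg _
  obtain ⟨t, ht⟩ : ∃ t : ℝ, t = (n : ℝ) ^ ((1 : ℝ) / (κ + 1)) := ⟨_, rfl⟩
  have ht1 : 1 ≤ t := by
    rw [ht]
    exact Real.one_le_rpow hnR (by positivity)
  have htκ : t ^ κ = (n : ℝ) ^ ((κ : ℝ) / (κ + 1)) := by
    rw [ht, ← Real.rpow_natCast, ← Real.rpow_mul hn0.le]
    congr 1
    ring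
  have htn : (n : ℝ) / t = t ^ κ := by
    rw [htκ, ht, div_eq_iff (by positivity), ← Real.rpow_add hn0]
    have : (κ : ℝ) / (κ + 1) + 1 / (κ + 1) = 1 := by field_simp
    rw [this, Real.rpow_one]
  have htκ1 : 1 ≤ t ^ κ := one_le_pow₀ ht1
  obtain ⟨w, hw⟩ : ∃ w : ℕ, w = ⌈t⌉₊ := ⟨_, rfl⟩
  have hwge : t ≤ w := by rw [hw]; exact Nat.le_ceil _
  have hwle : (w : ℝ) ≤ 2 * t := by
    have := Nat.ceil_lt_add_one (by linarith : 0 ≤ t)
    rw [hw]
    linarith
  have hw0 : 0 < w := by
    have : (0 : ℝ) < w := by linarith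
    exact_mod_cast this
  obtain ⟨L, hL⟩ : ∃ L : ℝ, L = C * (w + K) := ⟨_, rfl⟩
  have hL1 : 1 ≤ L := by
    rw [hL]
    nlinarith
  have hLle : L ≤ 3 * C * K * t := by
    rw [hL]
    have h1 : (w : ℝ) + K ≤ 3 * K * t := by nlinarith
    calc C * (w + K) ≤ C * (3 * K * t) := by gcongr
      _ = _ := by ring
  obtain ⟨A, hA⟩ : ∃ A : ℕ, A = ⌊C * K⌋₊ := ⟨_, rfl⟩
  have hCK : 1 ≤ C * K := by nlinarith
  have hAle : (A : ℝ) ≤ C * K := by rw [hA]; exact Nat.floor_le (by linarith)
  have hDL : 0 ≤ D * L ^ κ := by positivity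
  have key := count_le' x n w ⌊D * L ^ κ⌋₊ A hw0 O P (fun y => Real.log |(y : ℝ)| ≤ L) hinj
    (fun F hF => Nat.le_floor (hN L hL1 F hF)) (by
      intro i k hik hkn hkw hO hPi hPk hNx
      rcases hgap i k hik hkn hO hPi hPk with h | h
      · exfalso
        apply hNx
        refine h.trans ?_
        rw [hL]
        have h4 : ((k - i : ℕ) : ℝ) ≤ w := by
          have : k - i ≤ w := by omega
          exact_mod_cast this
        gcongr
      · rw [hA]
        exact Nat.le_floor h)
  have key' : (((range n).filter (fun i => O (x i) ∧ P (x i))).card : ℝ) ≤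
      (A + 1) * ((n / w : ℕ) + 1) + (⌊D * L ^ κ⌋₊ : ℕ) := by exact_mod_cast key
  have h1 : ((n / w : ℕ) : ℝ) ≤ t ^ κ := by
    rw [← htn]
    refine Nat.cast_div_le.trans ?_
    gcongr
  have h2 : ((⌊D * L ^ κ⌋₊ : ℕ) : ℝ) ≤ D * ((3 * C * K) ^ κ * t ^ κ) := by
    refine (Nat.floor_le hDL).trans ?_
    rw [← mul_pow]
    have : 0 ≤ L := by linarith
    gcongr
  have h3 : ((A : ℝ) + 1) * ((n / w : ℕ) + 1) ≤ (2 * (C * K)) * (2 * t ^ κ) := by
    apply mul_le_mul
    · linarith
    · linarith
    · positivity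
    · linarith
  rw [← htκ]
  calc _ ≤ (A + 1) * ((n / w : ℕ) + 1) + ((⌊D * L ^ κ⌋₊ : ℕ) : ℝ) := key'
    _ ≤ (2 * (C * K)) * (2 * t ^ κ) + D * ((3 * C * K) ^ κ * t ^ κ) := add_le_add h3 h2
    _ = _ := by ring

end Pool.Agent.U773.SP
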