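import Mathlib
import Pool.Agent.U773.SP.Core2

/-! The dichotomy for two short sums of `S`-units, all primes together. -/

set_option autoImplicit false

namespace Pool.Agent.U773.SP

theorem core (S : Finset ℕ) (m d : ℕ) (hm : m ≠ 0) (hd : d ≠ 0) (r : ℕ) :
    ∃ C : ℝ, 0 < C ∧ ∀ (o j : ℕ) (x y B : ℤ) (M : ℝ), 1 ≤ M →
      (m : ℤ) ^ o * x + B = (d : ℤ) ^ j * y → Short S r M x → Short S r M y →
      Real.log |(x : ℝ)| ≤ C * (1 + o + j + Real.log (1 + |(B : ℝ)|) + Real.log M) ∨
      ∀ q : ℕ, q.Prime → q ∉ S →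
        |(o : ℝ) * padicValNat q m - j * padicValNat q d| ≤ C * (1 + Real.log M) := by
  classical
  have h : ∀ q : ℕ, ∃ C : ℝ, 0 < C ∧ (q.Prime → q ∉ S → ∀ (o j : ℕ) (x y B : ℤ) (M : ℝ), 1 ≤ M →
      (m : ℤ) ^ o * x + B = (d : ℤ) ^ j * y → Short S r M x → Short S r M y →
      Real.log |(x : ℝ)| ≤ C * (1 + o + j + Real.log (1 + |(B : ℝ)|) + Real.log M) ∨
      |(o : ℝ) * padicValNat q m - j * padicValNat q d| ≤ C * (1 + Real.log M)) := by
    intro q
    by_cases hq : q.Prime ∧ q ∉ S
    · obtain ⟨C, hC, h⟩ := core_q S m d hm hd r q hq.1 hq.2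
      exact ⟨C, hC, fun _ _ => h⟩
    · exact ⟨1, one_pos, fun h1 h2 => absurd ⟨h1, h2⟩ hq⟩
  choose C hC hh using h
  refine ⟨1 + ∑ q ∈ (m * d).primeFactors, C q, ?_, ?_⟩
  · have := Finset.sum_nonneg (fun q (_ : q ∈ (m * d).primeFactors) => (hC q).le)
    linarith
  · intro o j x y B M hM heq hx hy
    have hs : 0 ≤ ∑ q ∈ (m * d).primeFactors, C q :=
      Finset.sum_nonneg (fun q _ => (hC q).le)
    have hlB : 0 ≤ Real.log (1 + |(B : ℝ)|) :=
      Real.log_nonneg (by linarith [abs_nonneg (B : ℝ)])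
    have hlM : 0 ≤ Real.log M := Real.log_nonneg hM
    have ho : (0 : ℝ) ≤ o := Nat.cast_nonneg _
    have hj : (0 : ℝ) ≤ j := Nat.cast_nonneg _
    by_cases hbig : Real.log |(x : ℝ)| ≤ (1 + ∑ q ∈ (m * d).primeFactors, C q) *
        (1 + o + j + Real.log (1 + |(B : ℝ)|) + Real.log M)
    · exact Or.inl hbig
    · right
      intro q hq hqS
      by_cases hqm : q ∣ m * d
      · have hmem : q ∈ (m * d).primeFactors :=
          Nat.mem_primeFactors.2 ⟨hq, hqm, mul_ne_zero hm hd⟩
        have hle : C q ≤ 1 + ∑ q ∈ (m * d).primeFactors, C q := by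
          have := Finset.single_le_sum (f := C) (fun q _ => (hC q).le) hmem
          linarith
        rcases hh q hq hqS o j x y B M hM heq hx hy with h1 | h1
        · exfalso
          apply hbig
          refine h1.trans (mul_le_mul_of_nonneg_right hle ?_)
          positivity
        · exact h1.trans (mul_le_mul_of_nonneg_right hle (by linarith))
      · have h1 : padicValNat q m = 0 :=
          padicValNat.eq_zero_of_not_dvd fun h => hqm (h.mul_right d)
        have h2 : padicValNat q d = 0 :=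
          padicValNat.eq_zero_of_not_dvd fun h => hqm (h.mul_left m)
        rw [h1, h2]
        simp only [Nat.cast_zero, mul_zero, sub_zero, abs_zero]
        positivity

end Pool.Agent.U773.SP
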