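import Mathlib

/-! Counting the terms of a sequence of different integers with a property which two terms can only
share if they are far apart. -/

set_option autoImplicit false

namespace Pool.Agent.U773.SP

open Finset

open scoped Classical

lemma count_le (x : ℕ → ℤ) (n w N A : ℕ) (hw : 0 < w) (O P : ℤ → Prop)
    (hinj : ∀ i < n, ∀ k < n, x i = x k → i = k)
    (hgap : ∀ i k, i < k → k < n → k < i + w → O (x i) → P (x i) → P (x k) → (N : ℤ) < |x i| →
      ((Ico i k).filter (fun l => O (x l))).card ≤ A) :
    ((range n).filter (fun i => O (x i) ∧ P (x i))).card ≤ (A + 1) * (n / w + 1) + (2 * N + 1) := by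
  have hsplit : ((range n).filter (fun i => O (x i) ∧ P (x i))) ⊆
      ((range n).filter (fun i => (O (x i) ∧ P (x i)) ∧ (N : ℤ) < |x i|)) ∪
      ((range n).filter (fun i => |x i| ≤ (N : ℤ))) := by
    intro i hi
    rw [mem_filter] at hi
    rw [mem_union, mem_filter, mem_filter]
    rcases lt_or_ge (N : ℤ) |x i| with h | h
    · exact Or.inl ⟨hi.1, hi.2, h⟩
    · exact Or.inr ⟨hi.1, h⟩
  refine (card_le_card hsplit).trans ((card_union_le _ _).trans (add_le_add ?_ ?_))
  · refine (card_le_mul_card_image (f := fun i => i / w) _ (A + 1) ?_).trans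
      (Nat.mul_le_mul_left _ ?_)
    · intro t _
      set J := ((range n).filter (fun i => (O (x i) ∧ P (x i)) ∧ (N : ℤ) < |x i|)).filter
        (fun i => i / w = t) with hJ
      rcases J.eq_empty_or_nonempty with h0 | h0
      · rw [h0]; simp
      · obtain ⟨k, hk, hkmax⟩ := exists_max_image J id h0
        obtain ⟨i, hi, himin⟩ := exists_min_image J id h0
        have hsub : J.erase k ⊆ (Ico i k).filter (fun l => O (x l)) := by
          intro l hl
          rw [mem_erase] at hl
          rw [mem_filter, mem_Ico]
          have h1 := hkmax l hl.2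
          have h2 := himin l hl.2
          simp only [id] at h1 h2
          have h3 := hl.2
          rw [hJ, mem_filter, mem_filter] at h3
          exact ⟨⟨h2, lt_of_le_of_ne h1 hl.1⟩, h3.1.2.1.1⟩
        rcases Nat.lt_or_ge i k with hik | hik
        · have hk' := hk
          have hi' := hi
          rw [hJ, mem_filter, mem_filter, mem_range] at hk' hi'
          have hkw : k < i + w := by
            have h1 : k / w = i / w := hk'.2.trans hi'.2.symm
            have h2 := Nat.div_add_mod k w
            have h3 := Nat.div_add_mod i w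
            have h4 := Nat.mod_lt k hw
            rw [h1] at h2
            omega
          have h5 := hgap i k hik hk'.1.1 hkw hi'.1.2.1.1 hi'.1.2.1.2 hk'.1.2.1.2 hi'.1.2.2
          have h6 := card_le_card hsub
          rw [card_erase_of_mem hk] at h6
          omega
        · have h6 : J.erase k = ∅ := by
            rw [eq_empty_iff_forall_notMem]
            intro l hl
            rw [mem_erase] at hl
            have h1 := hkmax l hl.2
            have h2 := himin l hl.2
            simp only [id] at h1 h2
            exact hl.1 (by omega)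
          have h7 := card_erase_of_mem hk
          rw [h6, card_empty] at h7
          omega
    · refine (card_le_card (t := range (n / w + 1)) ?_).trans (card_range _).le
      intro t ht
      rw [mem_image] at ht
      obtain ⟨i, hi, rfl⟩ := ht
      rw [mem_filter, mem_range] at hi
      rw [mem_range]
      have := Nat.div_le_div_right (c := w) hi.1.le
      omega
  · have h1 : ((range n).filter (fun i => |x i| ≤ (N : ℤ))).card ≤
        (Icc (-(N : ℤ)) N).card := by
      apply card_le_card_of_injOn x
      · intro i hi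
        rw [mem_coe, mem_filter] at hi
        rw [mem_coe, mem_Icc]
        exact abs_le.1 hi.2
      · intro i hi k hk h
        rw [mem_coe, mem_filter, mem_range] at hi hk
        exact hinj i hi.1 k hk.1 h
    rw [Int.card_Icc] at h1
    omega

lemma log_le_sqrt {n : ℝ} (hn : 1 ≤ n) : Real.log n ≤ Real.sqrt n := by
  have h0 : 0 < Real.sqrt n := Real.sqrt_pos.2 (by linarith)
  have h1 : Real.log n = 2 * Real.log (Real.sqrt n) := by
    rw [Real.log_sqrt (by linarith)]
    ring
  rw [h1]
  have h2 : Real.log (Real.sqrt n / 2) ≤ Real.sqrt n / 2 - 1 :=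
    Real.log_le_sub_one_of_pos (by positivity)
  rw [Real.log_div h0.ne' (by norm_num)] at h2
  have h3 := Real.log_two_lt_d9
  linarith

/-- the count from a gap law with constants `C`, `K` -/
theorem count (C K : ℝ) (hC : 1 ≤ C) (hK : 1 ≤ K) (x : ℕ → ℤ) (n : ℕ) (hn : 2 ≤ n)
    (O P : ℤ → Prop) (hinj : ∀ i < n, ∀ k < n, x i = x k → i = k)
    (hgap : ∀ i k, i < k → k < n → O (x i) → P (x i) → P (x k) →
      Real.log |(x i : ℝ)| ≤ C * ((k - i : ℕ) + K) ∨
      (((Ico i k).filter (fun l => O (x l))).card : ℝ) ≤ C * K) :
    (((range n).filter (fun i => O (x i) ∧ P (x i))).card : ℝ) ≤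
      30 * C ^ 2 * K * (n / Real.log n) := by
  have hnR : (2 : ℝ) ≤ n := by exact_mod_cast hn
  have hlog : 0 < Real.log n := Real.log_pos (by linarith)
  have hcard : (((range n).filter (fun i => O (x i) ∧ P (x i))).card : ℝ) ≤ n := by
    have := card_filter_le (range n) (fun i => O (x i) ∧ P (x i))
    rw [card_range] at this
    exact_mod_cast this
  have hCK : 1 ≤ C * K := by nlinarith
  have hn0 : (0 : ℝ) < n := by linarith
  rcases le_or_gt (Real.log n) (8 * (C * K)) with hs | hs
  · refine hcard.trans ?_
    have h1 : 1 ≤ 30 * C ^ 2 * K / Real.log n := by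
      rw [le_div_iff₀ hlog]
      nlinarith [mul_nonneg (by linarith : (0:ℝ) ≤ C - 1) (by linarith : (0:ℝ) ≤ C * K)]
    calc (n : ℝ) = n * 1 := by ring
      _ ≤ n * (30 * C ^ 2 * K / Real.log n) := by gcongr
      _ = 30 * C ^ 2 * K * (n / Real.log n) := by ring
  · -- the window
    obtain ⟨w, hw⟩ : ∃ w : ℕ, w = ⌊Real.log n / (4 * C)⌋₊ := ⟨_, rfl⟩
    have hCpos : 0 < C := by linarith
    have hwle : (w : ℝ) ≤ Real.log n / (4 * C) := by
      rw [hw]; exact Nat.floor_le (by positivity)
    have hwge : Real.log n / (8 * C) ≤ w := by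
      have h1 : Real.log n / (4 * C) < w + 1 := by rw [hw]; exact Nat.lt_floor_add_one _
      have h2 : 1 ≤ Real.log n / (8 * C) := by
        rw [le_div_iff₀ (by positivity)]
        nlinarith
      have h3 : Real.log n / (4 * C) = 2 * (Real.log n / (8 * C)) := by
        field_simp; ring
      linarith
    have hw0 : 0 < w := by
      have h2 : 1 ≤ Real.log n / (8 * C) := by
        rw [le_div_iff₀ (by positivity)]
        nlinarith
      have : (0 : ℝ) < w := by linarith
      exact_mod_cast this
    obtain ⟨N, hN⟩ : ∃ N : ℕ, N = ⌊Real.sqrt n⌋₊ := ⟨_, rfl⟩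
    have hNle : (N : ℝ) ≤ Real.sqrt n := by rw [hN]; exact Nat.floor_le (Real.sqrt_nonneg _)
    have hNlt : Real.sqrt n < N + 1 := by rw [hN]; exact Nat.lt_floor_add_one _
    obtain ⟨A, hA⟩ : ∃ A : ℕ, A = ⌊C * K⌋₊ := ⟨_, rfl⟩
    have hAle : (A : ℝ) ≤ C * K := by rw [hA]; exact Nat.floor_le (by linarith)
    have key := count_le x n w N A hw0 O P hinj (by
      intro i k hik hkn hkw hO hPi hPk hNx
      rcases hgap i k hik hkn hO hPi hPk with h | h
      · exfalso
        have h1 : (N : ℝ) + 1 ≤ |(x i : ℝ)| := by
          have h2 : (N : ℤ) + 1 ≤ |x i| := hNx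
          exact_mod_cast h2
        have h2 : Real.sqrt n < |(x i : ℝ)| := by linarith
        have h3 : Real.log n / 2 < Real.log |(x i : ℝ)| := by
          have h4 := Real.log_lt_log (Real.sqrt_pos.2 hn0) h2
          rw [Real.log_sqrt hn0.le] at h4
          exact h4
        have h4 : ((k - i : ℕ) : ℝ) ≤ w := by
          have : k - i ≤ w := by omega
          exact_mod_cast this
        have h5 : C * (((k - i : ℕ) : ℝ) + K) ≤ C * (Real.log n / (4 * C) + K) := by
          gcongr
          linarith
        have h6 : C * (Real.log n / (4 * C) + K) = Real.log n / 4 + C * K := by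
          field_simp
        linarith
      · rw [hA]
        exact Nat.le_floor h)
    have key' : (((range n).filter (fun i => O (x i) ∧ P (x i))).card : ℝ) ≤
        (A + 1) * ((n / w : ℕ) + 1) + (2 * N + 1) := by exact_mod_cast key
    refine key'.trans ?_
    have hq : 0 < (n : ℝ) / Real.log n := by positivity
    have e1 : ((n / w : ℕ) : ℝ) ≤ 8 * C * (n / Real.log n) := by
      have h1 : ((n / w : ℕ) : ℝ) ≤ (n : ℝ) / w := Nat.cast_div_le
      have h2 : (n : ℝ) / w ≤ n / (Real.log n / (8 * C)) := by gcongr
      have h3 : (n : ℝ) / (Real.log n / (8 * C)) = 8 * C * (n / Real.log n) := by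
        field_simp
      linarith
    have e2 : Real.sqrt n ≤ n / Real.log n := by
      rw [le_div_iff₀ hlog]
      have h1 := log_le_sqrt (n := n) (by linarith)
      have h2 := Real.mul_self_sqrt hn0.le
      nlinarith [Real.sqrt_nonneg (n : ℝ)]
    have e3 : 1 ≤ Real.sqrt n := by
      rw [Real.one_le_sqrt]
      linarith
    have e4 : (A : ℝ) + 1 ≤ 2 * (C * K) := by linarith
    have e5 : ((n / w : ℕ) : ℝ) + 1 ≤ 9 * C * (n / Real.log n) := by
      have : 1 ≤ n / Real.log n := e3.trans e2
      nlinarith
    have e6 : (2 : ℝ) * N + 1 ≤ 3 * (n / Real.log n) := by linarith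
    calc ((A : ℝ) + 1) * ((n / w : ℕ) + 1) + (2 * N + 1)
        ≤ 2 * (C * K) * (9 * C * (n / Real.log n)) + 3 * (n / Real.log n) := by
          have h7 : (0 : ℝ) ≤ ((n / w : ℕ) : ℝ) + 1 := by positivity
          have h8 := mul_le_mul e4 e5 h7 (by positivity)
          linarith
      _ = (18 * C ^ 2 * K + 3) * (n / Real.log n) := by ring
      _ ≤ 30 * C ^ 2 * K * (n / Real.log n) := by
          gcongr
          nlinarith [mul_nonneg (by linarith : (0:ℝ) ≤ C - 1) (by linarith : (0:ℝ) ≤ C * K)]

end Pool.Agent.U773.SP
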