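import Mathlib
import Pool.Agent.U773.SP.All
import Pool.Agent.U773.SP.Count

/-! Short sums of `S`-units in the orbits of the maps `x ↦ x / 2`, `x ↦ (a x + b) / 2`. -/

set_option autoImplicit false

namespace Pool.Agent.U773.SP

open Finset

open scoped Classical

lemma card_inst {α : Type*} (s : Finset α) (P : α → Prop) (i1 i2 : DecidablePred P) :
    (@Finset.filter α P i1 s).card = (@Finset.filter α P i2 s).card := by
  have h : @Finset.filter α P i1 s = @Finset.filter α P i2 s := by
    ext x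
    rw [@Finset.mem_filter α P i1, @Finset.mem_filter α P i2]
  rw [h]

lemma card_inst' {α : Type*} (s : Finset α) (P : α → Prop) (i1 i2 : DecidablePred P) :
    ((@Finset.filter α P i1 s).card : ℝ) = (@Finset.filter α P i2 s).card := by
  rw [card_inst s P i1 i2]

/-- the map -/
def Tm (a b x : ℤ) : ℤ := if x % 2 = 0 then x / 2 else (a * x + b) / 2

/-- the number of odd terms among the first `j` -/
noncomputable def oddc (a b x : ℤ) (j : ℕ) : ℕ :=
  ((range j).filter (fun i => (Tm a b)^[i] x % 2 = 1)).card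

lemma oddc_succ (a b x : ℤ) (j : ℕ) :
    oddc a b x (j + 1) = oddc a b x j + if (Tm a b)^[j] x % 2 = 1 then 1 else 0 := by
  unfold oddc
  rw [range_add_one, filter_insert]
  split_ifs with h
  · rw [card_insert_of_notMem (by simp)]
  · rfl

lemma rel (a : ℕ) (ha : a % 2 = 1) (b x : ℤ) (hb : b % 2 = 1) (j : ℕ) :
    ∃ B : ℤ, 0 ≤ B ∧ B ≤ ((a : ℤ) + 2) ^ j ∧
      (a : ℤ) ^ (oddc a b x j) * x + b * B = 2 ^ j * (Tm a b)^[j] x := by
  induction j with
  | zero => exact ⟨0, le_rfl, by simp, by simp [oddc]⟩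
  | succ j ih =>
    obtain ⟨B, h0, h1, h2⟩ := ih
    rw [oddc_succ, Function.iterate_succ_apply']
    set y := (Tm a b)^[j] x with hy
    have ha0 : (0 : ℤ) ≤ a := Int.natCast_nonneg a
    have hp : (0 : ℤ) < ((a : ℤ) + 2) ^ j := by positivity
    have h2p : (2 : ℤ) ^ j ≤ ((a : ℤ) + 2) ^ j := by
      apply pow_le_pow_left₀ (by norm_num)
      linarith
    unfold Tm
    rcases Int.emod_two_eq_zero_or_one y with h | h
    · rw [if_neg (by omega), if_pos h, add_zero]
      refine ⟨B, h0, ?_, ?_⟩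
      · rw [pow_succ]
        nlinarith
      · rw [h2, pow_succ]
        have : y = 2 * (y / 2) := by omega
        conv_lhs => rw [this]
        ring
    · rw [if_pos h, if_neg (by omega)]
      refine ⟨a * B + 2 ^ j, by positivity, ?_, ?_⟩
      · rw [pow_succ]
        have : (a : ℤ) * B ≤ a * ((a : ℤ) + 2) ^ j := by gcongr
        nlinarith
      · have h3 : (a * y + b) % 2 = 0 := by
          rw [Int.add_emod, Int.mul_emod, h, hb]
          have : (a : ℤ) % 2 = 1 := by omega
          rw [this]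
          norm_num
        have h4 : (a : ℤ) * y + b = 2 * ((a * y + b) / 2) := by omega
        have h5 : (2 : ℤ) ^ (j + 1) * ((a * y + b) / 2) = 2 ^ j * (a * y + b) := by
          conv_rhs => rw [h4]
          rw [pow_succ]
          ring
        rw [h5, pow_succ]
        have h6 : (a : ℤ) ^ (oddc a b x j) * a * x + b * (a * B + 2 ^ j) =
            a * ((a : ℤ) ^ (oddc a b x j) * x + b * B) + 2 ^ j * b := by ring
        rw [h6, h2]
        ring

lemma oddc_le (a b x : ℤ) (j : ℕ) : oddc a b x j ≤ j := by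
  unfold oddc
  exact (card_filter_le _ _).trans (card_range j).le

lemma oddc_shift (a b x : ℤ) (i k : ℕ) (h : i ≤ k) :
    oddc a b ((Tm a b)^[i] x) (k - i) =
      ((Ico i k).filter (fun l => (Tm a b)^[l] x % 2 = 1)).card := by
  unfold oddc
  symm
  apply card_bij (fun l _ => l - i)
  · intro l hl
    rw [mem_filter, mem_Ico] at hl
    rw [mem_filter, mem_range]
    refine ⟨by omega, ?_⟩
    rw [← Function.iterate_add_apply]
    have : l - i + i = l := by omega
    rw [this]
    exact hl.2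
  · intro l hl l' hl' h
    rw [mem_filter, mem_Ico] at hl hl'
    omega
  · intro t ht
    rw [mem_filter, mem_range, ← Function.iterate_add_apply] at ht
    refine ⟨t + i, ?_, by omega⟩
    rw [mem_filter, mem_Ico]
    exact ⟨by omega, ht.2⟩

/-- **The gap law.** -/
theorem gap (S : Finset ℕ) (a : ℕ) (ha : a % 2 = 1) (r : ℕ) :
    ∃ C : ℝ, 1 ≤ C ∧ ∀ (b x : ℤ) (j : ℕ) (M : ℝ), b % 2 = 1 → 1 ≤ M → Short S r M x →
      Short S r M ((Tm a b)^[j] x) →
      Real.log |(x : ℝ)| ≤ C * (j + (1 + Real.log (1 + |(b : ℝ)|) + Real.log M)) ∨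
      ((∀ q : ℕ, q.Prime → q ∣ a → q ∉ S → (oddc a b x j : ℝ) ≤ C * (1 + Real.log M)) ∧
        (2 ∉ S → (j : ℝ) ≤ C * (1 + Real.log M))) := by
  have ha0 : a ≠ 0 := by rintro rfl; simp at ha
  obtain ⟨C, hC, h⟩ := core S a 2 ha0 (by norm_num) r
  have haR : (1 : ℝ) ≤ a := by exact_mod_cast Nat.one_le_iff_ne_zero.2 ha0
  have hla : 0 ≤ Real.log ((a : ℝ) + 2) := Real.log_nonneg (by linarith)
  refine ⟨(C + 1) * (4 + Real.log ((a : ℝ) + 2)), ?_, ?_⟩
  · nlinarith
  intro b x j M hb hM hx hy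
  obtain ⟨B, hB0, hB1, hrel⟩ := rel a ha b x hb j
  have hlM : 0 ≤ Real.log M := Real.log_nonneg hM
  have hlb : 0 ≤ Real.log (1 + |(b : ℝ)|) := Real.log_nonneg (by linarith [abs_nonneg (b : ℝ)])
  have hj : (0 : ℝ) ≤ j := Nat.cast_nonneg _
  have ho : (oddc a b x j : ℝ) ≤ j := by exact_mod_cast oddc_le a b x j
  rcases h (oddc a b x j) j x _ (b * B) M hM (by push_cast; exact hrel) hx hy with h1 | h1
  · left
    refine h1.trans ?_
    have hBl : Real.log (1 + |((b * B : ℤ) : ℝ)|) ≤
        Real.log (1 + |(b : ℝ)|) + j * Real.log ((a : ℝ) + 2) := by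
      rw [← Real.log_pow, ← Real.log_mul (by positivity) (by positivity)]
      apply Real.log_le_log (by positivity)
      have h2 : |(B : ℝ)| ≤ ((a : ℝ) + 2) ^ j := by
        rw [abs_of_nonneg (by exact_mod_cast hB0)]
        exact_mod_cast hB1
      have h3 : (1 : ℝ) ≤ ((a : ℝ) + 2) ^ j := one_le_pow₀ (by linarith)
      push_cast
      rw [abs_mul]
      have h4 : |(b : ℝ)| * |(B : ℝ)| ≤ |(b : ℝ)| * ((a : ℝ) + 2) ^ j := by gcongr
      nlinarith [abs_nonneg (b : ℝ)]
    have h5 : C * (1 + (oddc a b x j : ℝ) + j + Real.log (1 + |((b * B : ℤ) : ℝ)|) + Real.log M) ≤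
        (C + 1) * (1 + j + j + (Real.log (1 + |(b : ℝ)|) + j * Real.log ((a : ℝ) + 2)) +
          Real.log M) := by
      have h6 : 0 ≤ (1 : ℝ) + j + j + (Real.log (1 + |(b : ℝ)|) + j * Real.log ((a : ℝ) + 2)) +
          Real.log M := by positivity
      calc _ ≤ C * (1 + j + j + (Real.log (1 + |(b : ℝ)|) + j * Real.log ((a : ℝ) + 2)) +
          Real.log M) := by gcongr
        _ ≤ _ := by nlinarith
    refine h5.trans ?_
    rw [mul_assoc]
    apply mul_le_mul_of_nonneg_left _ (by linarith)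
    have e1 : 0 ≤ Real.log ((a : ℝ) + 2) * (1 + Real.log (1 + |(b : ℝ)|) + Real.log M) := by
      positivity
    nlinarith
  · right
    have hle : C * (1 + Real.log M) ≤
        (C + 1) * (4 + Real.log ((a : ℝ) + 2)) * (1 + Real.log M) := by
      apply mul_le_mul_of_nonneg_right _ (by linarith)
      nlinarith
    constructor
    · intro q hq hqa hqS
      have h2 := h1 q hq hqS
      have hqf : Fact q.Prime := ⟨hq⟩
      have h3 : padicValNat q 2 = 0 := by
        apply padicValNat.eq_zero_of_not_dvd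
        intro h4
        have h5 : q = 2 := (Nat.prime_dvd_prime_iff_eq hq Nat.prime_two).1 h4
        rw [h5] at hqa
        omega
      have h4 : 1 ≤ padicValNat q a := one_le_padicValNat_of_dvd ha0 hqa
      rw [h3, Nat.cast_zero, mul_zero, sub_zero, abs_of_nonneg (by positivity)] at h2
      have h5 : (oddc a b x j : ℝ) * 1 ≤ (oddc a b x j : ℝ) * padicValNat q a := by
        gcongr
        exact_mod_cast h4
      linarith
    · intro h2S
      have h2 := h1 2 Nat.prime_two h2S
      have h3 : padicValNat 2 a = 0 := by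
        apply padicValNat.eq_zero_of_not_dvd
        omega
      have h4 : padicValNat 2 2 = 1 := padicValNat_self
      rw [h3, h4, Nat.cast_zero, mul_zero, Nat.cast_one, mul_one, zero_sub, abs_neg,
        abs_of_nonneg hj] at h2
      linarith

/-- **The odd terms of an orbit which are short sums of `S`-units are rare.** -/
theorem traj_odd (S : Finset ℕ) (a : ℕ) (ha : a % 2 = 1) (q : ℕ) (hq : q.Prime) (hqa : q ∣ a)
    (hqS : q ∉ S) (r : ℕ) :
    ∃ C : ℝ, 0 < C ∧ ∀ (b x : ℤ) (n : ℕ) (M : ℝ), b % 2 = 1 → 1 ≤ M → 2 ≤ n →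
      (∀ i < n, ∀ k < n, (Tm a b)^[i] x = (Tm a b)^[k] x → i = k) →
      (((range n).filter (fun i => (Tm a b)^[i] x % 2 = 1 ∧
        Short S r M ((Tm a b)^[i] x))).card : ℝ) ≤
        C * (1 + Real.log (1 + |(b : ℝ)|) + Real.log M) * (n / Real.log n) := by
  obtain ⟨C, hC, h⟩ := gap S a ha r
  refine ⟨30 * C ^ 2, by positivity, ?_⟩
  intro b x n M hb hM hn hinj
  have hlM : 0 ≤ Real.log M := Real.log_nonneg hM
  have hlb : 0 ≤ Real.log (1 + |(b : ℝ)|) := Real.log_nonneg (by linarith [abs_nonneg (b : ℝ)])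
  have key := count C (1 + Real.log (1 + |(b : ℝ)|) + Real.log M) hC (by linarith)
    (fun i => (Tm a b)^[i] x) n hn (fun y => y % 2 = 1) (Short S r M) hinj ?_
  · exact (card_inst' _ _ _ _).trans_le key
  intro i k hik hkn hO hPi hPk
  have hk : (Tm a b)^[k] x = (Tm a b)^[k - i] ((Tm a b)^[i] x) := by
    rw [← Function.iterate_add_apply]
    congr 2
    omega
  rw [hk] at hPk
  rcases h b _ (k - i) M hb hM hPi hPk with h1 | h1
  · exact Or.inl h1
  · right
    have h2 := h1.1 q hq hqa hqS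
    rw [oddc_shift a b x i k hik.le] at h2
    have h3 : C * (1 + Real.log M) ≤ C * (1 + Real.log (1 + |(b : ℝ)|) + Real.log M) := by
      apply mul_le_mul_of_nonneg_left _ (by linarith)
      linarith
    exact (card_inst' _ _ _ _).trans_le (h2.trans h3)

/-- **The terms of an orbit which are short sums of `S`-units are rare if `2` is not in `S`.** -/
theorem traj_all (S : Finset ℕ) (a : ℕ) (ha : a % 2 = 1) (h2S : 2 ∉ S) (r : ℕ) :
    ∃ C : ℝ, 0 < C ∧ ∀ (b x : ℤ) (n : ℕ) (M : ℝ), b % 2 = 1 → 1 ≤ M → 2 ≤ n →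
      (∀ i < n, ∀ k < n, (Tm a b)^[i] x = (Tm a b)^[k] x → i = k) →
      (((range n).filter (fun i => Short S r M ((Tm a b)^[i] x))).card : ℝ) ≤
        C * (1 + Real.log (1 + |(b : ℝ)|) + Real.log M) * (n / Real.log n) := by
  obtain ⟨C, hC, h⟩ := gap S a ha r
  refine ⟨30 * C ^ 2, by positivity, ?_⟩
  intro b x n M hb hM hn hinj
  have hlM : 0 ≤ Real.log M := Real.log_nonneg hM
  have hlb : 0 ≤ Real.log (1 + |(b : ℝ)|) := Real.log_nonneg (by linarith [abs_nonneg (b : ℝ)])
  have key := count C (1 + Real.log (1 + |(b : ℝ)|) + Real.log M) hC (by linarith)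
    (fun i => (Tm a b)^[i] x) n hn (fun _ => True) (Short S r M) hinj ?_
  · simpa only [true_and] using key
  intro i k hik hkn hO hPi hPk
  have hk : (Tm a b)^[k] x = (Tm a b)^[k - i] ((Tm a b)^[i] x) := by
    rw [← Function.iterate_add_apply]
    congr 2
    omega
  rw [hk] at hPk
  rcases h b _ (k - i) M hb hM hPi hPk with h1 | h1
  · exact Or.inl h1
  · right
    have h2 := h1.2 h2S
    simp only [filter_true, Nat.card_Ico]
    refine h2.trans ?_
    apply mul_le_mul_of_nonneg_left _ (by linarith)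
    linarith

end Pool.Agent.U773.SP
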