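import Mathlib
import Pool.Agent.U773.SP.Chain
import Pool.Agent.U773.SP.Orb

/-! The dip theorem for the maps `x ↦ x / 2`, `x ↦ (a x + b) / 2`. -/

set_option autoImplicit false

namespace Pool.Agent.U773.SP

open Finset

open scoped Classical

lemma prod_mult (a : ℕ) (b x : ℤ) (j : ℕ) :
    ∏ i ∈ range j, (if (Tm a b)^[i] x % 2 = 1 then a else 1) = a ^ (oddc a b x j) := by
  induction j with
  | zero => simp [oddc]
  | succ j ih =>
    rw [prod_range_succ, ih, oddc_succ]
    by_cases h : (Tm a b)^[j] x % 2 = 1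
    · rw [if_pos h, if_pos h, pow_succ]
    · rw [if_neg h, if_neg h, mul_one, add_zero]

/-- one step -/
lemma step_T (a : ℕ) (ha : a % 2 = 1) (b y : ℤ) (hb : b % 2 = 1) :
    ((2 : ℕ) : ℤ) * Tm a b y = ((if y % 2 = 1 then a else 1 : ℕ) : ℤ) * y +
      (if y % 2 = 1 then b else 0) := by
  unfold Tm
  rcases Int.emod_two_eq_zero_or_one y with h | h
  · rw [if_pos h, if_neg (by omega), if_neg (by omega)]
    push_cast
    omega
  · rw [if_neg (by omega), if_pos h, if_pos h]
    have h3 : (a * y + b) % 2 = 0 := by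
      rw [Int.add_emod, Int.mul_emod, h, hb]
      have : (a : ℤ) % 2 = 1 := by omega
      rw [this]
      norm_num
    push_cast
    omega

/-- **The dip theorem.** -/
theorem dip_T (S : Finset ℕ) (a : ℕ) (ha : a % 2 = 1) (r : ℕ) (ε : ℝ) (hε : 0 < ε) :
    ∃ C : ℝ, 1 ≤ C ∧ ∀ (b x : ℤ) (j : ℕ) (M : ℝ), b % 2 = 1 → 1 ≤ M → Short S r M x →
      Short S r M ((Tm a b)^[j] x) →
      (∃ i < j, |(((Tm a b)^[i] x : ℤ) : ℝ)| ≤
        C * |(b : ℝ)| * Real.exp (ε * (j + Real.log (1 + |(x : ℝ)|)))) ∨
      ((∀ q : ℕ, q.Prime → q ∣ a → q ∉ S → (oddc a b x j : ℝ) ≤ C * (1 + Real.log M)) ∧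
        (2 ∉ S → (j : ℝ) ≤ C * (1 + Real.log M))) := by
  have ha0 : a ≠ 0 := by rintro rfl; simp at ha
  obtain ⟨C, hC, h⟩ := dip S (a.primeFactors ∪ {2}) r (a + 2) ε hε
  refine ⟨C, hC, ?_⟩
  intro b x j M hb hM hx hy
  have hbR : 1 ≤ |(b : ℝ)| := by
    have : 1 ≤ |b| := Int.one_le_abs (by rintro rfl; simp at hb)
    exact_mod_cast this
  have h1 := h j (fun i => (Tm a b)^[i] x) (fun i => if (Tm a b)^[i] x % 2 = 1 then a else 1)
    (fun _ => 2) (fun i => if (Tm a b)^[i] x % 2 = 1 then b else 0) |(b : ℝ)| M hbR hM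
    (fun i _ => ⟨?_, ?_, ?_, ?_⟩) hx hy
  rotate_left
  · by_cases hi : (Tm a b)^[i] x % 2 = 1
    · simp only [if_pos hi]
      exact ⟨by omega, by omega, fun p hp hd =>
        mem_union_left _ (Nat.mem_primeFactors.2 ⟨hp, hd, ha0⟩)⟩
    · simp only [if_neg hi]
      exact ⟨le_refl 1, by omega, fun p hp hd => absurd (Nat.dvd_one.1 hd) hp.ne_one⟩
  · refine ⟨by norm_num, by omega, fun p hp hd => ?_⟩
    rw [(Nat.prime_dvd_prime_iff_eq hp Nat.prime_two).1 hd]
    exact mem_union_right _ (mem_singleton_self 2)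
  · simp only [Function.iterate_succ_apply']
    exact step_T a ha b _ hb
  · by_cases hi : (Tm a b)^[i] x % 2 = 1
    · simp only [if_pos hi]
      exact le_refl _
    · simp only [if_neg hi]
      rw [Int.cast_zero, abs_zero]
      exact abs_nonneg _
  rcases h1 with h1 | h1
  · exact Or.inl h1
  · right
    rw [prod_mult, prod_const, card_range] at h1
    have hj : (0 : ℝ) ≤ j := Nat.cast_nonneg _
    constructor
    · intro q hq hqa hqS
      have h2 := h1 q hq hqS
      have hqf : Fact q.Prime := ⟨hq⟩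
      have h3 : padicValNat q (2 ^ j) = 0 := by
        apply padicValNat.eq_zero_of_not_dvd
        intro h4
        have h5 : q = 2 := (Nat.prime_dvd_prime_iff_eq hq Nat.prime_two).1 (hq.dvd_of_dvd_pow h4)
        rw [h5] at hqa
        omega
      have h4 : 1 ≤ padicValNat q a := one_le_padicValNat_of_dvd ha0 hqa
      rw [h3, Nat.cast_zero, sub_zero, padicValNat.pow, abs_of_nonneg (Nat.cast_nonneg _)]
        at h2
      have h5 : (oddc a b x j : ℝ) * 1 ≤ (oddc a b x j : ℝ) * padicValNat q a := by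
        gcongr
        exact_mod_cast h4
      push_cast at h2
      linarith
    · intro h2S
      have h2 := h1 2 Nat.prime_two h2S
      have h3 : padicValNat 2 (a ^ oddc a b x j) = 0 := by
        apply padicValNat.eq_zero_of_not_dvd
        intro h4
        have := Nat.prime_two.dvd_of_dvd_pow h4
        omega
      rw [h3, Nat.cast_zero, zero_sub, abs_neg, padicValNat.prime_pow,
        abs_of_nonneg hj] at h2
      exact h2

/-- the number of indices in a set of odd terms whose extreme indices are close -/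
lemma card_le_of_ext (x : ℕ → ℤ) (O : ℤ → Prop) (J : Finset ℕ) (K : ℝ) (hK : 0 ≤ K)
    (hJ : ∀ i ∈ J, O (x i))
    (h : ∀ i ∈ J, ∀ k ∈ J, i < k → (∀ l ∈ J, i ≤ l ∧ l ≤ k) →
      (((Ico i k).filter (fun l => O (x l))).card : ℝ) ≤ K) : (J.card : ℝ) ≤ K + 1 := by
  rcases J.eq_empty_or_nonempty with h0 | h0
  · rw [h0, card_empty, Nat.cast_zero]
    linarith
  · obtain ⟨k, hk, hkmax⟩ := exists_max_image J id h0
    obtain ⟨i, hi, himin⟩ := exists_min_image J id h0
    simp only [id] at hkmax himin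
    rcases Nat.lt_or_ge i k with hik | hik
    · have hsub : J.erase k ⊆ (Ico i k).filter (fun l => O (x l)) := by
        intro l hl
        rw [mem_erase] at hl
        rw [mem_filter, mem_Ico]
        have h1 := hkmax l hl.2
        have h2 := himin l hl.2
        exact ⟨⟨h2, lt_of_le_of_ne h1 hl.1⟩, hJ l hl.2⟩
      have h1 := h i hi k hk hik fun l hl => ⟨himin l hl, hkmax l hl⟩
      have h2 := card_le_card hsub
      rw [card_erase_of_mem hk] at h2
      have h3 : 0 < J.card := card_pos.2 h0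
      have h4 : J.card ≤ ((Ico i k).filter (fun l => O (x l))).card + 1 := by omega
      have h5 : (J.card : ℝ) ≤ (((Ico i k).filter (fun l => O (x l))).card : ℝ) + 1 := by
        exact_mod_cast h4
      linarith
    · have h1 : J ⊆ {k} := by
        intro l hl
        rw [mem_singleton]
        have h1 := hkmax l hl
        have h2 := himin l hl
        omega
      have h2 := card_le_card h1
      rw [card_singleton] at h2
      have h3 : (J.card : ℝ) ≤ 1 := by exact_mod_cast h2
      linarith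

end Pool.Agent.U773.SP
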