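import Mathlib
import Pool.Agent.U773.SP.Height

/-! The number of short integers up to a bound. -/

set_option autoImplicit false

namespace Pool.Agent.U773.SP

open Finset Pool.Agent.TH551.SU

open scoped Classical

lemma exists_b' (P : Finset ℕ) (hP : ∀ p ∈ P, p.Prime) :
    ∃ b : Fin P.card → ℕ, (∀ v, (b v).Prime) ∧ Function.Injective b ∧
      ∀ p ∈ P, ∃ v, b v = p := by
  refine ⟨fun v => (P.equivFin.symm v : ℕ), fun v => hP _ (P.equivFin.symm v).2, ?_, ?_⟩
  · intro v w h
    exact P.equivFin.symm.injective (Subtype.ext h)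
  · intro p hp
    exact ⟨P.equivFin ⟨p, hp⟩, by simp⟩

lemma val_prod {s : ℕ} (b : Fin s → ℕ) (hb : ∀ v, (b v).Prime) (hbi : Function.Injective b)
    (e : Fin s → ℤ) (v : Fin s) (A : Finset (Fin s)) :
    padicValRat (b v) (∏ w ∈ A, (b w : ℚ) ^ (e w)) = if v ∈ A then e v else 0 := by
  have hqf : Fact (b v).Prime := ⟨hb v⟩
  have hne : ∀ w, (b w : ℚ) ≠ 0 := fun w => by exact_mod_cast (hb w).ne_zero
  induction A using Finset.induction_on with
  | empty => simp
  | insert w A hw ih =>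
    rw [Finset.prod_insert hw, padicValRat.mul (zpow_ne_zero _ (hne w))
      (Finset.prod_ne_zero_iff.2 fun w' _ => zpow_ne_zero _ (hne w')), ih]
    have h1 : padicValRat (b v) ((b w : ℚ) ^ (e w)) = e w * padicValRat (b v) (b w) :=
      padicValRat.zpow _
    rw [h1]
    by_cases hvw : v = w
    · subst hvw
      rw [padicValRat.self (hb v).one_lt, if_neg hw, if_pos (Finset.mem_insert_self _ _)]
      ring
    · have h2 : padicValRat (b v) ((b w : ℕ) : ℚ) = 0 := by
        rw [padicValRat.of_nat, Nat.cast_eq_zero]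
        apply padicValNat.eq_zero_of_not_dvd
        intro h3
        exact hvw (hbi ((Nat.prime_dvd_prime_iff_eq (hb v) (hb w)).1 h3))
      rw [h2, mul_zero, zero_add]
      have h3 : v ∈ insert w A ↔ v ∈ A := by
        rw [Finset.mem_insert]
        exact ⟨fun h => h.resolve_left hvw, Or.inr⟩
      by_cases h4 : v ∈ A
      · rw [if_pos h4, if_pos (h3.2 h4)]
      · rw [if_neg h4, if_neg (fun h => h4 (h3.1 h))]

/-- the `S`-units of height at most `exp h` lie in a small finite set -/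
lemma units_finite (S : Finset ℕ) (E : ℕ) :
    ∃ G : Finset ℚ, G.card ≤ 2 * (2 * E + 1) ^ S.card ∧
      ∀ u : ℚ, SUnit S u → Real.log (hgt u) ≤ E * Real.log 2 → u ∈ G := by
  obtain ⟨b, hb, hbi, hbP⟩ := exists_b' (S.filter Nat.Prime)
    (fun p hp => (Finset.mem_filter.1 hp).2)
  refine ⟨(({1, -1} : Finset ℤ) ×ˢ (Fintype.piFinset fun _ : Fin (S.filter Nat.Prime).card =>
    Icc (-(E : ℤ)) E)).image (fun t => (t.1 : ℚ) * ∏ v, (b v : ℚ) ^ (t.2 v)), ?_, ?_⟩
  · refine card_image_le.trans ?_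
    rw [card_product, Fintype.card_piFinset]
    simp only [Int.card_Icc, prod_const, card_univ, Fintype.card_fin]
    have h1 : ({1, -1} : Finset ℤ).card ≤ 2 := card_le_two
    have h2 : ((E : ℤ) + 1 - -(E : ℤ)).toNat = 2 * E + 1 := by omega
    rw [h2]
    have h3 : (S.filter Nat.Prime).card ≤ S.card := card_filter_le _ _
    exact Nat.mul_le_mul h1 (Nat.pow_le_pow_right (by omega) h3)
  · intro u hu hh
    have h1 : IsSU b u := hu.isSU (fun v => (hb v).ne_zero) (fun p hp hpp =>
      hbP p (Finset.mem_filter.2 ⟨hp, hpp⟩))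
    obtain ⟨σ, e, hσ, hue⟩ := h1
    rw [mem_image]
    refine ⟨(σ, e), ?_, hue.symm⟩
    rw [mem_product]
    constructor
    · rcases hσ with rfl | rfl <;> simp
    · rw [Fintype.mem_piFinset]
      intro v
      have hqf : Fact (b v).Prime := ⟨hb v⟩
      have hne : ∀ w, (b w : ℚ) ≠ 0 := fun w => by exact_mod_cast (hb w).ne_zero
      have h2 : padicValRat (b v) u = e v := by
        rw [hue]
        have hp0 : ∏ w, (b w : ℚ) ^ (e w) ≠ 0 :=
          Finset.prod_ne_zero_iff.2 fun w' _ => zpow_ne_zero _ (hne w')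
        have h3 : padicValRat (b v) ((σ : ℚ)) = 0 := by
          rcases hσ with rfl | rfl
          · simp
          · simp
        have h4 : (σ : ℚ) ≠ 0 := by rcases hσ with rfl | rfl <;> simp
        rw [padicValRat.mul h4 hp0, h3, val_prod b hb hbi e v, if_pos (mem_univ _), zero_add]
      have h3 : ((b v : ℕ) : ℝ) ^ (e v).natAbs ≤ hgt u := by
        have h4 := pow_val_le (hb v) hu.1
        rw [h2] at h4
        unfold hgt
        rcases h4 with h4 | h4
        · exact h4.trans (le_max_left _ _)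
        · refine h4.trans ?_
          refine le_trans ?_ (le_max_right _ _)
          simp
      have h4 : (2 : ℝ) ^ (e v).natAbs ≤ ((b v : ℕ) : ℝ) ^ (e v).natAbs := by
        apply pow_le_pow_left₀ (by norm_num)
        exact_mod_cast (hb v).two_le
      have h5 : Real.log ((2 : ℝ) ^ (e v).natAbs) ≤ E * Real.log 2 := by
        refine le_trans (Real.log_le_log (by positivity) (h4.trans h3)) hh
      rw [Real.log_pow] at h5
      have h6 : ((e v).natAbs : ℝ) ≤ E := le_of_mul_le_mul_right h5 (Real.log_pos (by norm_num))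
      have h7 : (e v).natAbs ≤ E := by exact_mod_cast h6
      simp only
      rw [mem_Icc]
      omega

/-- **The number of short integers.** -/
theorem num_short (S : Finset ℕ) (r : ℕ) :
    ∃ C : ℝ, 1 ≤ C ∧ ∀ (L M : ℝ), 1 ≤ L → 1 ≤ M → ∀ F : Finset ℤ,
      (∀ y ∈ F, Short S r M y ∧ Real.log |(y : ℝ)| ≤ L) →
      (F.card : ℝ) ≤ C * (M ^ r * (1 + Real.log M) ^ (r * S.card)) * L ^ (r * S.card) := by
  obtain ⟨C, hC, h⟩ := height_bound S r
  obtain ⟨c, hc⟩ : ∃ c : ℝ, c = 7 * (C + 1) := ⟨_, rfl⟩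
  have hc1 : 7 ≤ c := by rw [hc]; linarith
  refine ⟨6 ^ r * (3 * c) ^ (r * S.card), ?_, ?_⟩
  · have h1 : (1 : ℝ) ≤ 6 ^ r := one_le_pow₀ (by norm_num)
    have h2 : (1 : ℝ) ≤ (3 * c) ^ (r * S.card) := one_le_pow₀ (by linarith)
    nlinarith
  intro L M hL hM F hF
  have hlM : 0 ≤ Real.log M := Real.log_nonneg hM
  have hlog2 : (1 : ℝ) / 2 < Real.log 2 := by
    have := Real.log_two_gt_d9
    linarith
  obtain ⟨E, hE⟩ : ∃ E : ℕ, E = ⌊C * (2 + L + Real.log M) / Real.log 2⌋₊ + 1 := ⟨_, rfl⟩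
  have hEge : C * (2 + L + Real.log M) ≤ E * Real.log 2 := by
    have h1 : C * (2 + L + Real.log M) / Real.log 2 < E := by
      rw [hE]
      push_cast
      exact Nat.lt_floor_add_one _
    rw [div_lt_iff₀ (by linarith)] at h1
    exact h1.le
  have hEle : (E : ℝ) ≤ c * (L * (1 + Real.log M)) := by
    have h0 : 0 ≤ C * (2 + L + Real.log M) / Real.log 2 := by positivity
    have h1 : (E : ℝ) ≤ C * (2 + L + Real.log M) / Real.log 2 + 1 := by
      rw [hE]
      push_cast
      linarith [Nat.floor_le h0]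
    have h2 : C * (2 + L + Real.log M) / Real.log 2 ≤ 2 * (C * (2 + L + Real.log M)) := by
      rw [div_le_iff₀ (by linarith)]
      have : 0 ≤ C * (2 + L + Real.log M) := by positivity
      nlinarith
    have h3 : 2 + L + Real.log M ≤ 3 * (L * (1 + Real.log M)) := by nlinarith
    have h4 : 2 * (C * (2 + L + Real.log M)) ≤ 2 * (C * (3 * (L * (1 + Real.log M)))) := by gcongr
    have h5 : 1 ≤ L * (1 + Real.log M) := by nlinarith
    rw [hc]
    nlinarith
  obtain ⟨G, hG1, hG2⟩ := units_finite S E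
  -- representations
  have hrep : ∀ y : ℤ, ∃ t : (Fin r → ℤ) × (Fin r → ℚ), y ∈ F →
      (t ∈ (Fintype.piFinset fun _ : Fin r => Icc (-(⌊M⌋₊ : ℤ)) ⌊M⌋₊) ×ˢ
        (Fintype.piFinset fun _ : Fin r => G)) ∧ (y : ℚ) = ∑ i, (t.1 i : ℚ) * t.2 i := by
    intro y
    by_cases hy : y ∈ F
    · obtain ⟨hy1, hy2⟩ := hF y hy
      obtain ⟨a, u, ⟨ha, hu, hyu⟩, hh⟩ := h y M hM hy1
      refine ⟨(a, u), fun _ => ⟨?_, hyu⟩⟩
      rw [mem_product, Fintype.mem_piFinset, Fintype.mem_piFinset]
      constructor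
      · intro i
        have h1 := ha i
        have h2 : ((a i).natAbs : ℝ) ≤ M := by
          rw [Nat.cast_natAbs, Int.cast_abs]
          exact h1
        have h3 := Nat.le_floor h2
        simp only
        rw [mem_Icc]
        omega
      · intro i
        apply hG2 _ (hu i)
        refine (hh i).trans (le_trans ?_ hEge)
        have h1 : Real.log (1 + |(y : ℝ)|) ≤ 1 + L := by
          by_cases h0 : y = 0
          · subst h0
            simp only [Int.cast_zero, abs_zero, add_zero, Real.log_one]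
            linarith
          · have h2 : (1 : ℝ) ≤ |(y : ℝ)| := by
              have := Int.one_le_abs h0
              exact_mod_cast this
            have h3 := log_add_le (abs_nonneg _) h2 le_rfl
            linarith
        apply mul_le_mul_of_nonneg_left _ hC.le
        linarith
    · exact ⟨(0, 0), fun h => absurd h hy⟩
  choose t ht using hrep
  have h1 : F.card ≤ ((Fintype.piFinset fun _ : Fin r => Icc (-(⌊M⌋₊ : ℤ)) ⌊M⌋₊) ×ˢ
        (Fintype.piFinset fun _ : Fin r => G)).card := by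
    apply card_le_card_of_injOn t
    · intro y hy
      exact (ht y hy).1
    · intro y hy z hz hyz
      have h2 := (ht y hy).2
      have h3 := (ht z hz).2
      have h4 : (y : ℚ) = z := by rw [h2, h3, hyz]
      exact_mod_cast h4
  rw [card_product, Fintype.card_piFinset, Fintype.card_piFinset] at h1
  simp only [Int.card_Icc, prod_const, card_univ, Fintype.card_fin] at h1
  have h2 : ((⌊M⌋₊ : ℤ) + 1 - -(⌊M⌋₊ : ℤ)).toNat = 2 * ⌊M⌋₊ + 1 := by omega
  rw [h2] at h1
  have h3 : (F.card : ℝ) ≤ (2 * ⌊M⌋₊ + 1 : ℝ) ^ r * (G.card : ℝ) ^ r := by exact_mod_cast h1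
  have h4 : (2 * ⌊M⌋₊ + 1 : ℝ) ≤ 3 * M := by
    have := Nat.floor_le (by linarith : 0 ≤ M)
    linarith
  have hX : 1 ≤ L * (1 + Real.log M) := by nlinarith
  have h5 : (G.card : ℝ) ≤ 2 * (3 * c * (L * (1 + Real.log M))) ^ S.card := by
    have h6 : (G.card : ℝ) ≤ 2 * (2 * E + 1) ^ S.card := by exact_mod_cast hG1
    refine h6.trans ?_
    have h7 : (2 * (E : ℝ) + 1) ≤ 3 * c * (L * (1 + Real.log M)) := by nlinarith
    gcongr
  calc (F.card : ℝ) ≤ (2 * ⌊M⌋₊ + 1 : ℝ) ^ r * (G.card : ℝ) ^ r := h3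
    _ ≤ (3 * M) ^ r * (2 * (3 * c * (L * (1 + Real.log M))) ^ S.card) ^ r := by gcongr
    _ = 6 ^ r * (3 * c) ^ (r * S.card) * (M ^ r * (1 + Real.log M) ^ (r * S.card)) *
        L ^ (r * S.card) := by
      have e6 : (6 : ℝ) ^ r = 3 ^ r * 2 ^ r := by rw [← mul_pow]; norm_num
      rw [e6, mul_comm r S.card]
      simp only [mul_pow, pow_mul]
      ring

end Pool.Agent.U773.SP
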