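import Mathlib
import Pool.Agent.U773.SP.Orb
import Pool.Agent.U773.SP.Count2
import Pool.Agent.U773.SP.Units

/-! Short sums of `S`-units in the orbits of the maps `x ↦ x / 2`, `x ↦ (a x + b) / 2`: the
count. -/

set_option autoImplicit false

namespace Pool.Agent.U773.SP

open Finset

open scoped Classical

lemma const_le (κ : ℕ) (C K D : ℝ) (hC : 1 ≤ C) (hK : 1 ≤ K) (hD : 0 ≤ D) :
    4 * C * K + D * (3 * C * K) ^ κ ≤ (4 * C + (3 * C) ^ κ) * (K + D * K ^ κ) := by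
  rw [mul_pow]
  have h1 : 0 ≤ (3 * C) ^ κ * K := by positivity
  have h2 : 0 ≤ 4 * C * (D * K ^ κ) := by positivity
  nlinarith

/-- **The odd terms of an orbit with a property `P` of short integers are rare.** -/
theorem traj_odd' (S : Finset ℕ) (a : ℕ) (ha : a % 2 = 1) (q : ℕ) (hq : q.Prime) (hqa : q ∣ a)
    (hqS : q ∉ S) (r κ : ℕ) :
    ∃ C : ℝ, 1 ≤ C ∧ ∀ (b x : ℤ) (n : ℕ) (M D : ℝ) (P : ℤ → Prop), b % 2 = 1 → 1 ≤ M → 1 ≤ n →
      0 ≤ D → (∀ y, P y → Short S r M y) →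
      (∀ L : ℝ, 1 ≤ L → ∀ F : Finset ℤ, (∀ y ∈ F, P y ∧ Real.log |(y : ℝ)| ≤ L) →
        (F.card : ℝ) ≤ D * L ^ κ) →
      (∀ i < n, ∀ k < n, (Tm a b)^[i] x = (Tm a b)^[k] x → i = k) →
      (((range n).filter (fun i => (Tm a b)^[i] x % 2 = 1 ∧ P ((Tm a b)^[i] x))).card : ℝ) ≤
        C * ((1 + Real.log (1 + |(b : ℝ)|) + Real.log M) +
          D * (1 + Real.log (1 + |(b : ℝ)|) + Real.log M) ^ κ) *
          (n : ℝ) ^ ((κ : ℝ) / (κ + 1)) := by
  obtain ⟨C, hC, h⟩ := gap S a ha r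
  have hp : 0 ≤ (3 * C) ^ κ := by positivity
  refine ⟨4 * C + (3 * C) ^ κ, by linarith, ?_⟩
  intro b x n M D P hb hM hn hD hP hN hinj
  have hlM : 0 ≤ Real.log M := Real.log_nonneg hM
  have hlb : 0 ≤ Real.log (1 + |(b : ℝ)|) := Real.log_nonneg (by linarith [abs_nonneg (b : ℝ)])
  have key := count_pow κ C (1 + Real.log (1 + |(b : ℝ)|) + Real.log M) D hC (by linarith) hD
    (fun i => (Tm a b)^[i] x) n hn (fun y => y % 2 = 1) P hinj hN ?_
  · refine ((card_inst' _ _ _ _).trans_le key).trans ?_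
    exact mul_le_mul_of_nonneg_right (const_le κ C _ D hC (by linarith) hD) (by positivity)
  intro i k hik hkn hO hPi hPk
  have hk : (Tm a b)^[k] x = (Tm a b)^[k - i] ((Tm a b)^[i] x) := by
    rw [← Function.iterate_add_apply]
    congr 2
    omega
  rw [hk] at hPk
  rcases h b _ (k - i) M hb hM (hP _ hPi) (hP _ hPk) with h1 | h1
  · exact Or.inl h1
  · right
    have h2 := h1.1 q hq hqa hqS
    rw [oddc_shift a b x i k hik.le] at h2
    have h3 : C * (1 + Real.log M) ≤ C * (1 + Real.log (1 + |(b : ℝ)|) + Real.log M) := by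
      apply mul_le_mul_of_nonneg_left _ (by linarith)
      linarith
    exact (card_inst' _ _ _ _).trans_le (h2.trans h3)

/-- **The terms of an orbit with a property `P` of short integers are rare if `2` is not in
`S`.** -/
theorem traj_all' (S : Finset ℕ) (a : ℕ) (ha : a % 2 = 1) (h2S : 2 ∉ S) (r κ : ℕ) :
    ∃ C : ℝ, 1 ≤ C ∧ ∀ (b x : ℤ) (n : ℕ) (M D : ℝ) (P : ℤ → Prop), b % 2 = 1 → 1 ≤ M → 1 ≤ n →
      0 ≤ D → (∀ y, P y → Short S r M y) →
      (∀ L : ℝ, 1 ≤ L → ∀ F : Finset ℤ, (∀ y ∈ F, P y ∧ Real.log |(y : ℝ)| ≤ L) →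
        (F.card : ℝ) ≤ D * L ^ κ) →
      (∀ i < n, ∀ k < n, (Tm a b)^[i] x = (Tm a b)^[k] x → i = k) →
      (((range n).filter (fun i => P ((Tm a b)^[i] x))).card : ℝ) ≤
        C * ((1 + Real.log (1 + |(b : ℝ)|) + Real.log M) +
          D * (1 + Real.log (1 + |(b : ℝ)|) + Real.log M) ^ κ) *
          (n : ℝ) ^ ((κ : ℝ) / (κ + 1)) := by
  obtain ⟨C, hC, h⟩ := gap S a ha r
  have hp : 0 ≤ (3 * C) ^ κ := by positivity
  refine ⟨4 * C + (3 * C) ^ κ, by linarith, ?_⟩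
  intro b x n M D P hb hM hn hD hP hN hinj
  have hlM : 0 ≤ Real.log M := Real.log_nonneg hM
  have hlb : 0 ≤ Real.log (1 + |(b : ℝ)|) := Real.log_nonneg (by linarith [abs_nonneg (b : ℝ)])
  have key := count_pow κ C (1 + Real.log (1 + |(b : ℝ)|) + Real.log M) D hC (by linarith) hD
    (fun i => (Tm a b)^[i] x) n hn (fun _ => True) P hinj hN ?_
  · simp only [true_and] at key
    refine ((card_inst' _ _ _ _).trans_le key).trans ?_
    exact mul_le_mul_of_nonneg_right (const_le κ C _ D hC (by linarith) hD) (by positivity)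
  intro i k hik hkn hO hPi hPk
  have hk : (Tm a b)^[k] x = (Tm a b)^[k - i] ((Tm a b)^[i] x) := by
    rw [← Function.iterate_add_apply]
    congr 2
    omega
  rw [hk] at hPk
  rcases h b _ (k - i) M hb hM (hP _ hPi) (hP _ hPk) with h1 | h1
  · exact Or.inl h1
  · right
    have h2 := h1.2 h2S
    simp only [filter_true, Nat.card_Ico]
    refine h2.trans ?_
    apply mul_le_mul_of_nonneg_left _ (by linarith)
    linarith

lemma log_pow_le (m : ℕ) {M : ℝ} (hM : 1 ≤ M) :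
    (1 + Real.log M) ^ m ≤ (m.factorial * Real.exp 1) * M := by
  have h0 : 0 ≤ 1 + Real.log M := by
    have := Real.log_nonneg hM
    linarith
  have h1 := Real.pow_div_factorial_le_exp _ h0 m
  rw [Real.exp_add, Real.exp_log (by linarith), div_le_iff₀ (by positivity)] at h1
  linarith

/-- the constant for short integers -/
lemma const_short (r κ : ℕ) (C₁ C₂ B : ℝ) (h1 : 1 ≤ C₁) (h2 : 1 ≤ C₂) (hB : 1 ≤ B) :
    ∃ C : ℝ, 0 < C ∧ ∀ M K : ℝ, 1 ≤ M → 1 ≤ K → K ≤ B * (1 + Real.log M) →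
      C₁ * (K + C₂ * (M ^ r * (1 + Real.log M) ^ κ) * K ^ κ) ≤ C * M ^ (r + 1) := by
  refine ⟨C₁ * (B * ((1 : ℕ).factorial * Real.exp 1) +
    C₂ * (B ^ κ * ((2 * κ).factorial * Real.exp 1))), ?_, ?_⟩
  · positivity
  intro M K hM hK1 hK
  have hlM : 0 ≤ Real.log M := Real.log_nonneg hM
  have e1 := log_pow_le 1 hM
  have e2 := log_pow_le (2 * κ) hM
  rw [pow_one] at e1
  have hMr : 1 ≤ M ^ r := one_le_pow₀ hM
  have e3 : K ≤ B * ((1 : ℕ).factorial * Real.exp 1) * M ^ (r + 1) := by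
    calc K ≤ B * (1 + Real.log M) := hK
      _ ≤ B * (((1 : ℕ).factorial * Real.exp 1) * M) := by gcongr
      _ = (B * ((1 : ℕ).factorial * Real.exp 1) * M) * 1 := by ring
      _ ≤ (B * ((1 : ℕ).factorial * Real.exp 1) * M) * M ^ r := by gcongr
      _ = _ := by ring
  have e4 : C₂ * (M ^ r * (1 + Real.log M) ^ κ) * K ^ κ ≤
      C₂ * (B ^ κ * ((2 * κ).factorial * Real.exp 1)) * M ^ (r + 1) := by
    calc C₂ * (M ^ r * (1 + Real.log M) ^ κ) * K ^ κ
        ≤ C₂ * (M ^ r * (1 + Real.log M) ^ κ) * (B * (1 + Real.log M)) ^ κ := by gcongr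
      _ = C₂ * (B ^ κ * (M ^ r * (1 + Real.log M) ^ (2 * κ))) := by
        rw [mul_pow, two_mul, pow_add]; ring
      _ ≤ C₂ * (B ^ κ * (M ^ r * (((2 * κ).factorial * Real.exp 1) * M))) := by gcongr
      _ = _ := by ring
  calc C₁ * (K + C₂ * (M ^ r * (1 + Real.log M) ^ κ) * K ^ κ)
      ≤ C₁ * (B * ((1 : ℕ).factorial * Real.exp 1) * M ^ (r + 1) +
        C₂ * (B ^ κ * ((2 * κ).factorial * Real.exp 1)) * M ^ (r + 1)) := by gcongr
    _ = _ := by ring

end Pool.Agent.U773.SP
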