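import Mathlib
import Pool.Agent.U773.SP.Chain
import Pool.Agent.U773.SP.Count2
import Pool.Agent.U773.SP.Units
import Pool.Agent.U773.SP.Orb2
import Pool.Agent.U773.SP.DipT

/-! Chains of affine maps with bounded multipliers: generic consequences of the dip theorem. -/

set_option autoImplicit false

namespace Pool.Agent.U773.SP

open Finset

open scoped Classical

/-- `x` is a chain: `d i * x (i+1) = m i * x i + ρ i` for `i < n`, where the `m i`, `d i` are at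
most `K` and composed of the primes of `P` and `|ρ i| ≤ R` -/
def IsChain (P : Finset ℕ) (K : ℕ) (R : ℝ) (n : ℕ) (x : ℕ → ℤ) (m d : ℕ → ℕ) (ρ : ℕ → ℤ) : Prop :=
  ∀ i < n, (1 ≤ m i ∧ m i ≤ K ∧ ∀ p : ℕ, p.Prime → p ∣ m i → p ∈ P) ∧
    (1 ≤ d i ∧ d i ≤ K ∧ ∀ p : ℕ, p.Prime → p ∣ d i → p ∈ P) ∧
    (d i : ℤ) * x (i + 1) = (m i : ℤ) * x i + ρ i ∧ |(ρ i : ℝ)| ≤ R

/-- the multipliers of the steps `i, …, k - 1` balance at the primes outside `S` up to `T` -/
def Bal (S : Finset ℕ) (m d : ℕ → ℕ) (i k : ℕ) (T : ℝ) : Prop :=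
  ∀ q : ℕ, q.Prime → q ∉ S →
    |(padicValNat q (∏ l ∈ Ico i k, m l) : ℝ) - padicValNat q (∏ l ∈ Ico i k, d l)| ≤ T

lemma Bal.mono {S : Finset ℕ} {m d : ℕ → ℕ} {i k : ℕ} {T T' : ℝ} (h : Bal S m d i k T)
    (hT : T ≤ T') : Bal S m d i k T' := fun q hq hqS => (h q hq hqS).trans hT

lemma prod_shift (f : ℕ → ℕ) (i k : ℕ) (_ : i ≤ k) :
    ∏ l ∈ range (k - i), f (i + l) = ∏ l ∈ Ico i k, f l := by
  rw [Finset.prod_Ico_eq_prod_range]

lemma chain_shift {P : Finset ℕ} {K : ℕ} {R : ℝ} {n : ℕ} {x : ℕ → ℤ} {m d : ℕ → ℕ} {ρ : ℕ → ℤ}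
    (h : IsChain P K R n x m d ρ) {i k : ℕ} (hk : k ≤ n) :
    IsChain P K R (k - i) (fun l => x (i + l)) (fun l => m (i + l)) (fun l => d (i + l))
      (fun l => ρ (i + l)) := by
  intro l hl
  exact h (i + l) (by omega)

/-- the growth of a chain -/
lemma chain_growth {P : Finset ℕ} {K : ℕ} {R : ℝ} (hR : 1 ≤ R) {n : ℕ} {x : ℕ → ℤ} {m d : ℕ → ℕ}
    {ρ : ℕ → ℤ} (h : IsChain P K R n x m d ρ) (i : ℕ) (hi : i ≤ n) :
    Real.log (1 + |(x i : ℝ)|) ≤ i * Real.log ((K : ℝ) + 1) + Real.log (1 + |(x 0 : ℝ)|) +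
      Real.log (1 + R) := by
  have key : ∀ i ≤ n, |(x i : ℝ)| + R ≤ ((K : ℝ) + 1) ^ i * (|(x 0 : ℝ)| + R) := by
    intro i
    induction i with
    | zero => intro _; simp
    | succ i ih =>
      intro hi
      have h1 := ih (by omega)
      obtain ⟨⟨hm1, hmK, -⟩, ⟨hd1, -, -⟩, he, hρ⟩ := h i (by omega)
      have e1 : (d i : ℝ) * x (i + 1) = (m i : ℝ) * x i + ρ i := by exact_mod_cast he
      have e2 : |(x (i + 1) : ℝ)| ≤ (d i : ℝ) * |(x (i + 1) : ℝ)| := by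
        have : (1 : ℝ) ≤ d i := by exact_mod_cast hd1
        have := abs_nonneg (x (i + 1) : ℝ)
        nlinarith
      have e3 : (d i : ℝ) * |(x (i + 1) : ℝ)| ≤ (K : ℝ) * |(x i : ℝ)| + R := by
        calc (d i : ℝ) * |(x (i + 1) : ℝ)| = |(m i : ℝ) * x i + ρ i| := by
              rw [← e1, abs_mul, abs_of_nonneg (Nat.cast_nonneg (d i) : (0 : ℝ) ≤ (d i : ℝ))]
          _ ≤ |(m i : ℝ) * x i| + |(ρ i : ℝ)| := abs_add_le _ _
          _ = (m i : ℝ) * |(x i : ℝ)| + |(ρ i : ℝ)| := by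
              rw [abs_mul, abs_of_nonneg (Nat.cast_nonneg (m i) : (0 : ℝ) ≤ (m i : ℝ))]
          _ ≤ _ := by
            have : (m i : ℝ) ≤ K := by exact_mod_cast hmK
            gcongr
      have hK1 : (1 : ℝ) ≤ K := by exact_mod_cast hm1.trans hmK
      calc |(x (i + 1) : ℝ)| + R ≤ (K : ℝ) * |(x i : ℝ)| + R + R := by linarith
        _ ≤ ((K : ℝ) + 1) * (|(x i : ℝ)| + R) := by
          have := abs_nonneg (x i : ℝ)
          nlinarith
        _ ≤ ((K : ℝ) + 1) * (((K : ℝ) + 1) ^ i * (|(x 0 : ℝ)| + R)) := by gcongr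
        _ = _ := by rw [pow_succ]; ring
  have hk := key i hi
  have hK0 : (0 : ℝ) ≤ K := Nat.cast_nonneg _
  have h2 : 1 + |(x i : ℝ)| ≤ ((K : ℝ) + 1) ^ i * ((1 + |(x 0 : ℝ)|) * (1 + R)) := by
    have h3 : |(x 0 : ℝ)| + R ≤ (1 + |(x 0 : ℝ)|) * (1 + R) := by
      have := abs_nonneg (x 0 : ℝ)
      nlinarith
    calc 1 + |(x i : ℝ)| ≤ |(x i : ℝ)| + R := by linarith
      _ ≤ ((K : ℝ) + 1) ^ i * (|(x 0 : ℝ)| + R) := hk
      _ ≤ _ := by gcongr
  have h4 := Real.log_le_log (by positivity) h2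
  rw [Real.log_mul (by positivity) (by positivity), Real.log_pow,
    Real.log_mul (by positivity) (by positivity)] at h4
  linarith

/-- a chain does not decrease faster than by the factor `K` -/
lemma chain_decay {P : Finset ℕ} {K : ℕ} {R : ℝ} (hR : 1 ≤ R) {n : ℕ} {x : ℕ → ℤ} {m d : ℕ → ℕ}
    {ρ : ℕ → ℤ} (h : IsChain P K R n x m d ρ) (i : ℕ) (hi : i ≤ n) :
    |(x 0 : ℝ)| + R ≤ ((K : ℝ) + 1) ^ i * (|(x i : ℝ)| + R) := by
  induction i with
  | zero => simp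
  | succ i ih =>
    have h1 := ih (by omega)
    obtain ⟨⟨hm1, hmK, -⟩, ⟨hd1, hdK, -⟩, he, hρ⟩ := h i (by omega)
    have e1 : (d i : ℝ) * x (i + 1) = (m i : ℝ) * x i + ρ i := by exact_mod_cast he
    have e2 : |(x i : ℝ)| ≤ (K : ℝ) * |(x (i + 1) : ℝ)| + R := by
      calc |(x i : ℝ)| ≤ (m i : ℝ) * |(x i : ℝ)| := by
            have : (1 : ℝ) ≤ m i := by exact_mod_cast hm1
            have := abs_nonneg (x i : ℝ)
            nlinarith
        _ = |(d i : ℝ) * x (i + 1) - ρ i| := by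
            rw [e1]
            rw [add_sub_cancel_right, abs_mul,
              abs_of_nonneg (Nat.cast_nonneg (m i) : (0 : ℝ) ≤ (m i : ℝ))]
        _ ≤ |(d i : ℝ) * x (i + 1)| + |(ρ i : ℝ)| := abs_sub _ _
        _ = (d i : ℝ) * |(x (i + 1) : ℝ)| + |(ρ i : ℝ)| := by
            rw [abs_mul, abs_of_nonneg (Nat.cast_nonneg (d i) : (0 : ℝ) ≤ (d i : ℝ))]
        _ ≤ _ := by
            have : (d i : ℝ) ≤ K := by exact_mod_cast hdK
            gcongr
    have hK1 : (1 : ℝ) ≤ K := by exact_mod_cast hm1.trans hmK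
    calc |(x 0 : ℝ)| + R ≤ ((K : ℝ) + 1) ^ i * (|(x i : ℝ)| + R) := h1
      _ ≤ ((K : ℝ) + 1) ^ i * (((K : ℝ) + 1) * (|(x (i + 1) : ℝ)| + R)) := by
        gcongr
        have := abs_nonneg (x (i + 1) : ℝ)
        nlinarith
      _ = _ := by rw [pow_succ]; ring

/-- **The dip theorem for the terms `i < k` of a chain.** -/
theorem gen_dip (S P : Finset ℕ) (r K : ℕ) (ε : ℝ) (hε : 0 < ε) :
    ∃ C : ℝ, 1 ≤ C ∧ ∀ (n : ℕ) (x : ℕ → ℤ) (m d : ℕ → ℕ) (ρ : ℕ → ℤ) (R M : ℝ), 1 ≤ R → 1 ≤ M →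
      IsChain P K R n x m d ρ → ∀ i k : ℕ, i ≤ k → k ≤ n → Short S r M (x i) →
      Short S r M (x k) →
      (∃ l, i ≤ l ∧ l < k ∧ |(x l : ℝ)| ≤
        C * R * Real.exp (ε * ((k - i : ℕ) + Real.log (1 + |(x i : ℝ)|)))) ∨
      Bal S m d i k (C * (1 + Real.log M)) := by
  obtain ⟨C, hC, h⟩ := dip S P r K ε hε
  refine ⟨C, hC, ?_⟩
  intro n x m d ρ R M hR hM hch i k hik hkn hi hk
  have h1 := h (k - i) (fun l => x (i + l)) (fun l => m (i + l)) (fun l => d (i + l))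
    (fun l => ρ (i + l)) R M hR hM (chain_shift hch hkn) (by simpa using hi) (by
      have : i + (k - i) = k := by omega
      simp only [this]
      exact hk)
  rcases h1 with ⟨l, hl, h2⟩ | h1
  · left
    exact ⟨i + l, by omega, by omega, by simpa using h2⟩
  · right
    intro q hq hqS
    have h2 := h1 q hq hqS
    rwa [prod_shift m i k hik, prod_shift d i k hik] at h2

/-- **Windows in which a chain stays large.** -/
theorem gen_window (S P : Finset ℕ) (r K : ℕ) (ε : ℝ) (hε : 0 < ε) :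
    ∃ C : ℝ, 1 ≤ C ∧ ∀ (n : ℕ) (x : ℕ → ℤ) (m d : ℕ → ℕ) (ρ : ℕ → ℤ) (R M : ℝ), 1 ≤ R → 1 ≤ M →
      IsChain P K R n x m d ρ → ∀ i k : ℕ, i ≤ k → k ≤ n → Short S r M (x i) →
      Short S r M (x k) →
      (∀ l, i ≤ l → l < k →
        C * R * Real.exp (ε * (n + Real.log (1 + |(x 0 : ℝ)|) + Real.log (1 + R))) <
          |(x l : ℝ)|) →
      Bal S m d i k (C * (1 + Real.log M)) := by
  have hlK : 0 ≤ Real.log ((K : ℝ) + 1) := Real.log_nonneg (by
    have : (0 : ℝ) ≤ K := Nat.cast_nonneg _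
    linarith)
  obtain ⟨C, hC, h⟩ := gen_dip S P r K (ε / (Real.log ((K : ℝ) + 1) + 1)) (by positivity)
  refine ⟨C, hC, ?_⟩
  intro n x m d ρ R M hR hM hch i k hik hkn hi hk hbig
  rcases h n x m d ρ R M hR hM hch i k hik hkn hi hk with ⟨l, hil, hlk, h1⟩ | h1
  · exfalso
    have h2 := hbig l hil hlk
    have h3 := chain_growth hR hch i (hik.trans hkn)
    have h4 : C * R * Real.exp (ε / (Real.log ((K : ℝ) + 1) + 1) *
        ((k - i : ℕ) + Real.log (1 + |(x i : ℝ)|))) ≤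
        C * R * Real.exp (ε * (n + Real.log (1 + |(x 0 : ℝ)|) + Real.log (1 + R))) := by
      apply mul_le_mul_of_nonneg_left _ (by positivity)
      rw [Real.exp_le_exp, div_mul_eq_mul_div, div_le_iff₀ (by positivity)]
      have hX : 0 ≤ Real.log (1 + |(x 0 : ℝ)|) :=
        Real.log_nonneg (by linarith [abs_nonneg (x 0 : ℝ)])
      have hlR : 0 ≤ Real.log (1 + R) := Real.log_nonneg (by linarith)
      have e1 : ((k - i : ℕ) : ℝ) + i ≤ n := by exact_mod_cast (by omega : k - i + i ≤ n)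
      have e2 : (i : ℝ) ≤ n := by exact_mod_cast hik.trans hkn
      have e3 : ((k - i : ℕ) : ℝ) ≤ n := by exact_mod_cast (by omega : k - i ≤ n)
      calc ε * ((k - i : ℕ) + Real.log (1 + |(x i : ℝ)|))
          ≤ ε * (n + (n * Real.log ((K : ℝ) + 1) + Real.log (1 + |(x 0 : ℝ)|) +
              Real.log (1 + R))) := by
            gcongr
            refine h3.trans ?_
            gcongr
        _ ≤ ε * (n + Real.log (1 + |(x 0 : ℝ)|) + Real.log (1 + R)) *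
            (Real.log ((K : ℝ) + 1) + 1) := by
          have e4 : 0 ≤ Real.log (1 + |(x 0 : ℝ)|) * Real.log ((K : ℝ) + 1) := by positivity
          have e5 : 0 ≤ Real.log (1 + R) * Real.log ((K : ℝ) + 1) := by positivity
          rw [mul_assoc]
          apply mul_le_mul_of_nonneg_left _ hε.le
          nlinarith
    linarith
  · exact h1

/-- **The gap law for chains.** -/
theorem gen_gap (S P : Finset ℕ) (r K : ℕ) :
    ∃ C : ℝ, 1 ≤ C ∧ ∀ (n : ℕ) (x : ℕ → ℤ) (m d : ℕ → ℕ) (ρ : ℕ → ℤ) (R M : ℝ), 1 ≤ R → 1 ≤ M →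
      IsChain P K R n x m d ρ → ∀ i k : ℕ, i ≤ k → k ≤ n → Short S r M (x i) →
      Short S r M (x k) →
      Real.log |(x i : ℝ)| ≤ C * ((k - i : ℕ) + (1 + Real.log R)) ∨
      Bal S m d i k (C * (1 + Real.log M)) := by
  have hlK : 0 ≤ Real.log ((K : ℝ) + 1) := Real.log_nonneg (by
    have : (0 : ℝ) ≤ K := Nat.cast_nonneg _
    linarith)
  obtain ⟨C, hC, h⟩ := gen_dip S P r K (1 / 2) (by norm_num)
  have hlC : 0 ≤ Real.log (C + 1) := Real.log_nonneg (by linarith)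
  refine ⟨C + (2 * Real.log ((K : ℝ) + 1) + 2 * Real.log (C + 1) + 3), by linarith, ?_⟩
  intro n x m d ρ R M hR hM hch i k hik hkn hi hk
  have hlR : 0 ≤ Real.log R := Real.log_nonneg hR
  have hlM : 0 ≤ Real.log M := Real.log_nonneg hM
  rcases h n x m d ρ R M hR hM hch i k hik hkn hi hk with ⟨l, hil, hlk, h1⟩ | h1
  · left
    by_cases hxi : x i = 0
    · rw [hxi, Int.cast_zero, abs_zero, Real.log_zero]
      positivity
    have hx1 : (1 : ℝ) ≤ |(x i : ℝ)| := by exact_mod_cast Int.one_le_abs hxi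
    have h2 := chain_decay hR (chain_shift hch (i := i) hkn) (l - i) (by omega)
    simp only [add_zero] at h2
    have e0 : i + (l - i) = l := by omega
    rw [e0] at h2
    obtain ⟨j, hj⟩ : ∃ j : ℕ, j = k - i := ⟨_, rfl⟩
    rw [← hj] at h1 ⊢
    obtain ⟨E, hE⟩ : ∃ E : ℝ, E = Real.exp (1 / 2 * (j + Real.log (1 + |(x i : ℝ)|))) := ⟨_, rfl⟩
    have hX : 0 ≤ Real.log (1 + |(x i : ℝ)|) := Real.log_nonneg (by linarith)
    have hE1 : 1 ≤ E := by rw [hE]; exact Real.one_le_exp (by positivity)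
    rw [← hE] at h1
    have hK0 : (0 : ℝ) ≤ K := Nat.cast_nonneg _
    have h3 : 1 + |(x i : ℝ)| ≤ ((K : ℝ) + 1) ^ j * ((C + 1) * R * E) := by
      calc 1 + |(x i : ℝ)| ≤ |(x i : ℝ)| + R := by linarith
        _ ≤ ((K : ℝ) + 1) ^ (l - i) * (|(x l : ℝ)| + R) := h2
        _ ≤ ((K : ℝ) + 1) ^ j * (C * R * E + R * E) := by
          gcongr
          · linarith
          · omega
          · nlinarith
        _ = _ := by ring
    have h4 := Real.log_le_log (by positivity) h3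
    rw [Real.log_mul (by positivity) (by positivity), Real.log_pow,
      Real.log_mul (by positivity) (by positivity), Real.log_mul (by positivity) (by linarith)]
      at h4
    have h5 : Real.log E = 1 / 2 * (j + Real.log (1 + |(x i : ℝ)|)) := by rw [hE, Real.log_exp]
    rw [h5] at h4
    have h6 : Real.log |(x i : ℝ)| ≤ Real.log (1 + |(x i : ℝ)|) :=
      Real.log_le_log (by linarith) (by linarith)
    have hj0 : (0 : ℝ) ≤ j := Nat.cast_nonneg _
    have h7 : Real.log (1 + |(x i : ℝ)|) ≤ 2 * (j * Real.log ((K : ℝ) + 1)) +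
        2 * Real.log (C + 1) + 2 * Real.log R + j := by linarith
    refine h6.trans (h7.trans ?_)
    have e1 : 0 ≤ Real.log ((K : ℝ) + 1) * (1 + Real.log R) := by positivity
    have e2 : 0 ≤ Real.log (C + 1) * (j + Real.log R) := by positivity
    have e3 : 0 ≤ C * (j + (1 + Real.log R)) := by positivity
    nlinarith
  · right
    refine h1.mono ?_
    apply mul_le_mul_of_nonneg_right _ (by linarith)
    linarith

/-- if a prime `q` outside `S` divides all `d l` and no `m l`, balanced steps are few -/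
lemma Bal.all {S : Finset ℕ} {m d : ℕ → ℕ} {i k : ℕ} {T : ℝ} (h : Bal S m d i k T) {q : ℕ}
    (hq : q.Prime) (hqS : q ∉ S) (hm0 : ∀ l, i ≤ l → l < k → m l ≠ 0 ∧ ¬ q ∣ m l)
    (hd0 : ∀ l, i ≤ l → l < k → d l ≠ 0 ∧ q ∣ d l) : ((k - i : ℕ) : ℝ) ≤ T := by
  have hqf : Fact q.Prime := ⟨hq⟩
  have h1 := h q hq hqS
  have h2 : padicValNat q (∏ l ∈ Ico i k, m l) = 0 := by
    apply padicValNat.eq_zero_of_not_dvd
    intro h3
    obtain ⟨l, hl, h4⟩ := (hq.prime.dvd_finsetProd_iff _).1 h3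
    rw [mem_Ico] at hl
    exact (hm0 l hl.1 hl.2).2 h4
  have h3 : k - i ≤ padicValNat q (∏ l ∈ Ico i k, d l) := by
    rw [← padicValNat_dvd_iff_le (by
      refine prod_ne_zero_iff.2 fun l hl => ?_
      rw [mem_Ico] at hl
      exact (hd0 l hl.1 hl.2).1)]
    calc q ^ (k - i) = ∏ l ∈ Ico i k, q := by rw [prod_const, Nat.card_Ico]
      _ ∣ _ := prod_dvd_prod_of_dvd _ _ fun l hl => by
        rw [mem_Ico] at hl
        exact (hd0 l hl.1 hl.2).2
  rw [h2, Nat.cast_zero, zero_sub, abs_neg, abs_of_nonneg (Nat.cast_nonneg _)] at h1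
  have h4 : ((k - i : ℕ) : ℝ) ≤ padicValNat q (∏ l ∈ Ico i k, d l) := by exact_mod_cast h3
  linarith

/-- if a prime `q` outside `S` divides no `d l` and all `m l` with `l` marked, the marked steps are
few in balanced chains -/
lemma Bal.marked {S : Finset ℕ} {m d : ℕ → ℕ} {i k : ℕ} {T : ℝ} (h : Bal S m d i k T) {q : ℕ}
    (hq : q.Prime) (hqS : q ∉ S) (O : ℕ → Prop)
    (hm0 : ∀ l, i ≤ l → l < k → m l ≠ 0 ∧ (O l → q ∣ m l))
    (hd0 : ∀ l, i ≤ l → l < k → d l ≠ 0 ∧ ¬ q ∣ d l) :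
    (((Ico i k).filter O).card : ℝ) ≤ T := by
  have hqf : Fact q.Prime := ⟨hq⟩
  have h1 := h q hq hqS
  have h2 : padicValNat q (∏ l ∈ Ico i k, d l) = 0 := by
    apply padicValNat.eq_zero_of_not_dvd
    intro h3
    obtain ⟨l, hl, h4⟩ := (hq.prime.dvd_finsetProd_iff _).1 h3
    rw [mem_Ico] at hl
    exact (hd0 l hl.1 hl.2).2 h4
  have h3 : ((Ico i k).filter O).card ≤ padicValNat q (∏ l ∈ Ico i k, m l) := by
    rw [← padicValNat_dvd_iff_le (by
      refine prod_ne_zero_iff.2 fun l hl => ?_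
      rw [mem_Ico] at hl
      exact (hm0 l hl.1 hl.2).1)]
    calc q ^ ((Ico i k).filter O).card = ∏ l ∈ (Ico i k).filter O, q := by rw [prod_const]
      _ ∣ ∏ l ∈ (Ico i k).filter O, m l := prod_dvd_prod_of_dvd _ _ fun l hl => by
        rw [mem_filter, mem_Ico] at hl
        exact (hm0 l hl.1.1 hl.1.2).2 hl.2
      _ ∣ _ := prod_dvd_prod_of_subset _ _ _ (filter_subset _ _)
  rw [h2, Nat.cast_zero, sub_zero, abs_of_nonneg (Nat.cast_nonneg _)] at h1
  have h4 : (((Ico i k).filter O).card : ℝ) ≤ padicValNat q (∏ l ∈ Ico i k, m l) := by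
    exact_mod_cast h3
  linarith

/-- the constant for short integers and a parameter `R` -/
lemma const_short' (r κ : ℕ) (C₁ C₂ : ℝ) (h1 : 1 ≤ C₁) (h2 : 1 ≤ C₂) :
    ∃ C : ℝ, 1 ≤ C ∧ ∀ M R : ℝ, 1 ≤ M → 1 ≤ R →
      4 * C₁ * ((1 + Real.log R) + (1 + Real.log M)) +
        C₂ * (M ^ r * (1 + Real.log M) ^ κ) *
          (3 * C₁ * ((1 + Real.log R) + (1 + Real.log M))) ^ κ ≤
        C * M ^ (r + 1) * (1 + Real.log R) ^ (κ + 1) := by
  refine ⟨8 * C₁ * ((1 : ℕ).factorial * Real.exp 1) +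
    C₂ * (6 * C₁) ^ κ * ((2 * κ).factorial * Real.exp 1), ?_, ?_⟩
  · have e1 : 1 ≤ Real.exp 1 := Real.one_le_exp (by norm_num)
    have e2 : 0 ≤ C₂ * (6 * C₁) ^ κ * ((2 * κ).factorial * Real.exp 1) := by positivity
    have e3 : (1 : ℝ) ≤ 8 * C₁ * ((1 : ℕ).factorial * Real.exp 1) := by
      rw [Nat.factorial_one, Nat.cast_one, one_mul]
      nlinarith
    linarith
  intro M R hM hR
  have hlM : 0 ≤ Real.log M := Real.log_nonneg hM
  have hlR : 0 ≤ Real.log R := Real.log_nonneg hR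
  have hMr : 1 ≤ M ^ r := one_le_pow₀ hM
  obtain ⟨Y, hY⟩ : ∃ Y : ℝ, Y = 1 + Real.log R := ⟨_, rfl⟩
  obtain ⟨Z, hZ⟩ : ∃ Z : ℝ, Z = 1 + Real.log M := ⟨_, rfl⟩
  have hY1 : 1 ≤ Y := by rw [hY]; linarith
  have hZ1 : 1 ≤ Z := by rw [hZ]; linarith
  have e1 := log_pow_le 1 hM
  have e2 := log_pow_le (2 * κ) hM
  rw [← hZ] at e1 e2
  rw [← hY, ← hZ]
  rw [pow_one] at e1
  have hYZ : Y + Z ≤ 2 * (Y * Z) := by nlinarith
  have hYκ : 1 ≤ Y ^ κ := one_le_pow₀ hY1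
  have f1 : 4 * C₁ * (Y + Z) ≤ 8 * C₁ * ((1 : ℕ).factorial * Real.exp 1) * M ^ (r + 1) *
      Y ^ (κ + 1) := by
    calc 4 * C₁ * (Y + Z) ≤ 4 * C₁ * (2 * (Y * Z)) := by gcongr
      _ = 8 * C₁ * Y * Z := by ring
      _ ≤ 8 * C₁ * Y * (((1 : ℕ).factorial * Real.exp 1) * M) := by gcongr
      _ = (8 * C₁ * ((1 : ℕ).factorial * Real.exp 1) * M * Y) * (1 * 1) := by ring
      _ ≤ (8 * C₁ * ((1 : ℕ).factorial * Real.exp 1) * M * Y) * (M ^ r * Y ^ κ) := by gcongr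
      _ = _ := by ring
  have f2 : C₂ * (M ^ r * Z ^ κ) * (3 * C₁ * (Y + Z)) ^ κ ≤
      C₂ * (6 * C₁) ^ κ * ((2 * κ).factorial * Real.exp 1) * M ^ (r + 1) * Y ^ (κ + 1) := by
    calc C₂ * (M ^ r * Z ^ κ) * (3 * C₁ * (Y + Z)) ^ κ
        ≤ C₂ * (M ^ r * Z ^ κ) * (3 * C₁ * (2 * (Y * Z))) ^ κ := by gcongr
      _ = (C₂ * (6 * C₁) ^ κ * M ^ r * Y ^ κ) * Z ^ (2 * κ) := by
        have e3 : 3 * C₁ * (2 * (Y * Z)) = (6 * C₁) * Y * Z := by ring
        have e4 : Z ^ (2 * κ) = Z ^ κ * Z ^ κ := by rw [two_mul, pow_add]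
        rw [e3, e4, mul_pow, mul_pow]
        ring
      _ ≤ (C₂ * (6 * C₁) ^ κ * M ^ r * Y ^ κ) * (((2 * κ).factorial * Real.exp 1) * M) := by
        gcongr
      _ = (C₂ * (6 * C₁) ^ κ * ((2 * κ).factorial * Real.exp 1) * M ^ (r + 1) * Y ^ κ) * 1 := by
        ring
      _ ≤ (C₂ * (6 * C₁) ^ κ * ((2 * κ).factorial * Real.exp 1) * M ^ (r + 1) * Y ^ κ) * Y := by
        gcongr
      _ = _ := by ring
  calc _ ≤ _ := add_le_add f1 f2
    _ = _ := by ring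

/-- **The count of the short terms of a chain.** -/
theorem gen_count (S P : Finset ℕ) (r K : ℕ) :
    ∃ C : ℝ, 1 ≤ C ∧ ∀ (n : ℕ) (x : ℕ → ℤ) (m d : ℕ → ℕ) (ρ : ℕ → ℤ) (R M : ℝ) (O : ℤ → Prop),
      1 ≤ R → 1 ≤ M → 1 ≤ n → IsChain P K R n x m d ρ →
      (∀ i < n, ∀ k < n, x i = x k → i = k) →
      (∀ i k T, i ≤ k → k < n → Bal S m d i k T →
        (((Ico i k).filter (fun l => O (x l))).card : ℝ) ≤ T) →
      (((range n).filter (fun i => O (x i) ∧ Short S r M (x i))).card : ℝ) ≤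
        C * M ^ (r + 1) * (1 + Real.log R) ^ (r * S.card + 1) *
          (n : ℝ) ^ (((r * S.card : ℕ) : ℝ) / ((r * S.card : ℕ) + 1)) := by
  obtain ⟨C₁, hC₁, h⟩ := gen_gap S P r K
  obtain ⟨C₂, hC₂, hN⟩ := num_short S r
  obtain ⟨C, hC, hc⟩ := const_short' r (r * S.card) C₁ C₂ hC₁ hC₂
  refine ⟨C, hC, ?_⟩
  intro n x m d ρ R M O hR hM hn hch hinj hO
  have hlM : 0 ≤ Real.log M := Real.log_nonneg hM
  have hlR : 0 ≤ Real.log R := Real.log_nonneg hR
  have key := count_pow (r * S.card) C₁ ((1 + Real.log R) + (1 + Real.log M))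
    (C₂ * (M ^ r * (1 + Real.log M) ^ (r * S.card))) hC₁ (by linarith) (by positivity) x n hn O
    (Short S r M) hinj (fun L hL F hF => hN L M hL hM F hF) (by
      intro i k hik hkn hOi hPi hPk
      rcases h n x m d ρ R M hR hM hch i k hik.le hkn.le hPi hPk with h1 | h1
      · left
        refine h1.trans ?_
        apply mul_le_mul_of_nonneg_left _ (by linarith)
        linarith
      · right
        refine (hO i k _ hik.le hkn h1).trans ?_
        apply mul_le_mul_of_nonneg_left _ (by linarith)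
        linarith)
  refine key.trans ?_
  exact mul_le_mul_of_nonneg_right (hc M R hM hR) (by positivity)

end Pool.Agent.U773.SP
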