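import Mathlib
import Pool.Agent.U773.SP.Gen

/-! Two chains of affine maps with short starting points and the same end. -/

set_option autoImplicit false

namespace Pool.Agent.U773.SP

open Finset

open scoped Classical

lemma chain_small {P : Finset ℕ} {K : ℕ} {R N : ℝ} (hR : 1 ≤ R) (hN : 0 < N) {n : ℕ} {x : ℕ → ℤ}
    {m d : ℕ → ℕ} {ρ : ℕ → ℤ} (h : IsChain P K R n x m d ρ) (hbig : ∀ l < n, N ≤ |(x l : ℝ)|)
    (hn : (n : ℝ) * (R / N) ≤ 1) :
    ∃ B : ℤ, ((∏ i ∈ range n, m i : ℕ) : ℤ) * x 0 + B = ((∏ i ∈ range n, d i : ℕ) : ℤ) * x n ∧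
      |(B : ℝ)| ≤ ((∏ i ∈ range n, m i : ℕ) : ℝ) * |(x 0 : ℝ)| * (2 * (n * (R / N))) := by
  obtain ⟨B, h1, h2⟩ := chain_rel x m d ρ R N (by linarith) hN n (fun i hi =>
    ⟨(h i hi).1.1, (h i hi).2.2.1, (h i hi).2.2.2, hbig i hi⟩)
  refine ⟨B, h1, h2.trans ?_⟩
  gcongr
  exact one_add_pow_le (by positivity) n hn

lemma chain_prod {P : Finset ℕ} {K : ℕ} {R : ℝ} {n : ℕ} {x : ℕ → ℤ}
    {m d : ℕ → ℕ} {ρ : ℕ → ℤ} (h : IsChain P K R n x m d ρ) :
    (∏ i ∈ range n, m i ≠ 0 ∧ (∀ p : ℕ, p.Prime → p ∣ ∏ i ∈ range n, m i → p ∈ P) ∧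
      Real.log ((∏ i ∈ range n, m i : ℕ) : ℝ) ≤ n * Real.log ((K : ℝ) + 1)) ∧
    (∏ i ∈ range n, d i ≠ 0 ∧ (∀ p : ℕ, p.Prime → p ∣ ∏ i ∈ range n, d i → p ∈ P) ∧
      Real.log ((∏ i ∈ range n, d i : ℕ) : ℝ) ≤ n * Real.log ((K : ℝ) + 1)) := by
  have key : ∀ f : ℕ → ℕ, (∀ i < n, 1 ≤ f i ∧ f i ≤ K ∧ ∀ p : ℕ, p.Prime → p ∣ f i → p ∈ P) →
      (∏ i ∈ range n, f i ≠ 0 ∧ (∀ p : ℕ, p.Prime → p ∣ ∏ i ∈ range n, f i → p ∈ P) ∧
      Real.log ((∏ i ∈ range n, f i : ℕ) : ℝ) ≤ n * Real.log ((K : ℝ) + 1)) := by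
    intro f hf
    refine ⟨?_, ?_, ?_⟩
    · refine prod_ne_zero_iff.2 fun i hi => ?_
      have := (hf i (mem_range.1 hi)).1
      omega
    · intro p hp hd
      obtain ⟨i, hi, h3⟩ := (hp.prime.dvd_finsetProd_iff _).1 hd
      exact (hf i (mem_range.1 hi)).2.2 p hp h3
    · have h1 : ∏ i ∈ range n, f i ≤ K ^ n := by
        calc ∏ i ∈ range n, f i ≤ ∏ i ∈ range n, K :=
              prod_le_prod' fun i hi => (hf i (mem_range.1 hi)).2.1
          _ = K ^ n := by rw [prod_const, card_range]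
      have h2 : 0 < ∏ i ∈ range n, f i := prod_pos fun i hi => (hf i (mem_range.1 hi)).1
      have h3 : ((∏ i ∈ range n, f i : ℕ) : ℝ) ≤ ((K : ℝ) + 1) ^ n := by
        calc ((∏ i ∈ range n, f i : ℕ) : ℝ) ≤ (K : ℝ) ^ n := by exact_mod_cast h1
          _ ≤ _ := by gcongr; linarith
      have h4 := Real.log_le_log (by exact_mod_cast h2) h3
      rwa [Real.log_pow] at h4
  exact ⟨key m fun i hi => (h i hi).1, key d fun i hi => (h i hi).2.1⟩

/-- **The coalescence theorem.** -/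
theorem coal (S P : Finset ℕ) (r K : ℕ) (ε : ℝ) (hε : 0 < ε) :
    ∃ C : ℝ, 1 ≤ C ∧ ∀ (n n' : ℕ) (x : ℕ → ℤ) (m d : ℕ → ℕ) (ρ : ℕ → ℤ) (x' : ℕ → ℤ)
      (m' d' : ℕ → ℕ) (ρ' : ℕ → ℤ) (R M : ℝ), 1 ≤ R → 1 ≤ M → IsChain P K R n x m d ρ →
      IsChain P K R n' x' m' d' ρ' → x n = x' n' → Short S r M (x 0) → Short S r M (x' 0) →
      (∃ l < n, |(x l : ℝ)| ≤ C * R * Real.exp (ε * (n + n' + Real.log (1 + |(x 0 : ℝ)|)))) ∨
      (∃ l < n', |(x' l : ℝ)| ≤ C * R * Real.exp (ε * (n + n' + Real.log (1 + |(x 0 : ℝ)|)))) ∨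
      ∀ q : ℕ, q.Prime → q ∉ S →
        |(padicValNat q ((∏ i ∈ range n', d' i) * ∏ i ∈ range n, m i) : ℝ) -
          padicValNat q ((∏ i ∈ range n, d i) * ∏ i ∈ range n', m' i)| ≤
          C * (1 + Real.log M) := by
  have hlK : 0 ≤ Real.log ((K : ℝ) + 1) := Real.log_nonneg (by
    have : (0 : ℝ) ≤ K := Nat.cast_nonneg _
    linarith)
  obtain ⟨η, hη⟩ : ∃ η : ℝ, η = ε / (4 * (Real.log ((K : ℝ) + 1) + 1)) := ⟨_, rfl⟩
  have hη0 : 0 < η := by rw [hη]; positivity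
  have hη1 : η * (4 * (Real.log ((K : ℝ) + 1) + 1)) = ε := by
    rw [hη]
    exact div_mul_cancel₀ _ (by positivity)
  obtain ⟨C, hC, hst⟩ := strong S P r η hη0
  obtain ⟨C', hC'⟩ : ∃ C' : ℝ, C' = 1 + C + (64 / ε + 4) * Real.exp ε := ⟨_, rfl⟩
  have h64 : 0 ≤ (64 / ε + 4) * Real.exp ε := by positivity
  have hC'1 : 1 ≤ C' := by
    rw [hC']
    linarith
  refine ⟨C', hC'1, ?_⟩
  intro n n' x m d ρ x' m' d' ρ' R M hR hM hx hx' hz hs hs'
  have hlM : 0 ≤ Real.log M := Real.log_nonneg hM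
  obtain ⟨X, hX⟩ : ∃ X : ℝ, X = Real.log (1 + |(x 0 : ℝ)|) := ⟨_, rfl⟩
  have hX0 : 0 ≤ X := by rw [hX]; exact Real.log_nonneg (by linarith [abs_nonneg (x 0 : ℝ)])
  rw [← hX]
  by_cases hd1 : ∃ l < n, |(x l : ℝ)| ≤ C' * R * Real.exp (ε * (n + n' + X))
  · exact Or.inl hd1
  by_cases hd2 : ∃ l < n', |(x' l : ℝ)| ≤ C' * R * Real.exp (ε * (n + n' + X))
  · exact Or.inr (Or.inl hd2)
  push Not at hd1 hd2
  right; right
  obtain ⟨N, hN⟩ : ∃ N : ℝ, N = C' * R * Real.exp (ε * (n + n' + X)) := ⟨_, rfl⟩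
  rw [← hN] at hd1 hd2
  have hn0 : (0 : ℝ) ≤ n := Nat.cast_nonneg _
  have hn'0 : (0 : ℝ) ≤ n' := Nat.cast_nonneg _
  have hE1 : 1 ≤ Real.exp (ε * (n + n' + X)) := Real.one_le_exp (by positivity)
  have hN0 : 0 < N := by rw [hN]; positivity
  have hs1 : ((n : ℝ) + n') * (R / N) ≤ 1 / 4 := by
    rw [mul_div_assoc', div_le_iff₀ hN0, hN]
    have e2 := Real.add_one_le_exp (ε * (n + n' + X))
    have e3 : (n : ℝ) + n' ≤ 1 / ε * (ε * (n + n' + X)) := by
      rw [← mul_assoc, div_mul_cancel₀ _ hε.ne', one_mul]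
      linarith
    have e4 : 0 ≤ 1 / ε := by positivity
    have e5 : (n : ℝ) + n' ≤ 1 / ε * Real.exp (ε * (n + n' + X)) := by nlinarith
    have e6 : 1 / ε ≤ 1 / 4 * C' := by
      rw [hC']
      have e7 : 1 ≤ Real.exp ε := Real.one_le_exp hε.le
      have e8 : 64 / ε = 64 * (1 / ε) := by ring
      nlinarith
    calc ((n : ℝ) + n') * R ≤ (1 / 4 * C' * Real.exp (ε * (n + n' + X))) * R := by
          apply mul_le_mul_of_nonneg_right _ (by linarith)
          refine e5.trans ?_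
          gcongr
      _ = _ := by ring
  have hRN : 0 ≤ R / N := by positivity
  have ht1 : (n : ℝ) * (R / N) ≤ 1 / 4 := by
    refine le_trans ?_ hs1
    apply mul_le_mul_of_nonneg_right _ hRN
    linarith
  have ht2 : (n' : ℝ) * (R / N) ≤ 1 / 4 := by
    refine le_trans ?_ hs1
    apply mul_le_mul_of_nonneg_right _ hRN
    linarith
  obtain ⟨B, hB1, hB2⟩ := chain_small hR hN0 hx (fun l hl => (hd1 l hl).le) (by linarith)
  obtain ⟨B', hB1', hB2'⟩ := chain_small hR hN0 hx' (fun l hl => (hd2 l hl).le) (by linarith)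
  obtain ⟨⟨hA0, hAP, hAl⟩, ⟨hD0, hDP, hDl⟩⟩ := chain_prod hx
  obtain ⟨⟨hA0', hAP', hAl'⟩, ⟨hD0', hDP', hDl'⟩⟩ := chain_prod hx'
  obtain ⟨A, hA⟩ : ∃ A : ℕ, A = ∏ i ∈ range n, m i := ⟨_, rfl⟩
  obtain ⟨D, hD⟩ : ∃ D : ℕ, D = ∏ i ∈ range n, d i := ⟨_, rfl⟩
  obtain ⟨A', hA'⟩ : ∃ A' : ℕ, A' = ∏ i ∈ range n', m' i := ⟨_, rfl⟩
  obtain ⟨D', hD'⟩ : ∃ D' : ℕ, D' = ∏ i ∈ range n', d' i := ⟨_, rfl⟩
  rw [← hA] at hB1 hB2 hA0 hAP hAl ⊢
  rw [← hD] at hB1 hD0 hDP hDl ⊢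
  rw [← hA'] at hB1' hB2' hA0' hAP' hAl' ⊢
  rw [← hD'] at hB1' hD0' hDP' hDl' ⊢
  have hrel : ((D' * A : ℕ) : ℤ) * x 0 + ((D' : ℤ) * B - D * B') = ((D * A' : ℕ) : ℤ) * x' 0 := by
    push_cast
    rw [hz] at hB1
    linear_combination (D' : ℤ) * hB1 - (D : ℤ) * hB1'
  have hAR : (1 : ℝ) ≤ A := by exact_mod_cast Nat.one_le_iff_ne_zero.2 hA0
  have hDR : (1 : ℝ) ≤ D := by exact_mod_cast Nat.one_le_iff_ne_zero.2 hD0
  have hAR' : (1 : ℝ) ≤ A' := by exact_mod_cast Nat.one_le_iff_ne_zero.2 hA0'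
  have hDR' : (1 : ℝ) ≤ D' := by exact_mod_cast Nat.one_le_iff_ne_zero.2 hD0'
  -- the size of the second term
  obtain ⟨a, ha⟩ : ∃ a : ℝ, a = D' * A * |(x 0 : ℝ)| := ⟨_, rfl⟩
  obtain ⟨a', ha'⟩ : ∃ a' : ℝ, a' = D * A' * |(x' 0 : ℝ)| := ⟨_, rfl⟩
  have ha0 : 0 ≤ a := by rw [ha]; positivity
  have ha0' : 0 ≤ a' := by rw [ha']; positivity
  obtain ⟨t, ht⟩ : ∃ t : ℝ, t = 2 * (n * (R / N)) := ⟨_, rfl⟩
  obtain ⟨t', ht'⟩ : ∃ t' : ℝ, t' = 2 * (n' * (R / N)) := ⟨_, rfl⟩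
  have ht0 : 0 ≤ t := by rw [ht]; positivity
  have ht0' : 0 ≤ t' := by rw [ht']; positivity
  have hb : |((D' : ℝ) * B)| ≤ a * t := by
    rw [abs_mul, abs_of_nonneg (by linarith : (0 : ℝ) ≤ (D' : ℝ)), ha, ht]
    calc (D' : ℝ) * |(B : ℝ)| ≤ D' * (A * |(x 0 : ℝ)| * (2 * (n * (R / N)))) := by gcongr
      _ = _ := by ring
  have hb' : |((D : ℝ) * B')| ≤ a' * t' := by
    rw [abs_mul, abs_of_nonneg (by linarith : (0 : ℝ) ≤ (D : ℝ)), ha', ht']
    calc (D : ℝ) * |(B' : ℝ)| ≤ D * (A' * |(x' 0 : ℝ)| * (2 * (n' * (R / N)))) := by gcongr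
      _ = _ := by ring
  have haa : a' ≤ 3 * a := by
    have e1 : (D' : ℝ) * A * x 0 + (D' * B - D * B') = D * A' * x' 0 := by
      have := hrel
      have h3 : ((((D' * A : ℕ) : ℤ) * x 0 + ((D' : ℤ) * B - D * B') : ℤ) : ℝ) =
          ((((D * A' : ℕ) : ℤ) * x' 0 : ℤ) : ℝ) := by rw [hrel]
      push_cast at h3
      exact h3
    have e2 : a' ≤ a + a * t + a' * t' := by
      calc a' = |(D : ℝ) * A' * x' 0| := by
            rw [ha', abs_mul, abs_of_nonneg (by positivity : (0 : ℝ) ≤ (D : ℝ) * A')]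
        _ = |(D' : ℝ) * A * x 0 + (D' * B - D * B')| := by rw [e1]
        _ ≤ |(D' : ℝ) * A * x 0| + |(D' * (B : ℝ) - D * B')| := abs_add_le _ _
        _ ≤ |(D' : ℝ) * A * x 0| + (|D' * (B : ℝ)| + |D * (B' : ℝ)|) := by
          gcongr
          exact abs_sub _ _
        _ ≤ a + (a * t + a' * t') := by
          have : |(D' : ℝ) * A * x 0| = a := by
            rw [ha, abs_mul, abs_of_nonneg (by positivity : (0 : ℝ) ≤ (D' : ℝ) * A)]
          rw [this]
          linarith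
        _ = _ := by ring
    have e3 : a * t ≤ a * (1 / 2) := by
      apply mul_le_mul_of_nonneg_left _ ha0
      rw [ht]; linarith
    have e4 : a' * t' ≤ a' * (1 / 2) := by
      apply mul_le_mul_of_nonneg_left _ ha0'
      rw [ht']; linarith
    linarith
  have hBB : |(((D' : ℤ) * B - D * B' : ℤ) : ℝ)| ≤ a * (6 * (((n : ℝ) + n') * (R / N))) := by
    push_cast
    calc |(D' * (B : ℝ) - D * B')| ≤ |D' * (B : ℝ)| + |D * (B' : ℝ)| := abs_sub _ _
      _ ≤ a * t + a' * t' := by linarith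
      _ ≤ a * t + 3 * a * t' := by gcongr
      _ ≤ _ := by
        rw [ht, ht']
        have : 0 ≤ a * (n * (R / N)) := by positivity
        nlinarith
  rcases hst (D' * A) (D * A') (x 0) (x' 0) _ M (mul_ne_zero hD0' hA0) (mul_ne_zero hD0 hA0')
      (fun p hp hd => (hp.dvd_mul.1 hd).elim (hDP' p hp) (hAP p hp))
      (fun p hp hd => (hp.dvd_mul.1 hd).elim (hDP p hp) (hAP' p hp)) hM hrel hs hs' with h1 | h1
  · -- contradiction unless both chains are trivial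
    rcases Nat.eq_zero_or_pos (n + n') with hnn | hnn
    · obtain ⟨rfl, rfl⟩ : n = 0 ∧ n' = 0 := by omega
      intro q _ _
      rw [hA, hD, hA', hD']
      simp only [range_zero, prod_empty, mul_one, sub_self, abs_zero]
      positivity
    exfalso
    have hapos : 0 < a := by
      rcases ha0.lt_or_eq with h2 | h2
      · exact h2
      · exfalso
        have h3 : a' = 0 := le_antisymm (by linarith) ha0'
        rcases Nat.eq_zero_or_pos n with hn | hn
        · have h4 := hd2 0 (by omega)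
          have h5 : (x' 0 : ℝ) = 0 := by
            rw [ha'] at h3
            have h6 : |(x' 0 : ℝ)| = 0 :=
              (mul_eq_zero.1 h3).resolve_left (by positivity)
            exact abs_eq_zero.1 h6
          rw [h5, abs_zero] at h4
          linarith
        · have h4 := hd1 0 hn
          have h5 : (x 0 : ℝ) = 0 := by
            rw [ha] at h2
            have h6 : |(x 0 : ℝ)| = 0 :=
              (mul_eq_zero.1 h2.symm).resolve_left (by positivity)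
            exact abs_eq_zero.1 h6
          rw [h5, abs_zero] at h4
          linarith
    have hexp : Real.exp (η * (1 + Real.log ((D' * A : ℕ) : ℝ) + Real.log ((D * A' : ℕ) : ℝ) +
        Real.log (1 + |(x 0 : ℝ)|))) ≤ Real.exp ε * Real.exp (ε / 2 * (n + n' + X)) := by
      rw [← Real.exp_add, Real.exp_le_exp, ← hX]
      have l1 : Real.log ((D' * A : ℕ) : ℝ) ≤ (n + n') * Real.log ((K : ℝ) + 1) := by
        push_cast
        rw [Real.log_mul (by positivity) (by positivity)]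
        linarith
      have l2 : Real.log ((D * A' : ℕ) : ℝ) ≤ (n + n') * Real.log ((K : ℝ) + 1) := by
        push_cast
        rw [Real.log_mul (by positivity) (by positivity)]
        linarith
      have e1 : η ≤ ε / 4 := by
        have : η * 4 ≤ ε := by
          calc η * 4 ≤ η * (4 * (Real.log ((K : ℝ) + 1) + 1)) := by
                apply mul_le_mul_of_nonneg_left _ hη0.le
                linarith
            _ = ε := hη1
        linarith
      have e2 : η * Real.log ((K : ℝ) + 1) ≤ ε / 4 := by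
        have : η * (4 * Real.log ((K : ℝ) + 1)) ≤ ε := by
          rw [← hη1]
          apply mul_le_mul_of_nonneg_left _ hη0.le
          linarith
        linarith
      calc η * (1 + Real.log ((D' * A : ℕ) : ℝ) + Real.log ((D * A' : ℕ) : ℝ) + X) ≤
          η * (1 + (n + n') * Real.log ((K : ℝ) + 1) + (n + n') * Real.log ((K : ℝ) + 1) + X) := by
            gcongr
        _ = η + 2 * (n + n') * (η * Real.log ((K : ℝ) + 1)) + η * X := by ring
        _ ≤ ε / 4 + 2 * (n + n') * (ε / 4) + ε / 4 * X := by gcongr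
        _ ≤ ε + ε / 2 * (n + n' + X) := by nlinarith
    have h5 : 1 ≤ 6 * (((n : ℝ) + n') * (R / N)) * (Real.exp ε * Real.exp (ε / 2 * (n + n' + X))) := by
      have h6 : a * 1 ≤ a * (6 * (((n : ℝ) + n') * (R / N)) *
          (Real.exp ε * Real.exp (ε / 2 * (n + n' + X)))) := by
        rw [mul_one]
        have h7 : a = ((D' * A : ℕ) : ℝ) * |(x 0 : ℝ)| := by rw [ha]; push_cast; ring
        calc a = ((D' * A : ℕ) : ℝ) * |(x 0 : ℝ)| := h7
          _ ≤ _ := h1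
          _ ≤ (a * (6 * (((n : ℝ) + n') * (R / N)))) *
            (Real.exp ε * Real.exp (ε / 2 * (n + n' + X))) := by gcongr
          _ = _ := by ring
      exact le_of_mul_le_mul_left h6 hapos
    have h7 : N ≤ 6 * (n + n') * R * (Real.exp ε * Real.exp (ε / 2 * (n + n' + X))) := by
      have e1 : 6 * (((n : ℝ) + n') * (R / N)) * (Real.exp ε * Real.exp (ε / 2 * (n + n' + X))) =
          (6 * (n + n') * R * (Real.exp ε * Real.exp (ε / 2 * (n + n' + X)))) / N := by ring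
      rw [e1, le_div_iff₀ hN0] at h5
      linarith
    have h8 : 6 * ((n : ℝ) + n') ≤ 12 / ε * Real.exp (ε / 2 * (n + n' + X)) := by
      have e2 := Real.add_one_le_exp (ε / 2 * (n + n' + X))
      have e3 : 6 * ((n : ℝ) + n') ≤ 12 / ε * (ε / 2 * (n + n' + X)) := by
        have : 12 / ε * (ε / 2 * (n + n' + X)) = 6 * (n + n' + X) := by field_simp; ring
        rw [this]
        linarith
      have e4 : 0 ≤ 12 / ε := by positivity
      nlinarith
    have h9 : N ≤ 12 / ε * Real.exp ε * R * Real.exp (ε * (n + n' + X)) := by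
      calc N ≤ 6 * (n + n') * R * (Real.exp ε * Real.exp (ε / 2 * (n + n' + X))) := h7
        _ ≤ (12 / ε * Real.exp (ε / 2 * (n + n' + X))) * R *
            (Real.exp ε * Real.exp (ε / 2 * (n + n' + X))) := by gcongr
        _ = 12 / ε * Real.exp ε * R * (Real.exp (ε / 2 * (n + n' + X)) *
            Real.exp (ε / 2 * (n + n' + X))) := by ring
        _ = _ := by
          rw [← Real.exp_add]
          ring_nf
    rw [hN] at h9
    have h10 : 12 / ε * Real.exp ε < C' := by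
      rw [hC']
      have e1 : 12 / ε ≤ 64 / ε + 4 := by
        have : 12 / ε ≤ 64 / ε := by gcongr; norm_num
        linarith
      have e2 : 12 / ε * Real.exp ε ≤ (64 / ε + 4) * Real.exp ε := by gcongr
      linarith
    have h11 : 0 < R * Real.exp (ε * (n + n' + X)) := by positivity
    nlinarith
  · intro q hq hqS
    refine (h1 q hq hqS).trans ?_
    apply mul_le_mul_of_nonneg_right _ (by linarith)
    rw [hC']
    linarith

end Pool.Agent.U773.SP
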