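import Mathlib
import Pool.Agent.U773.SP.Coal
import Pool.Agent.U773.SP.DipT

/-! The coalescence theorem for the maps `x ↦ x / 2`, `x ↦ (a x + b) / 2`. -/

set_option autoImplicit false

namespace Pool.Agent.U773.SP

open Finset

open scoped Classical

lemma isChain_T (a : ℕ) (ha : a % 2 = 1) (b x : ℤ) (hb : b % 2 = 1) (n : ℕ) :
    IsChain (a.primeFactors ∪ {2}) (a + 2) |(b : ℝ)| n (fun i => (Tm a b)^[i] x)
      (fun i => if (Tm a b)^[i] x % 2 = 1 then a else 1) (fun _ => 2)
      (fun i => if (Tm a b)^[i] x % 2 = 1 then b else 0) := by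
  have ha0 : a ≠ 0 := by rintro rfl; simp at ha
  intro i _
  refine ⟨?_, ?_, ?_, ?_⟩
  · by_cases hi : (Tm a b)^[i] x % 2 = 1
    · simp only [if_pos hi]
      exact ⟨by omega, by omega, fun p hp hd =>
        mem_union_left _ (Nat.mem_primeFactors.2 ⟨hp, hd, ha0⟩)⟩
    · simp only [if_neg hi]
      exact ⟨le_refl 1, by omega, fun p hp hd => absurd (Nat.dvd_one.1 hd) hp.ne_one⟩
  · refine ⟨by norm_num, by show 2 ≤ a + 2; omega, fun p hp hd => ?_⟩
    rw [(Nat.prime_dvd_prime_iff_eq hp Nat.prime_two).1 hd]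
    exact mem_union_right _ (mem_singleton_self 2)
  · simp only [Function.iterate_succ_apply']
    exact step_T a ha b _ hb
  · by_cases hi : (Tm a b)^[i] x % 2 = 1
    · simp only [if_pos hi]
      exact le_refl _
    · simp only [if_neg hi]
      rw [Int.cast_zero, abs_zero]
      exact abs_nonneg _

/-- **The coalescence theorem for `T_{a,b}`.** -/
theorem coal_T (S : Finset ℕ) (a : ℕ) (ha : a % 2 = 1) (r : ℕ) (ε : ℝ) (hε : 0 < ε) :
    ∃ C : ℝ, 1 ≤ C ∧ ∀ (b x y : ℤ) (i j : ℕ) (M : ℝ), b % 2 = 1 → 1 ≤ M → Short S r M x →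
      Short S r M y → (Tm a b)^[i] x = (Tm a b)^[j] y →
      (∃ l < i, |(((Tm a b)^[l] x : ℤ) : ℝ)| ≤
        C * |(b : ℝ)| * Real.exp (ε * (i + j + Real.log (1 + |(x : ℝ)|)))) ∨
      (∃ l < j, |(((Tm a b)^[l] y : ℤ) : ℝ)| ≤
        C * |(b : ℝ)| * Real.exp (ε * (i + j + Real.log (1 + |(x : ℝ)|)))) ∨
      ((∀ q : ℕ, q.Prime → q ∣ a → q ∉ S →
        |(oddc a b x i : ℝ) - oddc a b y j| ≤ C * (1 + Real.log M)) ∧
        (2 ∉ S → |(i : ℝ) - j| ≤ C * (1 + Real.log M))) := by
  have ha0 : a ≠ 0 := by rintro rfl; simp at ha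
  obtain ⟨C, hC, h⟩ := coal S (a.primeFactors ∪ {2}) r (a + 2) ε hε
  refine ⟨C, hC, ?_⟩
  intro b x y i j M hb hM hx hy hxy
  have hbR : 1 ≤ |(b : ℝ)| := by
    have : 1 ≤ |b| := Int.one_le_abs (by rintro rfl; simp at hb)
    exact_mod_cast this
  rcases h i j _ _ _ _ _ _ _ _ |(b : ℝ)| M hbR hM (isChain_T a ha b x hb i)
    (isChain_T a ha b y hb j) hxy hx hy with h1 | h1 | h1
  · exact Or.inl h1
  · exact Or.inr (Or.inl h1)
  · right; right
    rw [prod_mult, prod_mult, prod_const, prod_const, card_range, card_range] at h1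
    constructor
    · intro q hq hqa hqS
      have h2 := h1 q hq hqS
      have hqf : Fact q.Prime := ⟨hq⟩
      have hv : ∀ j : ℕ, padicValNat q (2 ^ j) = 0 := by
        intro j
        apply padicValNat.eq_zero_of_not_dvd
        intro h4
        have h5 : q = 2 := (Nat.prime_dvd_prime_iff_eq hq Nat.prime_two).1 (hq.dvd_of_dvd_pow h4)
        rw [h5] at hqa
        omega
      have h4 : 1 ≤ padicValNat q a := one_le_padicValNat_of_dvd ha0 hqa
      rw [padicValNat.mul (by positivity) (pow_ne_zero _ ha0),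
        padicValNat.mul (by positivity) (pow_ne_zero _ ha0), hv, hv, padicValNat.pow,
        padicValNat.pow] at h2
      push_cast at h2
      rw [zero_add, zero_add, ← sub_mul, abs_mul,
        abs_of_nonneg (Nat.cast_nonneg _ : (0 : ℝ) ≤ (padicValNat q a : ℝ))] at h2
      have h5 : |(oddc a b x i : ℝ) - oddc a b y j| * 1 ≤
          |(oddc a b x i : ℝ) - oddc a b y j| * padicValNat q a := by
        gcongr
        exact_mod_cast h4
      linarith
    · intro h2S
      have h2 := h1 2 Nat.prime_two h2S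
      have hv : ∀ o : ℕ, padicValNat 2 (a ^ o) = 0 := by
        intro o
        apply padicValNat.eq_zero_of_not_dvd
        intro h4
        have := Nat.prime_two.dvd_of_dvd_pow h4
        omega
      rw [padicValNat.mul (by positivity) (pow_ne_zero _ ha0),
        padicValNat.mul (by positivity) (pow_ne_zero _ ha0), hv, hv, padicValNat.prime_pow,
        padicValNat.prime_pow] at h2
      push_cast at h2
      rw [add_zero, add_zero, abs_sub_comm] at h2
      exact h2

end Pool.Agent.U773.SP
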