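import Mathlib
import Pool.Agent.U773.SP.CoalT

/-! The count of short terms for the maps `x ↦ x / 2`, `x ↦ (a x + b) / 2`, uniformly in `b`. -/

set_option autoImplicit false

namespace Pool.Agent.U773.SP

open Finset

open scoped Classical

lemma bal_odd (a : ℕ) (ha : a % 2 = 1) (b x : ℤ) {S : Finset ℕ} {q : ℕ} (hq : q.Prime)
    (hqa : q ∣ 2 * a) (hqS : q ∉ S) {i k : ℕ} {T₀ : ℝ}
    (h : Bal S (fun i => if (Tm a b)^[i] x % 2 = 1 then a else 1) (fun _ => 2) i k T₀) :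
    (((Ico i k).filter (fun l => (Tm a b)^[l] x % 2 = 1)).card : ℝ) ≤ T₀ := by
  have ha0 : a ≠ 0 := by rintro rfl; simp at ha
  rcases (hq.dvd_mul).1 hqa with h1 | h1
  · have hq2 : q = 2 := (Nat.prime_dvd_prime_iff_eq hq Nat.prime_two).1 h1
    subst hq2
    have h2 := h.all hq hqS (fun l _ _ => by
      by_cases h3 : (Tm a b)^[l] x % 2 = 1
      · simp only [if_pos h3]
        exact ⟨ha0, by omega⟩
      · simp only [if_neg h3]
        exact ⟨one_ne_zero, by norm_num⟩) (fun l _ _ => ⟨by norm_num, dvd_rfl⟩)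
    refine le_trans ?_ h2
    have h3 := card_filter_le (Ico i k) (fun l => (Tm a b)^[l] x % 2 = 1)
    rw [Nat.card_Ico] at h3
    exact_mod_cast h3
  · exact (card_inst' _ _ _ _).trans_le (h.marked hq hqS
      (fun l => (Tm a b)^[l] x % 2 = 1) (fun l _ _ => by
      by_cases h3 : (Tm a b)^[l] x % 2 = 1
      · simp only [if_pos h3]
        exact ⟨ha0, fun _ => h1⟩
      · simp only [if_neg h3]
        exact ⟨one_ne_zero, fun h4 => absurd h4 h3⟩) (fun l _ _ => ⟨by norm_num, fun h4 => by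
          have h5 : q = 2 := (Nat.prime_dvd_prime_iff_eq hq Nat.prime_two).1 h4
          rw [h5] at h1
          omega⟩))

/-- **The count, uniformly in `b`.** -/
theorem count_T (S : Finset ℕ) (a : ℕ) (ha : a % 2 = 1) (hS : ∃ q : ℕ, q.Prime ∧ q ∣ 2 * a ∧ q ∉ S)
    (r : ℕ) :
    ∃ C : ℝ, 1 ≤ C ∧ ∀ (b x : ℤ) (n : ℕ) (M : ℝ), b % 2 = 1 → 1 ≤ M → 1 ≤ n →
      (∀ i < n, ∀ k < n, (Tm a b)^[i] x = (Tm a b)^[k] x → i = k) →
      (((range n).filter (fun i => (Tm a b)^[i] x % 2 = 1 ∧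
        Short S r M ((Tm a b)^[i] x))).card : ℝ) ≤
        C * M ^ (r + 1) * (1 + Real.log |(b : ℝ)|) ^ (r * S.card + 1) *
          (n : ℝ) ^ (((r * S.card : ℕ) : ℝ) / ((r * S.card : ℕ) + 1)) := by
  obtain ⟨q, hq, hqa, hqS⟩ := hS
  obtain ⟨C, hC, h⟩ := gen_count S (a.primeFactors ∪ {2}) r (a + 2)
  refine ⟨C, hC, ?_⟩
  intro b x n M hb hM hn hinj
  have hbR : 1 ≤ |(b : ℝ)| := by
    have : 1 ≤ |b| := Int.one_le_abs (by rintro rfl; simp at hb)
    exact_mod_cast this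
  have h1 := h n _ _ _ _ |(b : ℝ)| M (fun y => y % 2 = 1) hbR hM hn (isChain_T a ha b x hb n)
    hinj (fun i k T₀ _ _ hb' => (card_inst' _ _ _ _).trans_le
      (bal_odd a ha b x hq hqa hqS hb'))
  exact (card_inst' _ _ _ _).trans_le h1

end Pool.Agent.U773.SP
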