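import Mathlib
import Pool.Agent.U773.SP.Defs

/-! Integers with few nonzero digits are short sums of units. -/

set_option autoImplicit false

namespace Pool.Agent.U773.SP

lemma SUnit.one (S : Finset ℕ) : SUnit S 1 := by
  refine ⟨one_ne_zero, fun p hp h => ?_⟩
  simp only [Rat.num_one, Int.natAbs_one, Nat.dvd_one, Rat.den_one, or_self] at h
  exact absurd h hp.ne_one

lemma SUnit.nat_mul {S : Finset ℕ} {u : ℚ} (hu : SUnit S u) {N : ℕ} (hN : N ≠ 0)
    (h : ∀ p : ℕ, p.Prime → p ∣ N → p ∈ S) : SUnit S ((N : ℚ) * u) := by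
  refine ⟨mul_ne_zero (by exact_mod_cast hN) hu.1, fun p hp hd => ?_⟩
  rcases hd with hd | hd
  · have h1 : ((N : ℚ) * u).num ∣ (N : ℤ) * u.num := by
      rw [Rat.mul_num]
      have h2 : (((N : ℚ).num * u.num).natAbs.gcd ((N : ℚ).den * u.den) : ℤ) ∣
          (N : ℚ).num * u.num := by
        rw [← Int.natAbs_dvd_natAbs]
        simpa using Nat.gcd_dvd_left _ _
      have h3 := Int.ediv_dvd_of_dvd h2
      rwa [Rat.num_natCast] at h3 ⊢
    have h4 : p ∣ N * u.num.natAbs := by
      have h5 := Int.natAbs_dvd_natAbs.2 h1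
      rw [Int.natAbs_mul, Int.natAbs_natCast] at h5
      exact hd.trans h5
    rcases (Nat.Prime.dvd_mul hp).1 h4 with h5 | h5
    · exact h p hp h5
    · exact hu.2 p hp (Or.inl h5)
  · have h1 := Rat.mul_den_dvd (N : ℚ) u
    rw [Rat.den_natCast, one_mul] at h1
    exact hu.2 p hp (Or.inr (hd.trans h1))

lemma Short.zero (S : Finset ℕ) (M : ℝ) : Short S 0 M 0 :=
  ⟨fun _ => 0, fun _ => 1, fun i => i.elim0, fun i => i.elim0, by simp⟩

lemma Short.add_one {S : Finset ℕ} {r : ℕ} {M : ℝ} {x : ℤ} (hx : Short S r M x) (a : ℤ)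
    (ha : |(a : ℝ)| ≤ M) : Short S (r + 1) M (a + x) := by
  obtain ⟨c, u, hc, hu, hxu⟩ := hx
  refine ⟨Fin.cons a c, Fin.cons 1 u, ?_, ?_, ?_⟩
  · intro i
    refine Fin.cases ?_ (fun i => ?_) i
    · simpa using ha
    · simpa using hc i
  · intro i
    refine Fin.cases ?_ (fun i => ?_) i
    · simpa using SUnit.one S
    · simpa using hu i
  · rw [Fin.sum_univ_succ]
    simp only [Fin.cons_zero, Fin.cons_succ, mul_one]
    push_cast
    rw [hxu]

lemma Short.succ {S : Finset ℕ} {r : ℕ} {M : ℝ} (hM : 0 ≤ M) {x : ℤ} (hx : Short S r M x) :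
    Short S (r + 1) M x := by
  have := hx.add_one 0 (by simpa using hM)
  rwa [zero_add] at this

lemma Short.mono {S : Finset ℕ} {r r' : ℕ} (h : r ≤ r') {M : ℝ} (hM : 0 ≤ M) {x : ℤ}
    (hx : Short S r M x) : Short S r' M x := by
  induction r', h using Nat.le_induction with
  | base => exact hx
  | succ n _ ih => exact ih.succ hM

lemma Short.neg {S : Finset ℕ} {r : ℕ} {M : ℝ} {x : ℤ} (hx : Short S r M x) :
    Short S r M (-x) := by
  obtain ⟨c, u, hc, hu, hxu⟩ := hx
  refine ⟨fun i => - c i, u, fun i => ?_, hu, ?_⟩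
  · push_cast
    rw [abs_neg]
    exact hc i
  · push_cast
    rw [hxu, ← Finset.sum_neg_distrib]
    exact Finset.sum_congr rfl fun i _ => by ring

lemma Short.nat_mul {S : Finset ℕ} {r : ℕ} {M : ℝ} {x : ℤ} (hx : Short S r M x) {N : ℕ}
    (hN : N ≠ 0) (h : ∀ p : ℕ, p.Prime → p ∣ N → p ∈ S) : Short S r M ((N : ℤ) * x) := by
  obtain ⟨c, u, hc, hu, hxu⟩ := hx
  refine ⟨c, fun i => (N : ℚ) * u i, hc, fun i => (hu i).nat_mul hN h, ?_⟩
  push_cast
  rw [hxu, Finset.mul_sum]
  exact Finset.sum_congr rfl fun i _ => by ring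

lemma short_ofDigits {b : ℕ} (hb : 2 ≤ b) (L : List ℕ) (hL : ∀ d ∈ L, d < b) :
    Short b.primeFactors (L.filter (fun d => d ≠ 0)).length b ((Nat.ofDigits b L : ℕ) : ℤ) := by
  have hb0 : b ≠ 0 := by omega
  induction L with
  | nil => simpa using Short.zero b.primeFactors b
  | cons d L ih =>
    have h1 := ih fun e he => hL e (List.mem_cons_of_mem d he)
    have h2 := h1.nat_mul hb0 fun p hp hpb => Nat.mem_primeFactors.2 ⟨hp, hpb, hb0⟩
    have h3 : ((Nat.ofDigits b (d :: L) : ℕ) : ℤ) = (d : ℤ) + (b : ℤ) * (Nat.ofDigits b L : ℕ) := by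
      rw [Nat.ofDigits_cons]
      push_cast
      ring
    by_cases hd : d = 0
    · subst hd
      have h5 : (List.filter (fun d => decide (d ≠ 0)) (0 :: L)) =
          List.filter (fun d => decide (d ≠ 0)) L := by simp
      rw [h5, h3]
      simpa using h2
    · have h5 : (List.filter (fun d => decide (d ≠ 0)) (d :: L)).length =
          (List.filter (fun d => decide (d ≠ 0)) L).length + 1 := by
        simp [hd]
      rw [h5, h3]
      refine h2.add_one (d : ℤ) ?_
      have := hL d List.mem_cons_self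
      rw [Int.cast_natCast, abs_of_nonneg (Nat.cast_nonneg d)]
      exact_mod_cast this.le

/-- the number of nonzero digits of `|x|` in base `b` -/
def nonzeroDigits (b : ℕ) (x : ℤ) : ℕ := ((Nat.digits b x.natAbs).filter (fun d => d ≠ 0)).length

lemma short_of_digits {b : ℕ} (hb : 2 ≤ b) {r : ℕ} {x : ℤ} (hx : nonzeroDigits b x ≤ r) :
    Short b.primeFactors r b x := by
  have h1 := short_ofDigits hb (Nat.digits b x.natAbs) (fun d hd => Nat.digits_lt_base hb hd)
  rw [Nat.ofDigits_digits] at h1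
  have h3 := h1.mono hx (by positivity)
  rcases Int.natAbs_eq x with h | h
  · rw [h]; simpa using h3
  · rw [h]
    have := h3.neg
    simpa using this

end Pool.Agent.U773.SP
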