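import Mathlib
import Pool.Agent.U773.SP.Orb
import Pool.Agent.U773.SP.Digits

/-! Cycles. -/

set_option autoImplicit false

namespace Pool.Agent.U773.SP

open Finset Function

open scoped Classical

/-- `Z` is a cycle of `f` -/
def IsCyc (f : ℤ → ℤ) (Z : Finset ℤ) : Prop :=
  ∃ (x : ℤ) (p : ℕ), 0 < p ∧ f^[p] x = x ∧ Z = (range p).image (fun i => f^[i] x)

lemma IsCyc.exists {f : ℤ → ℤ} {Z : Finset ℤ} (h : IsCyc f Z) :
    ∃ x : ℤ, 0 < Z.card ∧ f^[Z.card] x = x ∧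
      (∀ i < Z.card, ∀ k < Z.card, f^[i] x = f^[k] x → i = k) ∧
      Z = (range Z.card).image (fun i => f^[i] x) := by
  obtain ⟨x, p, hp, hx, hZ⟩ := h
  have hper : IsPeriodicPt f p x := hx
  have hmp : 0 < minimalPeriod f x := hper.minimalPeriod_pos hp
  have hinj : ∀ i < minimalPeriod f x, ∀ k < minimalPeriod f x, f^[i] x = f^[k] x → i = k := by
    intro i hi k hk hik
    exact iterate_injOn_Iio_minimalPeriod (f := f) (x := x) hi hk hik
  have hZ2 : Z = (range (minimalPeriod f x)).image (fun i => f^[i] x) := by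
    rw [hZ]
    ext y
    simp only [mem_image, mem_range]
    constructor
    · rintro ⟨i, _, rfl⟩
      exact ⟨i % minimalPeriod f x, Nat.mod_lt _ hmp, iterate_mod_minimalPeriod_eq⟩
    · rintro ⟨i, hi, rfl⟩
      exact ⟨i, lt_of_lt_of_le hi (hper.minimalPeriod_le hp), rfl⟩
  have hcard : Z.card = minimalPeriod f x := by
    rw [hZ2, card_image_of_injOn, card_range]
    intro i hi k hk hik
    rw [mem_coe, mem_range] at hi hk
    exact hinj i hi k hk hik
  refine ⟨x, by rw [hcard]; exact hmp, by rw [hcard]; exact isPeriodicPt_minimalPeriod f x, ?_, ?_⟩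
  · rw [hcard]; exact hinj
  · rw [hcard]; exact hZ2

lemma card_filter_cyc {f : ℤ → ℤ} {Z : Finset ℤ} {x : ℤ}
    (hinj : ∀ i < Z.card, ∀ k < Z.card, f^[i] x = f^[k] x → i = k)
    (hZ : Z = (range Z.card).image (fun i => f^[i] x)) (P : ℤ → Prop) :
    (Z.filter P).card = ((range Z.card).filter (fun i => P (f^[i] x))).card := by
  have h1 : Z.filter P = ((range Z.card).filter (fun i => P (f^[i] x))).image
      (fun i => f^[i] x) := by
    conv_lhs => rw [hZ]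
    rw [filter_image]
  rw [h1, card_image_of_injOn]
  intro i hi k hk hik
  rw [mem_coe, mem_filter, mem_range] at hi hk
  exact hinj i hi.1 k hk.1 hik

/-- all elements of a cycle of `T_{a,b}` with `p` elements are at most `|b| (a + 2) ^ p` -/
lemma cyc_bound {a : ℕ} (ha : a % 2 = 1) (ha1 : a ≠ 1) {b : ℤ} (hb : b % 2 = 1) {x : ℤ} {p : ℕ}
    (hp : 0 < p) (hx : (Tm a b)^[p] x = x) : |x| ≤ |b| * ((a : ℤ) + 2) ^ p := by
  obtain ⟨B, h0, h1, h2⟩ := rel a ha b x hb p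
  rw [hx] at h2
  have h3 : x * (2 ^ p - (a : ℤ) ^ oddc a b x p) = b * B := by linarith
  have hne : (2 : ℤ) ^ p - (a : ℤ) ^ oddc a b x p ≠ 0 := by
    intro h
    have h4 : (2 : ℤ) ^ p = (a : ℤ) ^ oddc a b x p := by linarith
    have h5 : ((2 : ℤ) ^ p) % 2 = 0 := by
      obtain ⟨k, rfl⟩ : ∃ k, p = k + 1 := ⟨p - 1, by omega⟩
      rw [pow_succ]
      omega
    have h6 : ((a : ℤ) ^ oddc a b x p) % 2 = 1 := by
      have : Odd ((a : ℤ)) := Int.odd_iff.2 (by omega)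
      exact Int.odd_iff.1 this.pow
    rw [h4] at h5
    omega
  have h4 : 1 ≤ |(2 : ℤ) ^ p - (a : ℤ) ^ oddc a b x p| := Int.one_le_abs hne
  have h5 : |x| * |(2 : ℤ) ^ p - (a : ℤ) ^ oddc a b x p| = |b| * B := by
    rw [← abs_mul, h3, abs_mul, abs_of_nonneg h0]
  calc |x| = |x| * 1 := by ring
    _ ≤ |x| * |(2 : ℤ) ^ p - (a : ℤ) ^ oddc a b x p| := by gcongr
    _ = |b| * B := h5
    _ ≤ |b| * ((a : ℤ) + 2) ^ p := by gcongr

lemma finite_cycles {a : ℕ} (ha : a % 2 = 1) (ha1 : a ≠ 1) {b : ℤ} (hb : b % 2 = 1) (P : ℕ) :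
    {Z : Finset ℤ | IsCyc (Tm a b) Z ∧ Z.card ≤ P}.Finite := by
  apply Set.Finite.subset (Finset.finite_toSet
    (Finset.powerset (Icc (-(|b| * ((a : ℤ) + 2) ^ P)) (|b| * ((a : ℤ) + 2) ^ P))))
  rintro Z ⟨hZ, hP⟩
  rw [mem_coe, mem_powerset]
  obtain ⟨x, h0, hx, hinj, hZ2⟩ := hZ.exists
  intro y hy
  rw [hZ2, mem_image] at hy
  obtain ⟨i, hi, rfl⟩ := hy
  have h1 : (Tm a b)^[Z.card] ((Tm a b)^[i] x) = (Tm a b)^[i] x := by
    rw [← iterate_add_apply, add_comm, iterate_add_apply, hx]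
  have h2 := cyc_bound ha ha1 hb h0 h1
  rw [mem_Icc, ← abs_le]
  refine h2.trans ?_
  gcongr
  linarith [Int.natCast_nonneg a]

end Pool.Agent.U773.SP
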