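import Mathlib

/-! The `3x+1` map and its cycles. -/

namespace Pool.Agent.U773.SP.C31

open Finset

/-- the `3x+1` map on the integers -/
def T (x : ℤ) : ℤ := if x % 2 = 0 then x / 2 else (3 * x + 1) / 2

/-- `Z` is a cycle of `T` -/
def IsCycle (Z : Finset ℤ) : Prop :=
  ∃ (x : ℤ) (p : ℕ), 0 < p ∧ T^[p] x = x ∧ Z = (range p).image (fun i => T^[i] x)

/-- the number of odd terms among the first `j` terms `x, T x, …, T^(j-1) x` -/
def oddTerms (x : ℤ) (j : ℕ) : ℕ := ((range j).filter (fun i => T^[i] x % 2 = 1)).card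

end Pool.Agent.U773.SP.C31
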