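import Mathlib
import Pool.Agent.U773.SP.Digits

/-! The number of integers with few nonzero digits up to a bound. -/

set_option autoImplicit false

namespace Pool.Agent.U773.SP

open Finset

open scoped Classical

lemma ofDigits_rep {b : ℕ} (hb : 2 ≤ b) (l : List ℕ) (hl : ∀ d ∈ l, d < b) :
    ∀ r : ℕ, (l.filter (fun d => d ≠ 0)).length ≤ r →
      ∃ d e : Fin r → ℕ, (∀ i, d i < b) ∧ (∀ i, e i ≤ l.length) ∧
        Nat.ofDigits b l = ∑ i, d i * b ^ (e i) := by
  induction l with
  | nil =>
    intro r _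
    exact ⟨fun _ => 0, fun _ => 0, fun _ => by show 0 < b; omega, fun _ => by simp, by simp⟩
  | cons c l ih =>
    intro r hr
    have hl' : ∀ d ∈ l, d < b := fun e he => hl e (List.mem_cons_of_mem c he)
    by_cases hc : c = 0
    · subst hc
      have h5 : (List.filter (fun d => decide (d ≠ 0)) (0 :: l)) =
          List.filter (fun d => decide (d ≠ 0)) l := by simp
      rw [h5] at hr
      obtain ⟨d, e, hd, he, h⟩ := ih hl' r hr
      refine ⟨d, fun i => e i + 1, hd, fun i => ?_, ?_⟩
      · have := he i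
        simp only [List.length_cons]
        omega
      · rw [Nat.ofDigits_cons, h, zero_add, Finset.mul_sum]
        refine Finset.sum_congr rfl fun i _ => ?_
        ring
    · have h5 : (List.filter (fun d => decide (d ≠ 0)) (c :: l)).length =
          (List.filter (fun d => decide (d ≠ 0)) l).length + 1 := by
        simp [hc]
      rw [h5] at hr
      obtain ⟨r', rfl⟩ : ∃ r', r = r' + 1 := ⟨r - 1, by omega⟩
      obtain ⟨d, e, hd, he, h⟩ := ih hl' r' (by omega)
      refine ⟨Fin.cons c d, Fin.cons 0 (fun i => e i + 1), ?_, ?_, ?_⟩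
      · intro i
        refine Fin.cases ?_ (fun i => ?_) i
        · simpa using hl c List.mem_cons_self
        · simpa using hd i
      · intro i
        refine Fin.cases ?_ (fun i => ?_) i
        · simp
        · have := he i
          simp only [Fin.cons_succ, List.length_cons]
          omega
      · rw [Nat.ofDigits_cons, h, Fin.sum_univ_succ]
        simp only [Fin.cons_zero, Fin.cons_succ, pow_zero, mul_one]
        rw [Finset.mul_sum]
        congr 1
        refine Finset.sum_congr rfl fun i _ => ?_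
        ring

theorem num_digits (b r : ℕ) (hb : 2 ≤ b) :
    ∃ C : ℝ, 1 ≤ C ∧ ∀ L : ℝ, 1 ≤ L → ∀ F : Finset ℤ,
      (∀ y ∈ F, nonzeroDigits b y ≤ r ∧ Real.log |(y : ℝ)| ≤ L) → (F.card : ℝ) ≤ C * L ^ r := by
  have hbR : (2 : ℝ) ≤ b := by exact_mod_cast hb
  refine ⟨2 * (b * 5) ^ r, ?_, ?_⟩
  · have : (1 : ℝ) ≤ ((b : ℝ) * 5) ^ r := one_le_pow₀ (by linarith)
    linarith
  intro L hL F hF
  obtain ⟨E, hE⟩ : ∃ E : ℕ, E = ⌊2 * L⌋₊ + 1 := ⟨_, rfl⟩
  have hlen : ∀ y ∈ F, (Nat.digits b y.natAbs).length ≤ E := by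
    intro y hy
    by_cases h0 : y = 0
    · subst h0
      simp
    · have h1 := (hF y hy).2
      have h2 : y.natAbs ≠ 0 := Int.natAbs_ne_zero.2 h0
      have h3 := Nat.base_pow_length_digits_le' (b - 2) y.natAbs h2
      have h4 : b - 2 + 2 = b := by omega
      rw [h4] at h3
      set ℓ := (Nat.digits b y.natAbs).length with hℓ
      have h5 : ((b : ℝ)) ^ ℓ ≤ b * (y.natAbs : ℝ) := by exact_mod_cast h3
      have h6 : (y.natAbs : ℝ) = |(y : ℝ)| := by rw [Nat.cast_natAbs, Int.cast_abs]
      rw [h6] at h5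
      have h7 : (0 : ℝ) < |(y : ℝ)| := abs_pos.2 (by exact_mod_cast h0)
      have h8 := Real.log_le_log (by positivity) h5
      rw [Real.log_pow, Real.log_mul (by positivity) h7.ne'] at h8
      have h9 : (1 : ℝ) / 2 < Real.log b := by
        have h10 := Real.log_two_gt_d9
        have h11 := Real.log_le_log (by norm_num) hbR
        linarith
      have h10 : (ℓ : ℝ) - 1 ≤ 2 * L := by
        by_contra hcon
        push Not at hcon
        have h11 : ((ℓ : ℝ) - 1) * Real.log b ≤ L := by linarith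
        have h12 : 2 * L * (1 / 2) < ((ℓ : ℝ) - 1) * Real.log b := by
          apply mul_lt_mul'' hcon h9 (by linarith) (by norm_num)
        linarith
      rcases Nat.eq_zero_or_pos ℓ with h11 | h11
      · rw [h11]; exact Nat.zero_le _
      · have h12 : ((ℓ - 1 : ℕ) : ℝ) ≤ 2 * L := by
          rw [Nat.cast_sub h11]
          simpa using h10
        have h13 := Nat.le_floor h12
        omega
  have hEle : (E : ℝ) + 1 ≤ 5 * L := by
    have := Nat.floor_le (by linarith : 0 ≤ 2 * L)
    rw [hE]
    push_cast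
    linarith
  have hrep : ∀ y : ℤ, ∃ t : ℤ × (Fin r → ℕ) × (Fin r → ℕ), y ∈ F →
      (t ∈ ({1, -1} : Finset ℤ) ×ˢ ((Fintype.piFinset fun _ : Fin r => range b) ×ˢ
        (Fintype.piFinset fun _ : Fin r => range (E + 1)))) ∧
      y = t.1 * ((∑ i, t.2.1 i * b ^ (t.2.2 i) : ℕ) : ℤ) := by
    intro y
    by_cases hy : y ∈ F
    · obtain ⟨d, e, hd, he, h⟩ := ofDigits_rep hb (Nat.digits b y.natAbs)
        (fun d hd => Nat.digits_lt_base hb hd) r (hF y hy).1
      rw [Nat.ofDigits_digits] at h
      have hmem : ((d, e) : (Fin r → ℕ) × (Fin r → ℕ)) ∈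
          (Fintype.piFinset fun _ : Fin r => range b) ×ˢ
            (Fintype.piFinset fun _ : Fin r => range (E + 1)) := by
        rw [mem_product, Fintype.mem_piFinset, Fintype.mem_piFinset]
        refine ⟨fun i => mem_range.2 (hd i), fun i => mem_range.2 ?_⟩
        have h1 := he i
        have h2 := hlen y hy
        simp only
        omega
      rcases Int.natAbs_eq y with h1 | h1
      · refine ⟨(1, d, e), fun _ => ⟨mem_product.2 ⟨by simp, hmem⟩, ?_⟩⟩
        simp only
        rw [← h, one_mul]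
        exact h1
      · refine ⟨(-1, d, e), fun _ => ⟨mem_product.2 ⟨by simp, hmem⟩, ?_⟩⟩
        simp only
        rw [← h, neg_one_mul]
        exact h1
    · exact ⟨(0, 0, 0), fun h => absurd h hy⟩
  choose t ht using hrep
  have h1 : F.card ≤ (({1, -1} : Finset ℤ) ×ˢ ((Fintype.piFinset fun _ : Fin r => range b) ×ˢ
        (Fintype.piFinset fun _ : Fin r => range (E + 1)))).card := by
    apply card_le_card_of_injOn t
    · intro y hy
      exact (ht y hy).1
    · intro y hy z hz hyz
      have h2 := (ht y hy).2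
      have h3 := (ht z hz).2
      rw [h2, h3, hyz]
  rw [card_product, card_product, Fintype.card_piFinset, Fintype.card_piFinset] at h1
  simp only [card_range, prod_const, card_univ, Fintype.card_fin] at h1
  have h2 : ({1, -1} : Finset ℤ).card ≤ 2 := card_le_two
  have h3 : F.card ≤ 2 * (b ^ r * (E + 1) ^ r) := h1.trans (Nat.mul_le_mul_right _ h2)
  have h4 : (F.card : ℝ) ≤ 2 * ((b : ℝ) ^ r * ((E : ℝ) + 1) ^ r) := by exact_mod_cast h3
  calc (F.card : ℝ) ≤ 2 * ((b : ℝ) ^ r * ((E : ℝ) + 1) ^ r) := h4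
    _ ≤ 2 * ((b : ℝ) ^ r * (5 * L) ^ r) := by gcongr
    _ = 2 * (b * 5) ^ r * L ^ r := by rw [mul_pow, mul_pow]; ring

end Pool.Agent.U773.SP
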