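import Mathlib
import Pool.Agent.U773.SP.CycDef
import Pool.Agent.U773.SP.Cyc
import Pool.Agent.U773.SP.Orb2
import Pool.Agent.U773.SP.Digits2

/-! The counts for the trajectories of the `3x+1` map. -/

set_option autoImplicit false

namespace Pool.Agent.U773.SP.C31

open Finset Pool.Agent.U773.SP

open scoped Classical

lemma hT : Tm ((3 : ℕ) : ℤ) 1 = T := by
  funext x
  rfl

lemma log2 : Real.log (1 + |((1 : ℤ) : ℝ)|) ≤ 1 := by
  have := Real.log_two_lt_d9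
  norm_num
  linarith

lemma log2' : 0 ≤ Real.log (1 + |((1 : ℤ) : ℝ)|) :=
  Real.log_nonneg (by norm_num)

/-- the gap law -/
lemma gap31 (S : Finset ℕ) (r : ℕ) (hS : 2 ∉ S ∨ 3 ∉ S) : ∃ C : ℝ, 0 < C ∧
    ∀ (x : ℤ) (j : ℕ) (M : ℝ), 1 ≤ M → Short S r M x → Short S r M (T^[j] x) →
      C * (1 + Real.log M) < oddTerms x j → Real.log |(x : ℝ)| ≤ C * (1 + j + Real.log M) := by
  obtain ⟨C1, hC1, gap1⟩ := gap S 3 (by norm_num) r
  refine ⟨2 * C1, by linarith, ?_⟩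
  intro x j M hM hx hy ho
  have hl := Real.log_nonneg hM
  have hj : (0 : ℝ) ≤ j := Nat.cast_nonneg _
  have hbig : C1 * (1 + Real.log M) < oddc ((3 : ℕ) : ℤ) 1 x j := by
    have e : oddc ((3 : ℕ) : ℤ) 1 x j = oddTerms x j := by
      unfold oddc oddTerms
      rw [hT]
    rw [e]
    refine lt_of_le_of_lt ?_ ho
    apply mul_le_mul_of_nonneg_right _ (by linarith)
    linarith
  rcases gap1 1 x j M (by norm_num) hM hx (by rw [hT]; exact hy) with h | h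
  · refine h.trans ?_
    have e1 : C1 * (j + (1 + Real.log (1 + |((1 : ℤ) : ℝ)|) + Real.log M)) ≤
        C1 * (2 * (1 + j + Real.log M)) := by
      gcongr
      linarith [log2]
    refine e1.trans (le_of_eq ?_)
    ring
  · exfalso
    rcases hS with h2 | h3
    · have h4 := h.2 h2
      have h5 : (oddc ((3 : ℕ) : ℤ) 1 x j : ℝ) ≤ j := by exact_mod_cast oddc_le _ _ _ _
      linarith
    · have h4 := h.1 3 Nat.prime_three (dvd_refl 3) h3
      linarith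

/-- odd terms with a property `P` of short integers, abstract form -/
lemma odd31 (S : Finset ℕ) (r κ : ℕ) (hS : 2 ∉ S ∨ 3 ∉ S) :
    ∃ C : ℝ, 1 ≤ C ∧ ∀ (x : ℤ) (n : ℕ) (M D : ℝ) (P : ℤ → Prop), 1 ≤ M → 1 ≤ n →
      0 ≤ D → (∀ y, P y → Short S r M y) →
      (∀ L : ℝ, 1 ≤ L → ∀ F : Finset ℤ, (∀ y ∈ F, P y ∧ Real.log |(y : ℝ)| ≤ L) →
        (F.card : ℝ) ≤ D * L ^ κ) →
      (∀ i < n, ∀ k < n, T^[i] x = T^[k] x → i = k) →
      (((range n).filter (fun i => T^[i] x % 2 = 1 ∧ P (T^[i] x))).card : ℝ) ≤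
        C * ((1 + Real.log (1 + |((1 : ℤ) : ℝ)|) + Real.log M) +
          D * (1 + Real.log (1 + |((1 : ℤ) : ℝ)|) + Real.log M) ^ κ) *
          (n : ℝ) ^ ((κ : ℝ) / (κ + 1)) := by
  by_cases h3 : 3 ∉ S
  · obtain ⟨C, hC, h⟩ := traj_odd' S 3 (by norm_num) 3 Nat.prime_three (dvd_refl 3) h3 r κ
    refine ⟨C, hC, ?_⟩
    intro x n M D P hM hn hD hP hN hinj
    have h1 := h 1 x n M D P (by norm_num) hM hn hD hP hN (by rw [hT]; exact hinj)
    rw [hT] at h1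
    exact (card_inst' _ _ _ _).trans_le h1
  · have h2 : 2 ∉ S := hS.resolve_right (by simpa using h3)
    obtain ⟨C, hC, h⟩ := traj_all' S 3 (by norm_num) h2 r κ
    refine ⟨C, hC, ?_⟩
    intro x n M D P hM hn hD hP hN hinj
    have h1 := h 1 x n M D P (by norm_num) hM hn hD hP hN (by rw [hT]; exact hinj)
    rw [hT] at h1
    have h4 : (((range n).filter (fun i => T^[i] x % 2 = 1 ∧ P (T^[i] x))).card : ℝ)
        ≤ ((range n).filter (fun i => P (T^[i] x))).card := by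
      exact_mod_cast card_le_card (fun i hi => by
        rw [mem_filter] at hi ⊢
        exact ⟨hi.1, hi.2.2⟩)
    exact h4.trans h1

lemma all31 (S : Finset ℕ) (r κ : ℕ) (hS : 2 ∉ S) :
    ∃ C : ℝ, 1 ≤ C ∧ ∀ (x : ℤ) (n : ℕ) (M D : ℝ) (P : ℤ → Prop), 1 ≤ M → 1 ≤ n →
      0 ≤ D → (∀ y, P y → Short S r M y) →
      (∀ L : ℝ, 1 ≤ L → ∀ F : Finset ℤ, (∀ y ∈ F, P y ∧ Real.log |(y : ℝ)| ≤ L) →
        (F.card : ℝ) ≤ D * L ^ κ) →
      (∀ i < n, ∀ k < n, T^[i] x = T^[k] x → i = k) →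
      (((range n).filter (fun i => P (T^[i] x))).card : ℝ) ≤
        C * ((1 + Real.log (1 + |((1 : ℤ) : ℝ)|) + Real.log M) +
          D * (1 + Real.log (1 + |((1 : ℤ) : ℝ)|) + Real.log M) ^ κ) *
          (n : ℝ) ^ ((κ : ℝ) / (κ + 1)) := by
  obtain ⟨C, hC, h⟩ := traj_all' S 3 (by norm_num) hS r κ
  refine ⟨C, hC, ?_⟩
  intro x n M D P hM hn hD hP hN hinj
  have h1 := h 1 x n M D P (by norm_num) hM hn hD hP hN (by rw [hT]; exact hinj)
  rw [hT] at h1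
  exact h1

lemma K_le {M : ℝ} (hM : 1 ≤ M) :
    1 ≤ 1 + Real.log (1 + |((1 : ℤ) : ℝ)|) + Real.log M ∧
    1 + Real.log (1 + |((1 : ℤ) : ℝ)|) + Real.log M ≤ 2 * (1 + Real.log M) := by
  have hl := Real.log_nonneg hM
  have h1 := log2
  have h2 := log2'
  constructor <;> linarith

/-- **short odd terms** -/
theorem odd_short (S : Finset ℕ) (r : ℕ) (hS : 2 ∉ S ∨ 3 ∉ S) :
    ∃ C : ℝ, 0 < C ∧ ∀ (x : ℤ) (n : ℕ) (M : ℝ), 1 ≤ M → 1 ≤ n →
      (∀ i < n, ∀ k < n, T^[i] x = T^[k] x → i = k) →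
      (((range n).filter (fun i => T^[i] x % 2 = 1 ∧ Short S r M (T^[i] x))).card : ℝ) ≤
        C * M ^ (r + 1) * (n : ℝ) ^ (((r * S.card : ℕ) : ℝ) / ((r * S.card : ℕ) + 1)) := by
  obtain ⟨C₁, hC₁, h⟩ := odd31 S r (r * S.card) hS
  obtain ⟨C₂, hC₂, hN⟩ := num_short S r
  obtain ⟨C, hC, hc⟩ := const_short r (r * S.card) C₁ C₂ 2 hC₁ hC₂ (by norm_num)
  refine ⟨C, hC, ?_⟩
  intro x n M hM hn hinj
  have hl := Real.log_nonneg hM
  have h1 := h x n M (C₂ * (M ^ r * (1 + Real.log M) ^ (r * S.card))) (Short S r M) hM hn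
    (by positivity) (fun y hy => hy) (fun L hL F hF => hN L M hL hM F hF) hinj
  refine h1.trans ?_
  apply mul_le_mul_of_nonneg_right _ (by positivity)
  exact hc M _ hM (K_le hM).1 (K_le hM).2

/-- **short terms** -/
theorem all_short (S : Finset ℕ) (r : ℕ) (hS : 2 ∉ S) :
    ∃ C : ℝ, 0 < C ∧ ∀ (x : ℤ) (n : ℕ) (M : ℝ), 1 ≤ M → 1 ≤ n →
      (∀ i < n, ∀ k < n, T^[i] x = T^[k] x → i = k) →
      (((range n).filter (fun i => Short S r M (T^[i] x))).card : ℝ) ≤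
        C * M ^ (r + 1) * (n : ℝ) ^ (((r * S.card : ℕ) : ℝ) / ((r * S.card : ℕ) + 1)) := by
  obtain ⟨C₁, hC₁, h⟩ := all31 S r (r * S.card) hS
  obtain ⟨C₂, hC₂, hN⟩ := num_short S r
  obtain ⟨C, hC, hc⟩ := const_short r (r * S.card) C₁ C₂ 2 hC₁ hC₂ (by norm_num)
  refine ⟨C, hC, ?_⟩
  intro x n M hM hn hinj
  have hl := Real.log_nonneg hM
  have h1 := h x n M (C₂ * (M ^ r * (1 + Real.log M) ^ (r * S.card))) (Short S r M) hM hn
    (by positivity) (fun y hy => hy) (fun L hL F hF => hN L M hL hM F hF) hinj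
  refine h1.trans ?_
  apply mul_le_mul_of_nonneg_right _ (by positivity)
  exact hc M _ hM (K_le hM).1 (K_le hM).2

/-- **odd terms with few digits** -/
theorem odd_digits (b r : ℕ) (hb : 2 ≤ b) (h6 : ¬ 6 ∣ b) :
    ∃ C : ℝ, 0 < C ∧ ∀ (x : ℤ) (n : ℕ), 1 ≤ n →
      (∀ i < n, ∀ k < n, T^[i] x = T^[k] x → i = k) →
      (((range n).filter (fun i => T^[i] x % 2 = 1 ∧ nonzeroDigits b (T^[i] x) ≤ r)).card : ℝ) ≤
        C * (n : ℝ) ^ ((r : ℝ) / (r + 1)) := by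
  have hS : 2 ∉ b.primeFactors ∨ 3 ∉ b.primeFactors := by
    by_contra hcon
    push Not at hcon
    have h2 := Nat.dvd_of_mem_primeFactors hcon.1
    have h3 := Nat.dvd_of_mem_primeFactors hcon.2
    exact h6 (by omega)
  have hb1 : (1 : ℝ) ≤ b := by exact_mod_cast (by omega : 1 ≤ b)
  have hl := Real.log_nonneg hb1
  obtain ⟨C₁, hC₁, h⟩ := odd31 b.primeFactors r r hS
  obtain ⟨C₂, hC₂, hN⟩ := num_digits b r hb
  refine ⟨C₁ * ((1 + Real.log (1 + |((1 : ℤ) : ℝ)|) + Real.log b) +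
          C₂ * (1 + Real.log (1 + |((1 : ℤ) : ℝ)|) + Real.log b) ^ r), ?_, ?_⟩
  · have := (K_le hb1).1
    positivity
  intro x n hn hinj
  exact (card_inst' _ _ _ _).trans_le (h x n b C₂ (fun y => nonzeroDigits b y ≤ r) hb1 hn
    (by linarith) (fun y hy => short_of_digits hb hy) hN hinj)

/-- **terms with few digits in an odd base** -/
theorem all_digits (b r : ℕ) (hb : 2 ≤ b) (h2 : b % 2 = 1) :
    ∃ C : ℝ, 0 < C ∧ ∀ (x : ℤ) (n : ℕ), 1 ≤ n →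
      (∀ i < n, ∀ k < n, T^[i] x = T^[k] x → i = k) →
      (((range n).filter (fun i => nonzeroDigits b (T^[i] x) ≤ r)).card : ℝ) ≤
        C * (n : ℝ) ^ ((r : ℝ) / (r + 1)) := by
  have hS : 2 ∉ b.primeFactors := by
    intro hcon
    have h2 := Nat.dvd_of_mem_primeFactors hcon
    omega
  have hb1 : (1 : ℝ) ≤ b := by exact_mod_cast (by omega : 1 ≤ b)
  have hl := Real.log_nonneg hb1
  obtain ⟨C₁, hC₁, h⟩ := all31 b.primeFactors r r hS
  obtain ⟨C₂, hC₂, hN⟩ := num_digits b r hb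
  refine ⟨C₁ * ((1 + Real.log (1 + |((1 : ℤ) : ℝ)|) + Real.log b) +
          C₂ * (1 + Real.log (1 + |((1 : ℤ) : ℝ)|) + Real.log b) ^ r), ?_, ?_⟩
  · have := (K_le hb1).1
    positivity
  intro x n hn hinj
  exact (card_inst' _ _ _ _).trans_le (h x n b C₂ (fun y => nonzeroDigits b y ≤ r) hb1 hn
    (by linarith) (fun y hy => short_of_digits hb hy) hN hinj)

/-- the count in cycles -/
lemma cyc_count (Q : ℤ → Prop) (R : ℕ → ℝ)
    (h : ∀ (x : ℤ) (n : ℕ), 1 ≤ n → (∀ i < n, ∀ k < n, T^[i] x = T^[k] x → i = k) →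
      (((range n).filter (fun i => Q (T^[i] x))).card : ℝ) ≤ R n)
    {Z : Finset ℤ} (hZ : IsCycle Z) : ((Z.filter Q).card : ℝ) ≤ R Z.card := by
  have hZ' : IsCyc T Z := hZ
  obtain ⟨x, h0, hx, hinj, hZ2⟩ := hZ'.exists
  have h1 := h x Z.card h0 hinj
  have h3 := card_filter_cyc hinj hZ2 Q
  have h4 : ((Z.filter Q).card : ℝ) = ((range Z.card).filter (fun i => Q (T^[i] x))).card := by
    exact_mod_cast h3
  rw [h4]
  exact h1

end Pool.Agent.U773.SP.C31
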