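import Mathlib
import Pool.Agent.U773.SP.Traj31
import Pool.Agent.U773.SP.DipT

/-! Short terms of the trajectories of the `3x+1` map. -/

set_option autoImplicit false

namespace Pool.Agent.U773.SP.C31

open Finset Pool.Agent.U773.SP

open scoped Classical

lemma oddc_eq (x : ℤ) (j : ℕ) : oddc ((3 : ℕ) : ℤ) 1 x j = oddTerms x j := by
  unfold oddc oddTerms
  rw [hT]

/-- the dip theorem for the `3x+1` map -/
lemma dip31 (S : Finset ℕ) (r : ℕ) (hS : 2 ∉ S ∨ 3 ∉ S) (ε : ℝ) (hε : 0 < ε) : ∃ C : ℝ, 1 ≤ C ∧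
    ∀ (x : ℤ) (j : ℕ) (M : ℝ), 1 ≤ M → Short S r M x → Short S r M (T^[j] x) →
      C * (1 + Real.log M) < oddTerms x j →
        ∃ i < j, |((T^[i] x : ℤ) : ℝ)| ≤ C * Real.exp (ε * (j + Real.log (1 + |(x : ℝ)|))) := by
  obtain ⟨C, hC, h⟩ := dip_T S 3 (by norm_num) r ε hε
  refine ⟨C, hC, ?_⟩
  intro x j M hM hx hy ho
  have h1 := h 1 x j M (by norm_num) hM hx (by rw [hT]; exact hy)
  rw [hT] at h1
  simp only [Int.cast_one, abs_one, mul_one] at h1
  rcases h1 with h1 | h1
  · exact h1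
  · exfalso
    have hl : (oddTerms x j : ℝ) ≤ j := by
      rw [← oddc_eq]
      exact_mod_cast oddc_le _ _ _ _
    rcases hS with h2 | h3
    · linarith [h1.2 h2]
    · have := h1.1 3 Nat.prime_three (dvd_refl 3) h3
      have e := oddc_eq x j
      simp only [Nat.cast_ofNat] at this e
      rw [e] at this
      linarith

lemma T_abs (x : ℤ) : 1 + |T x| ≤ 2 * (1 + |x|) := by
  unfold T
  split_ifs with h
  · rcases abs_cases (x / 2) with h1 | h1 <;> rcases abs_cases x with h2 | h2 <;> omega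
  · rcases abs_cases ((3 * x + 1) / 2) with h1 | h1 <;> rcases abs_cases x with h2 | h2 <;> omega

lemma T_iter_abs (x : ℤ) (i : ℕ) : 1 + |T^[i] x| ≤ 2 ^ i * (1 + |x|) := by
  induction i with
  | zero => simp
  | succ i ih =>
    rw [Function.iterate_succ_apply', pow_succ]
    have := T_abs (T^[i] x)
    linarith

lemma log_iter (x : ℤ) (i : ℕ) : Real.log (1 + |((T^[i] x : ℤ) : ℝ)|) ≤
    i + Real.log (1 + |(x : ℝ)|) := by
  have h1 : (1 : ℝ) + |((T^[i] x : ℤ) : ℝ)| ≤ 2 ^ i * (1 + |(x : ℝ)|) := by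
    exact_mod_cast T_iter_abs x i
  have h2 := Real.log_le_log (by positivity) h1
  rw [Real.log_mul (by positivity) (by positivity), Real.log_pow] at h2
  have h3 := Real.log_two_lt_d9
  have h4 : (0 : ℝ) ≤ i := Nat.cast_nonneg _
  nlinarith

lemma oddTerms_shift (x : ℤ) (i k : ℕ) (h : i ≤ k) :
    oddTerms (T^[i] x) (k - i) = ((Ico i k).filter (fun l => T^[l] x % 2 = 1)).card := by
  have h1 := oddc_shift ((3 : ℕ) : ℤ) 1 x i k h
  rw [hT, oddc_eq] at h1
  exact h1

/-- windows in which the trajectory stays large -/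
lemma window (S : Finset ℕ) (r : ℕ) (hS : 2 ∉ S ∨ 3 ∉ S) (ε : ℝ) (hε : 0 < ε) : ∃ C : ℝ, 1 ≤ C ∧
    ∀ (x : ℤ) (m n : ℕ) (M : ℝ), 1 ≤ M →
      (∀ i, m ≤ i → i < n → C * Real.exp (ε * (2 * n + Real.log (1 + |(x : ℝ)|))) <
        |((T^[i] x : ℤ) : ℝ)|) →
      (((Ico m n).filter (fun i => T^[i] x % 2 = 1 ∧ Short S r M (T^[i] x))).card : ℝ) ≤
        C * (1 + Real.log M) := by
  obtain ⟨C, hC, h⟩ := dip31 S r hS ε hε
  refine ⟨C + 1, by linarith, ?_⟩
  intro x m n M hM hbig
  have hlM : 0 ≤ Real.log M := Real.log_nonneg hM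
  have h1 := card_le_of_ext (fun i => T^[i] x) (fun y => y % 2 = 1)
    ((Ico m n).filter (fun i => T^[i] x % 2 = 1 ∧ Short S r M (T^[i] x)))
    (C * (1 + Real.log M)) (by positivity) (fun i hi => (mem_filter.1 hi).2.1) (by
      intro i hi k hk hik _
      rw [mem_filter, mem_Ico] at hi hk
      by_contra hcon
      push Not at hcon
      have e1 : ((Ico i k).filter (fun l => T^[l] x % 2 = 1)).card = oddTerms (T^[i] x) (k - i) :=
        (oddTerms_shift x i k hik.le).symm
      have e2 : T^[k - i] (T^[i] x) = T^[k] x := by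
        rw [← Function.iterate_add_apply]
        congr 2
        omega
      have h3 : C * (1 + Real.log M) < oddTerms (T^[i] x) (k - i) := by
        rw [← e1]
        exact hcon.trans_le (card_inst' _ _ _ _).le
      obtain ⟨l, hl, h4⟩ := h _ _ M hM hi.2.2 (by rw [e2]; exact hk.2.2) h3
      rw [← Function.iterate_add_apply] at h4
      have h5 := hbig (l + i) (by omega) (by omega)
      have h6 := log_iter x i
      have h7 : ((k - i : ℕ) : ℝ) ≤ n := by exact_mod_cast (by omega : k - i ≤ n)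
      have h8 : (i : ℝ) ≤ n := by exact_mod_cast (by omega : i ≤ n)
      have h9 : C * Real.exp (ε * (((k - i : ℕ) : ℝ) +
          Real.log (1 + |((T^[i] x : ℤ) : ℝ)|))) ≤
          (C + 1) * Real.exp (ε * (2 * n + Real.log (1 + |(x : ℝ)|))) := by
        have e3 : Real.exp (ε * (((k - i : ℕ) : ℝ) + Real.log (1 + |((T^[i] x : ℤ) : ℝ)|))) ≤
            Real.exp (ε * (2 * n + Real.log (1 + |(x : ℝ)|))) := by
          rw [Real.exp_le_exp]
          apply mul_le_mul_of_nonneg_left _ hε.le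
          linarith
        have := Real.exp_pos (ε * (2 * n + Real.log (1 + |(x : ℝ)|)))
        nlinarith
      linarith)
  refine h1.trans ?_
  nlinarith

/-- a divergent trajectory -/
def Divergent (x : ℤ) : Prop := Filter.Tendsto (fun k => |T^[k] x|) Filter.atTop Filter.atTop

lemma Divergent.inj {x : ℤ} (hx : Divergent x) {i k : ℕ} (h : T^[i] x = T^[k] x) : i = k := by
  by_contra hne
  wlog hik : i < k generalizing i k
  · exact this h.symm (Ne.symm hne) (by omega)
  have h1 : ∀ m : ℕ, T^[m * (k - i) + i] x = T^[i] x := by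
    intro m
    induction m with
    | zero => simp
    | succ m ih =>
      have e : (m + 1) * (k - i) + i = (m * (k - i)) + k := by
        have : (m + 1) * (k - i) = m * (k - i) + (k - i) := by ring
        omega
      rw [e, Function.iterate_add_apply, ← h, ← Function.iterate_add_apply, ih]
  have h2 := (hx.eventually_gt_atTop (|T^[i] x|))
  rw [Filter.eventually_atTop] at h2
  obtain ⟨K, hK⟩ := h2
  have h3 := hK (K * (k - i) + i) (by
    have : K ≤ K * (k - i) := Nat.le_mul_of_pos_right K (by omega)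
    omega)
  rw [h1] at h3
  exact lt_irrefl _ h3

end Pool.Agent.U773.SP.C31
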