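import Mathlib

/-! The generalized Hasse–Syracuse maps of Möller. -/

namespace Pool.Agent.U773.SP.Mol

/-- the map `T`: `x / d` if `d ∣ x`, and `(m x - r_j) / d` if `x ≡ j` modulo `d`, `0 < j < d` -/
def T (d m : ℕ) (r : ℤ → ℤ) (x : ℤ) : ℤ :=
  if (d : ℤ) ∣ x then x / d else (m * x - r (x % d)) / d

/-- the family `r_j`, `0 < j < d`, is admissible: `r_j ≡ m j` modulo `d` -/
def Admissible (d m : ℕ) (r : ℤ → ℤ) : Prop := ∀ j : ℤ, 0 < j → j < d → (d : ℤ) ∣ m * j - r j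

/-- `n` is positive and not divisible by `d` and no term of its `T`-orbit is smaller than `n` -/
def Exceptional (d m : ℕ) (r : ℤ → ℤ) (n : ℤ) : Prop :=
  0 < n ∧ ¬ (d : ℤ) ∣ n ∧ ∀ k : ℕ, n ≤ (T d m r)^[k] n

end Pool.Agent.U773.SP.Mol
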