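import Mathlib
import Pool.Agent.U773.SP.Gen
import Pool.Agent.U773.SP.MolDef

/-! Short terms in the orbits of the generalized Hasse–Syracuse maps. -/

set_option autoImplicit false

namespace Pool.Agent.U773.SP.Mol

open Finset Pool.Agent.U773.SP

open scoped Classical

variable {d m : ℕ} {r : ℤ → ℤ}

lemma step (hd : 2 ≤ d) (ha : Admissible d m r) (x : ℤ) :
    ((d : ℕ) : ℤ) * T d m r x = ((if (d : ℤ) ∣ x then 1 else m : ℕ) : ℤ) * x +
      (if (d : ℤ) ∣ x then 0 else - r (x % d)) := by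
  unfold T
  have hd0 : (0 : ℤ) < d := by exact_mod_cast (by omega : 0 < d)
  by_cases h : (d : ℤ) ∣ x
  · rw [if_pos h, if_pos h, if_pos h, Int.mul_ediv_cancel' h]
    push_cast
    ring
  · rw [if_neg h, if_neg h, if_neg h]
    have h1 : 0 < x % d := lt_of_le_of_ne (Int.emod_nonneg _ hd0.ne') fun h2 =>
      h (Int.dvd_of_emod_eq_zero h2.symm)
    have h2 := ha (x % d) h1 (Int.emod_lt_of_pos _ hd0)
    have h3 : (d : ℤ) ∣ m * x - r (x % d) := by
      have h4 : (m : ℤ) * x - r (x % d) = (m * (x % d) - r (x % d)) + d * (m * (x / d)) := by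
        conv_lhs => rw [← Int.mul_ediv_add_emod x d]
        rw [Int.add_emod, Int.mul_emod_right, zero_add, Int.emod_emod_of_dvd _ dvd_rfl,
          Int.emod_emod_of_dvd _ dvd_rfl]
        ring
      rw [h4]
      exact dvd_add h2 (dvd_mul_right _ _)
    rw [Int.mul_ediv_cancel' h3]
    ring

lemma isChain (hd : 2 ≤ d) (hm : 1 ≤ m) (ha : Admissible d m r) {R : ℝ} (hR : 1 ≤ R)
    (hr : ∀ j : ℤ, 0 < j → j < d → |(r j : ℝ)| ≤ R) (n : ℕ) (x : ℤ) :
    IsChain (d * m).primeFactors (d + m) R n (fun i => (T d m r)^[i] x)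
      (fun i => if (d : ℤ) ∣ (T d m r)^[i] x then 1 else m) (fun _ => d)
      (fun i => if (d : ℤ) ∣ (T d m r)^[i] x then 0 else - r ((T d m r)^[i] x % d)) := by
  intro i _
  have hd0 : (0 : ℤ) < d := by exact_mod_cast (by omega : 0 < d)
  refine ⟨?_, ⟨by show 1 ≤ d; omega, by show d ≤ d + m; omega, fun p hp hpd =>
    Nat.mem_primeFactors.2 ⟨hp, hpd.mul_right m, by positivity⟩⟩, ?_, ?_⟩
  · by_cases h : (d : ℤ) ∣ (T d m r)^[i] x
    · simp only [if_pos h]
      exact ⟨le_refl 1, by omega, fun p hp hd => absurd (Nat.dvd_one.1 hd) hp.ne_one⟩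
    · simp only [if_neg h]
      exact ⟨hm, by omega, fun p hp hpd => Nat.mem_primeFactors.2
        ⟨hp, hpd.mul_left d, by positivity⟩⟩
  · simp only [Function.iterate_succ_apply']
    exact step hd ha _
  · by_cases h : (d : ℤ) ∣ (T d m r)^[i] x
    · simp only [if_pos h]
      rw [Int.cast_zero, abs_zero]
      linarith
    · simp only [if_neg h]
      rw [Int.cast_neg, abs_neg]
      apply hr
      · exact lt_of_le_of_ne (Int.emod_nonneg _ hd0.ne') fun h2 =>
          h (Int.dvd_of_emod_eq_zero h2.symm)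
      · exact Int.emod_lt_of_pos _ hd0

/-- balanced steps are few -/
lemma bal_few (hd : 2 ≤ d) (hm : 1 ≤ m) (hc : Nat.Coprime m d) {S : Finset ℕ} {q : ℕ}
    (hq : q.Prime) (hqd : q ∣ d * m) (hqS : q ∉ S) (x : ℤ) {i k : ℕ} {T₀ : ℝ}
    (h : Bal S (fun i => if (d : ℤ) ∣ (T d m r)^[i] x then 1 else m) (fun _ => d) i k T₀) :
    (((Ico i k).filter (fun l => ¬ (d : ℤ) ∣ (T d m r)^[l] x)).card : ℝ) ≤ T₀ := by
  rcases (hq.dvd_mul).1 hqd with h1 | h1
  · have h2 := h.all hq hqS (fun l _ _ => by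
      by_cases h3 : (d : ℤ) ∣ (T d m r)^[l] x
      · simp only [if_pos h3]
        exact ⟨one_ne_zero, hq.not_dvd_one⟩
      · simp only [if_neg h3]
        refine ⟨by omega, fun h4 => ?_⟩
        exact hq.not_dvd_one (hc ▸ Nat.dvd_gcd h4 h1)) (fun l _ _ => ⟨by omega, h1⟩)
    refine le_trans ?_ h2
    have h3 := card_filter_le (Ico i k) (fun l => ¬ (d : ℤ) ∣ (T d m r)^[l] x)
    rw [Nat.card_Ico] at h3
    exact_mod_cast h3
  · exact (card_inst' _ _ _ _).trans_le (h.marked hq hqS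
      (fun l => ¬ (d : ℤ) ∣ (T d m r)^[l] x) (fun l _ _ => by
      by_cases h3 : (d : ℤ) ∣ (T d m r)^[l] x
      · simp only [if_pos h3]
        exact ⟨one_ne_zero, fun h4 => absurd h3 h4⟩
      · simp only [if_neg h3]
        exact ⟨by omega, fun _ => h1⟩) (fun l _ _ => ⟨by omega, fun h4 =>
          hq.not_dvd_one (hc ▸ Nat.dvd_gcd h1 h4)⟩))

end Pool.Agent.U773.SP.Mol
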